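import Mathlib

set_option autoImplicit false

/-!
# From bounded sets to all absolutely continuous laws
-/

namespace Pool.Agent.U776.PL

open MeasureTheory Filter Topology

section

variable {A : ℕ → Set ℝ} (hA : ∀ n, MeasurableSet (A n)) {π : ℝ} (h0 : 0 ≤ π) (h1 : π ≤ 1)
  (h : ∀ B : Set ℝ, MeasurableSet B → ∀ M : ℝ, 0 < M →
    Tendsto (fun n => volume.real ((B ∩ Set.Ioc 0 M) ∩ A n)) atTop
      (𝓝 (volume.real (B ∩ Set.Ioc 0 M) * π)))

include hA h0 h1 h

/-- sets of finite measure -/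
lemma dens_fin {s : Set ℝ} (hs : MeasurableSet s) (hsf : (volume.restrict (Set.Ioi (0 : ℝ))) s < ⊤) :
    Tendsto (fun n => (volume.restrict (Set.Ioi (0 : ℝ))).real (s ∩ A n)) atTop
      (𝓝 ((volume.restrict (Set.Ioi (0 : ℝ))).real s * π)) := by
  set ν := volume.restrict (Set.Ioi (0 : ℝ)) with hν
  have hle : ∀ B : Set ℝ, MeasurableSet B → ∀ M : ℝ, volume (B ∩ Set.Ioc 0 M) = ν (B ∩ Set.Iic M) := by
    intro B hB M
    rw [hν, Measure.restrict_apply (hB.inter measurableSet_Iic)]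
    congr 1
    ext x
    simp only [Set.mem_inter_iff, Set.mem_Ioc, Set.mem_Iic, Set.mem_Ioi]
    tauto
  have hlim : Tendsto (fun M : ℕ => ν (s ∩ Set.Iic (M : ℝ))) atTop (𝓝 (ν s)) := by
    have h2 : (⋃ M : ℕ, s ∩ Set.Iic (M : ℝ)) = s := by
      rw [← Set.inter_iUnion]
      have : (⋃ M : ℕ, Set.Iic (M : ℝ)) = Set.univ := by
        rw [Set.eq_univ_iff_forall]
        intro x
        obtain ⟨n, hn⟩ := exists_nat_ge x
        exact Set.mem_iUnion.2 ⟨n, hn⟩
      rw [this, Set.inter_univ]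
    have h3 := tendsto_measure_iUnion_atTop (μ := ν) (s := fun M : ℕ => s ∩ Set.Iic (M : ℝ)) (by
      intro i j hij
      exact Set.inter_subset_inter_right _ (Set.Iic_subset_Iic.2 (by exact_mod_cast hij)))
    rwa [h2] at h3
  have hlim' : Tendsto (fun M : ℕ => ν.real (s ∩ Set.Iic (M : ℝ))) atTop (𝓝 (ν.real s)) :=
    (ENNReal.tendsto_toReal hsf.ne).comp hlim
  rw [Metric.tendsto_atTop]
  intro ε hε
  have hev := (Metric.tendsto_atTop.1 hlim') (ε / 4) (by positivity)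
  obtain ⟨M0, hM0⟩ := hev
  set M := M0 + 1 with hM
  have k1 := hM0 M (by omega)
  have hMpos : (0 : ℝ) < (M : ℝ) := by
    rw [hM]
    positivity
  obtain ⟨N, hN⟩ := (Metric.tendsto_atTop.1 (h s hs M hMpos)) (ε / 4) (by positivity)
  refine ⟨N, fun n hn => ?_⟩
  have k2 := hN n hn
  rw [Real.dist_eq] at k1 k2 ⊢
  have e1 : volume.real (s ∩ Set.Ioc 0 (M : ℝ)) = ν.real (s ∩ Set.Iic (M : ℝ)) := by
    rw [measureReal_def, measureReal_def, hle s hs]
  have e2 : volume.real ((s ∩ Set.Ioc 0 (M : ℝ)) ∩ A n) = ν.real ((s ∩ A n) ∩ Set.Iic (M : ℝ)) := by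
    have : (s ∩ Set.Ioc 0 (M : ℝ)) ∩ A n = (s ∩ A n) ∩ Set.Ioc 0 (M : ℝ) := by
      rw [Set.inter_right_comm]
    rw [this, measureReal_def, measureReal_def, hle _ (hs.inter (hA n))]
  rw [e1, e2] at k2
  have k3 : ν.real ((s ∩ A n) ∩ Set.Iic (M : ℝ)) ≤ ν.real (s ∩ A n) :=
    measureReal_mono Set.inter_subset_left
      (ne_top_of_le_ne_top hsf.ne (measure_mono Set.inter_subset_left))
  have hdecomp : ν.real s = ν.real (s ∩ Set.Iic (M : ℝ)) + ν.real (s \ Set.Iic (M : ℝ)) := by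
    rw [measureReal_inter_add_sdiff measurableSet_Iic hsf.ne]
  have k4 : ν.real (s ∩ A n) ≤ ν.real ((s ∩ A n) ∩ Set.Iic (M : ℝ)) + ν.real (s \ Set.Iic (M : ℝ)) := by
    have h2 : s ∩ A n ⊆ ((s ∩ A n) ∩ Set.Iic (M : ℝ)) ∪ (s \ Set.Iic (M : ℝ)) := by
      intro x hx
      by_cases h3 : x ∈ Set.Iic (M : ℝ)
      · exact Or.inl ⟨hx, h3⟩
      · exact Or.inr ⟨hx.1, h3⟩
    refine (measureReal_mono h2 ?_).trans (measureReal_union_le _ _)
    refine ne_top_of_le_ne_top hsf.ne (measure_mono ?_)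
    exact Set.union_subset (fun x hx => hx.1.1) Set.sdiff_subset
  have k5 : ν.real (s \ Set.Iic (M : ℝ)) ≤ ε / 4 := by
    rw [abs_lt] at k1
    linarith
  have k6 : |ν.real (s ∩ Set.Iic (M : ℝ)) * π - ν.real s * π| ≤ ε / 4 := by
    rw [← sub_mul, abs_mul, abs_of_nonneg h0]
    calc |ν.real (s ∩ Set.Iic (M : ℝ)) - ν.real s| * π ≤ ε / 4 * 1 :=
          mul_le_mul k1.le h1 h0 (by positivity)
      _ = ε / 4 := mul_one _
  rw [abs_lt] at k2 ⊢
  rw [abs_le] at k6
  constructor <;> linarith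

/-- integrable densities -/
lemma dens_int {f : ℝ → ℝ} (hf : Integrable f (volume.restrict (Set.Ioi (0 : ℝ)))) :
    Tendsto (fun n => ∫ x in A n, f x ∂(volume.restrict (Set.Ioi (0 : ℝ)))) atTop
      (𝓝 ((∫ x, f x ∂(volume.restrict (Set.Ioi (0 : ℝ)))) * π)) := by
  set ν := volume.restrict (Set.Ioi (0 : ℝ)) with hν
  refine Integrable.induction (μ := ν) (fun f : ℝ → ℝ => Tendsto (fun n => ∫ x in A n, f x ∂ν) atTop
      (𝓝 ((∫ x, f x ∂ν) * π))) ?_ ?_ ?_ ?_ hf
  · intro c s hs hsf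
    have h2 := (dens_fin hA h0 h1 h hs hsf).const_mul c
    have e1 : ∀ n, ∫ x in A n, s.indicator (fun _ => c) x ∂ν = c * ν.real (s ∩ A n) := by
      intro n
      rw [integral_indicator hs, Measure.restrict_restrict hs, setIntegral_const, smul_eq_mul,
        mul_comm]
    have e2 : ∫ x, s.indicator (fun _ => c) x ∂ν = c * ν.real s := by
      rw [integral_indicator hs, setIntegral_const, smul_eq_mul, mul_comm]
    simp only [e1]
    rw [e2, mul_assoc]
    exact h2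
  · intro f g _ hf hg hPf hPg
    have e1 : ∀ n, ∫ x in A n, (f + g) x ∂ν = ∫ x in A n, f x ∂ν + ∫ x in A n, g x ∂ν := by
      intro n
      exact integral_add hf.integrableOn hg.integrableOn
    have e2 : ∫ x, (f + g) x ∂ν = ∫ x, f x ∂ν + ∫ x, g x ∂ν := integral_add hf hg
    simp only [e1]
    rw [e2, add_mul]
    exact hPf.add hPg
  · rw [← closure_subset_iff_isClosed]
    intro f hf
    rw [Set.mem_ofPred_eq, Metric.tendsto_atTop]
    intro ε hε
    rw [Metric.mem_closure_iff] at hf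
    obtain ⟨g, hg, hfg⟩ := hf (ε / 4) (by positivity)
    rw [Set.mem_ofPred_eq] at hg
    obtain ⟨N, hN⟩ := (Metric.tendsto_atTop.1 hg) (ε / 4) (by positivity)
    refine ⟨N, fun n hn => ?_⟩
    have k1 := hN n hn
    rw [Real.dist_eq] at k1 ⊢
    have hfi := L1.integrable_coeFn f
    have hgi := L1.integrable_coeFn g
    have hnorm : ∫ x, ‖f x - g x‖ ∂ν < ε / 4 := by
      have h2 : dist f g = ∫ x, ‖f x - g x‖ ∂ν := by
        rw [dist_eq_norm, L1.norm_eq_integral_norm]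
        refine integral_congr_ae ?_
        filter_upwards [Lp.coeFn_sub f g] with x hx
        rw [hx]
        rfl
      rw [← h2]
      exact hfg
    have k2 : |∫ x in A n, f x ∂ν - ∫ x in A n, g x ∂ν| ≤ ε / 4 := by
      rw [← integral_sub hfi.integrableOn hgi.integrableOn]
      refine (abs_integral_le_integral_abs).trans ?_
      refine le_trans ?_ hnorm.le
      exact setIntegral_le_integral (hfi.sub hgi).norm (ae_of_all _ fun x => abs_nonneg _)
    have k3 : |∫ x, f x ∂ν - ∫ x, g x ∂ν| ≤ ε / 4 := by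
      rw [← integral_sub hfi hgi]
      exact (abs_integral_le_integral_abs).trans hnorm.le
    have k4 : |(∫ x, g x ∂ν) * π - (∫ x, f x ∂ν) * π| ≤ ε / 4 := by
      rw [← sub_mul, abs_mul, abs_of_nonneg h0, abs_sub_comm]
      calc |∫ x, f x ∂ν - ∫ x, g x ∂ν| * π ≤ ε / 4 * 1 := mul_le_mul k3 h1 h0 (by positivity)
        _ = ε / 4 := mul_one _
    rw [abs_lt] at k1 ⊢
    rw [abs_le] at k2 k4
    constructor <;> linarith
  · intro f g hfg _ hPf
    have e1 : ∀ n, ∫ x in A n, g x ∂ν = ∫ x in A n, f x ∂ν := fun n =>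
      (integral_congr_ae (ae_restrict_of_ae hfg)).symm
    simp only [e1]
    rw [← integral_congr_ae hfg]
    exact hPf

/-- absolutely continuous laws -/
theorem dens_ac (μ : Measure ℝ) [IsProbabilityMeasure μ] (hac : μ ≪ volume) (hpos : ∀ᵐ x ∂μ, 0 < x) :
    Tendsto (fun n => μ.real (A n)) atTop (𝓝 π) := by
  set ν := volume.restrict (Set.Ioi (0 : ℝ)) with hν
  have hac' : μ ≪ ν := by
    intro s hs
    rw [hν, Measure.restrict_apply' measurableSet_Ioi] at hs
    have h2 := hac hs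
    have h3 : μ (Set.Ioi 0)ᶜ = 0 := hpos
    have h4 : s ⊆ (s ∩ Set.Ioi 0) ∪ (Set.Ioi 0)ᶜ := by
      intro x hx
      by_cases h5 : x ∈ Set.Ioi (0 : ℝ)
      · exact Or.inl ⟨hx, h5⟩
      · exact Or.inr h5
    exact measure_mono_null h4 (measure_union_null h2 h3)
  have hμ : ∀ s, MeasurableSet s → μ.real s = ∫ x in s, (μ.rnDeriv ν x).toReal ∂ν := by
    intro s _
    exact (Measure.setIntegral_toReal_rnDeriv hac' s).symm
  have h2 := dens_int hA h0 h1 h (f := fun x => (μ.rnDeriv ν x).toReal)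
    Measure.integrable_toReal_rnDeriv
  have e1 : (∫ x, (μ.rnDeriv ν x).toReal ∂ν) = 1 := by
    rw [← setIntegral_univ, ← hμ _ MeasurableSet.univ]
    simp
  rw [e1, one_mul] at h2
  simp only [← hν] at h2
  have e2 : ∀ n, μ.real (A n) = ∫ x in A n, (μ.rnDeriv ν x).toReal ∂ν := fun n => hμ _ (hA n)
  simp only [e2]
  exact h2

end

end Pool.Agent.U776.PL
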