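import Mathlib
import Pool.Agent.N176.GP.Low
import Pool.Agent.W66.RB
import Pool.Agent.W66.RE

set_option autoImplicit false

/-!
# Integers with prime rough part in an arbitrary interval of exponential length: upper bound
-/

namespace Pool.Agent.U776.PL

open Finset Filter Topology
open Pool.Agent.H305R2 (roughPart roughPart_prime roughPart_mul SM SM_pos SMz mem_SMz VV ZZ VV_nonneg
  ZZ_nonneg ZZ_le_exp VV_tendsto sum_le_VV sum_le_ZZ sum_rough_eq log_nat_tendsto count_inner)
open Pool.Agent.W66 (VV_le_log)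
open Pool.Agent.H305R2 (tail_le)

/-- a smooth number `≥ S` has a divisor in `[S, S q]` -/
lemma exists_div {q s : ℕ} {S : ℝ} (hS : 1 ≤ S) (hq : 1 ≤ q) (hs : s ∈ SM q) (hSs : S ≤ s) :
    ∃ d : ℕ, d ∣ s ∧ S ≤ d ∧ (d : ℝ) ≤ S * q := by
  classical
  have hs0 := SM_pos hs
  have hex : ∃ d : ℕ, d ∣ s ∧ S ≤ d := ⟨s, dvd_rfl, hSs⟩
  set d := Nat.find hex with hd
  obtain ⟨h1, h2⟩ := Nat.find_spec hex
  refine ⟨d, h1, h2, ?_⟩
  have hqr : (1 : ℝ) ≤ q := by exact_mod_cast hq
  have hd0 : 0 < d := Nat.pos_of_dvd_of_pos h1 hs0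
  rcases Nat.eq_or_lt_of_le (Nat.succ_le_of_lt hd0) with h | h
  · have : (d : ℝ) = 1 := by exact_mod_cast h.symm
    rw [this]; nlinarith
  · obtain ⟨l, hl, hld⟩ := Nat.exists_prime_and_dvd (show d ≠ 1 by omega)
    have hls : l ∣ s := hld.trans h1
    have hlq : l ≤ q := by
      have : l ∈ s.primeFactorsList := (Nat.mem_primeFactorsList hs0.ne').2 ⟨hl, hls⟩
      have h3 := hs.2 l this
      omega
    have hlt : d / l < d := Nat.div_lt_self hd0 hl.one_lt
    have hnot := Nat.find_min hex hlt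
    have h4 : d / l ∣ s := (Nat.div_dvd_of_dvd hld).trans h1
    have h5 : ((d / l : ℕ) : ℝ) < S := by
      by_contra h6
      exact hnot ⟨h4, not_lt.1 h6⟩
    have hlr : (0 : ℝ) < l := by exact_mod_cast hl.pos
    have h6 : (d : ℝ) = ((d / l : ℕ) : ℝ) * l := by
      have := Nat.div_mul_cancel hld
      exact_mod_cast this.symm
    rw [h6]
    have h7 : (l : ℝ) ≤ q := by exact_mod_cast hlq
    have h8 : (0 : ℝ) ≤ ((d / l : ℕ) : ℝ) := Nat.cast_nonneg _
    nlinarith

/-- multiples in an interval -/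
lemma card_mult (A H d : ℕ) (hd : 0 < d) :
    (((Ioc A (A + H)).filter (fun n => d ∣ n)).card : ℝ) ≤ H * (d : ℝ)⁻¹ + 1 := by
  have h1 : ((Ioc A (A + H)).filter (fun n => d ∣ n)).card + ((Ioc 0 A).filter (fun n => d ∣ n)).card =
      ((Ioc 0 (A + H)).filter (fun n => d ∣ n)).card := by
    rw [← Finset.card_union_of_disjoint]
    · congr 1
      ext n
      simp only [mem_union, mem_filter, mem_Ioc]
      constructor
      · rintro (⟨h, h'⟩ | ⟨h, h'⟩)
        · exact ⟨by omega, h'⟩
        · exact ⟨by omega, h'⟩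
      · rintro ⟨h, h'⟩
        by_cases h2 : A < n
        · left; exact ⟨by omega, h'⟩
        · right; exact ⟨by omega, h'⟩
    · rw [Finset.disjoint_left]
      intro n hn hn'
      simp only [mem_filter, mem_Ioc] at hn hn'
      omega
  rw [Nat.Ioc_filter_dvd_card_eq_div, Nat.Ioc_filter_dvd_card_eq_div] at h1
  have hd0 : (0 : ℝ) < d := by exact_mod_cast hd
  have h2 : (((A + H) / d : ℕ) : ℝ) ≤ ((A : ℝ) + H) / d := by
    have := @Nat.cast_div_le ℝ _ _ _ (A + H) d
    push_cast at this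
    exact this
  have h3 : (A : ℝ) / d < ((A / d : ℕ) : ℝ) + 1 := by
    rw [div_lt_iff₀ hd0]
    have h4 := Nat.lt_mul_div_succ A hd
    have h5 : (A : ℝ) < ((d * (A / d + 1) : ℕ) : ℝ) := by exact_mod_cast h4
    push_cast at h5
    linarith
  have h4 : (((Ioc A (A + H)).filter (fun n => d ∣ n)).card : ℝ) + ((A / d : ℕ) : ℝ) =
      (((A + H) / d : ℕ) : ℝ) := by exact_mod_cast h1
  have h5 : ((A : ℝ) + H) / d = A / d + H * (d : ℝ)⁻¹ := by rw [add_div]; rfl
  linarith

/-- integers with a large smooth part in a short interval -/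
lemma large_local (q A H : ℕ) (hq : 1 ≤ q) {S : ℝ} (hS : 1 ≤ S) :
    (((Ioc A (A + H)).filter (fun n => (roughPart q n).Prime ∧
      S ≤ ((n / roughPart q n : ℕ) : ℝ))).card : ℝ) ≤
      H * (S ^ (-(1 / 2) : ℝ) * ZZ q) + (S * q) ^ (1 / 2 : ℝ) * ZZ q := by
  classical
  have hS0 : 0 < S := by linarith
  have hqr : (1 : ℝ) ≤ q := by exact_mod_cast hq
  have hSq0 : 0 < S * q := by positivity
  set D := (SMz q (S * q)).filter (fun d : ℕ => S ≤ (d : ℝ)) with hD
  have hDm : ∀ d ∈ D, d ∈ SM q ∧ S ≤ (d : ℝ) ∧ (d : ℝ) ≤ S * q := by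
    intro d hd
    rw [hD, mem_filter, mem_SMz hSq0.le] at hd
    exact ⟨hd.1.1, hd.2, hd.1.2⟩
  have hsub : (Ioc A (A + H)).filter (fun n => (roughPart q n).Prime ∧
      S ≤ ((n / roughPart q n : ℕ) : ℝ)) ⊆
      D.biUnion (fun d => (Ioc A (A + H)).filter (fun n => d ∣ n)) := by
    intro n hn
    rw [mem_filter] at hn
    obtain ⟨hnI, hpr, hSn⟩ := hn
    obtain ⟨_, s, hs, he⟩ := roughPart_prime hpr
    have hdiv : n / roughPart q n = s := Nat.div_eq_of_eq_mul_left hpr.pos he
    rw [hdiv] at hSn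
    obtain ⟨d, hd1, hd2, hd3⟩ := exists_div hS hq hs hSn
    have hsd : s ∣ n := ⟨_, he⟩
    rw [mem_biUnion]
    refine ⟨d, ?_, ?_⟩
    · rw [hD, mem_filter, mem_SMz hSq0.le]
      refine ⟨⟨?_, hd3⟩, hd2⟩
      refine ⟨(Nat.pos_of_dvd_of_pos hd1 (SM_pos hs)).ne', fun l hl => ?_⟩
      have hs0 := SM_pos hs
      have h5 := (Nat.mem_primeFactorsList (Nat.pos_of_dvd_of_pos hd1 hs0).ne').1 hl
      exact hs.2 l ((Nat.mem_primeFactorsList hs0.ne').2 ⟨h5.1, h5.2.trans hd1⟩)
    · rw [mem_filter]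
      exact ⟨hnI, hd1.trans hsd⟩
  calc _ ≤ ((D.biUnion (fun d => (Ioc A (A + H)).filter (fun n => d ∣ n))).card : ℝ) := by
        exact_mod_cast Finset.card_le_card hsub
    _ ≤ ∑ d ∈ D, (((Ioc A (A + H)).filter (fun n => d ∣ n)).card : ℝ) := by
        exact_mod_cast Finset.card_biUnion_le
    _ ≤ ∑ d ∈ D, (H * (d : ℝ)⁻¹ + (S * q) ^ (1 / 2 : ℝ) * (d : ℝ) ^ (-(1 / 2) : ℝ)) := by
        refine Finset.sum_le_sum fun d hd => ?_
        obtain ⟨h1, h2, h3⟩ := hDm d hd
        have hd0 : 0 < d := SM_pos h1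
        have hd0r : (0 : ℝ) < d := by exact_mod_cast hd0
        refine (card_mult A H d hd0).trans ?_
        have h4 : (1 : ℝ) ≤ (S * q) ^ (1 / 2 : ℝ) * (d : ℝ) ^ (-(1 / 2) : ℝ) := by
          calc (1 : ℝ) = (d : ℝ) ^ (1 / 2 : ℝ) * (d : ℝ) ^ (-(1 / 2) : ℝ) := by
                rw [← Real.rpow_add hd0r]; norm_num
            _ ≤ _ := by gcongr
        linarith
    _ = H * ∑ d ∈ D, (d : ℝ)⁻¹ + (S * q) ^ (1 / 2 : ℝ) * ∑ d ∈ D, (d : ℝ) ^ (-(1 / 2) : ℝ) := by
        rw [Finset.sum_add_distrib, Finset.mul_sum, Finset.mul_sum]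
    _ ≤ _ := by
        gcongr
        · exact tail_le q hS0 D fun d hd => ⟨(hDm d hd).1, (hDm d hd).2.1⟩
        · exact sum_le_ZZ q D fun d hd => (hDm d hd).1

theorem interval_up {c : ℝ} (hc : 0 < c) : ∃ C : ℝ, 0 < C ∧ ∃ P : ℕ, ∀ q ≥ P, ∀ A H : ℕ,
    Real.exp (c * q) ≤ H →
    (((Ioc A (A + H)).filter (fun n => (roughPart q n).Prime)).card : ℝ) ≤
      C * (Real.log q / q) * H := by
  classical
  obtain ⟨C0, hC01, hBT⟩ := Pool.Agent.Helper601.brun_titchmarsh
  obtain ⟨C1, hC1, hV⟩ := VV_le_log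
  obtain ⟨P, hP⟩ := ((hV.and (ZZ_le_exp (c := c / 16) (by positivity))).and
    (((Pool.Agent.N176.GP.grow (c / 16) 1 (by positivity)).and
    (Pool.Agent.W66.exp_small (c := c / 8) (by positivity))).and
    ((log_nat_tendsto.eventually_ge_atTop 1).and (eventually_ge_atTop 2)))).exists_forall_of_atTop
  refine ⟨4 * C0 * C1 / c + 2, by positivity, P, fun q hq A H hH => ?_⟩
  obtain ⟨⟨hVp, hZ⟩, ⟨hg, hsm⟩, hlog1, hq2⟩ := hP q hq
  have hq2r : (2 : ℝ) ≤ q := by exact_mod_cast hq2
  have hq0 : (0 : ℝ) < q := by linarith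
  have hH0 : (0 : ℝ) < H := (Real.exp_pos _).trans_le hH
  have hHpos : 0 < H := by exact_mod_cast hH0
  set S := √(H : ℝ) with hS
  have hSS : S * S = H := Real.mul_self_sqrt hH0.le
  have hSlow : Real.exp (c * q / 2) ≤ S := by
    rw [hS]
    apply Real.le_sqrt_of_sq_le
    rw [← Real.exp_nat_mul]
    refine le_trans (le_of_eq ?_) hH
    congr 1; push_cast; ring
  have hS1 : (1 : ℝ) ≤ S := (Real.one_le_exp (by positivity)).trans hSlow
  have hS0 : 0 < S := by linarith
  have hdiv : ∀ s r : ℕ, s ∈ SM q → r.Prime → q < r → s * r / roughPart q (s * r) = s := by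
    intro s r hs hr hqr
    rw [roughPart_mul hs hr hqr, Nat.mul_div_cancel _ hr.pos]
  -- small smooth factor
  have h1 : (((Ioc A (A + H)).filter (fun n => (roughPart q n).Prime ∧
      ((n / roughPart q n : ℕ) : ℝ) < S)).card : ℝ) ≤ 4 * C0 * H / (c * q) * VV q := by
    have h2 : (((Ioc A (A + H)).filter (fun n => (roughPart q n).Prime ∧
      ((n / roughPart q n : ℕ) : ℝ) < S)).card : ℝ) =
        ∑ m ∈ (Ioc A (A + H)).filter (fun m => (roughPart q m).Prime),
          (if ((m / roughPart q m : ℕ) : ℝ) < S then (1 : ℝ) else 0) := by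
      rw [← Finset.sum_filter, Finset.filter_filter, Finset.sum_const, nsmul_eq_mul, mul_one]
    rw [h2, sum_rough_eq]
    calc _ ≤ ∑ s ∈ (SMz q ((A + H : ℕ) : ℝ)).filter (fun s : ℕ => (s : ℝ) < S),
          4 * C0 * H / (c * q) * (s : ℝ)⁻¹ := by
          rw [Finset.sum_filter]
          refine Finset.sum_le_sum fun s hs => ?_
          have hs' := (mem_SMz (Nat.cast_nonneg _)).1 hs
          have hsn := SM_pos hs'.1
          have hs0 : (0 : ℝ) < s := by exact_mod_cast hsn
          have h3 : ∀ r ∈ (Ioc (A / s) ((A + H) / s)).filter (fun r => r.Prime ∧ q < r),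
              (if ((s * r / roughPart q (s * r) : ℕ) : ℝ) < S then (1 : ℝ) else 0) =
              if (s : ℝ) < S then (1 : ℝ) else 0 := by
            intro r hr
            rw [mem_filter] at hr
            rw [hdiv s r hs'.1 hr.2.1 hr.2.2]
          rw [Finset.sum_congr rfl h3]
          split_ifs with hsS
          · rw [Finset.sum_const, nsmul_eq_mul, mul_one]
            have hD : (A + H) - A = H := by omega
            obtain ⟨_, hc2⟩ := count_inner hBT q A (A + H) s hsn (by omega)
            rw [hD] at hc2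
            have hHs : S ≤ (H : ℝ) / s := by
              rw [le_div_iff₀ hs0, ← hSS]
              exact mul_le_mul_of_nonneg_left hsS.le hS0.le
            have hHs1 : 1 ≤ H / s := by
              rw [Nat.one_le_div_iff hsn]
              have : (1 : ℝ) ≤ (H : ℝ) / s := hS1.trans hHs
              rw [le_div_iff₀ hs0, one_mul] at this
              exact_mod_cast this
            refine (hc2 (by omega)).trans ?_
            have hup : ((H / s + 1 : ℕ) : ℝ) ≤ 2 * (H / s) := by
              push_cast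
              have := @Nat.cast_div_le ℝ _ _ _ H s
              have : (1 : ℝ) ≤ (H : ℝ) / s := hS1.trans hHs
              linarith
            have hlow : S ≤ ((H / s + 1 : ℕ) : ℝ) := by
              have h5 : (H : ℝ) / s < ((H / s : ℕ) : ℝ) + 1 := by
                rw [div_lt_iff₀ hs0]
                have := Nat.lt_mul_div_succ H hsn
                have h6 : (H : ℝ) < ((s * (H / s + 1) : ℕ) : ℝ) := by exact_mod_cast this
                push_cast at h6
                linarith
              push_cast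
              linarith
            have hlog : c * q / 2 ≤ Real.log ((H / s + 1 : ℕ) : ℝ) := by
              calc c * q / 2 = Real.log (Real.exp (c * q / 2)) := (Real.log_exp _).symm
                _ ≤ _ := Real.log_le_log (Real.exp_pos _) (hSlow.trans hlow)
            have hpL : 0 < c * q / 2 := by positivity
            calc C0 * ((H / s + 1 : ℕ) : ℝ) / Real.log ((H / s + 1 : ℕ) : ℝ) ≤
                C0 * (2 * (H / s)) / (c * q / 2) := by
                  gcongr
              _ = _ := by field_simp; ring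
          · simp
      _ = 4 * C0 * H / (c * q) * ∑ s ∈ (SMz q ((A + H : ℕ) : ℝ)).filter (fun s : ℕ => (s : ℝ) < S),
            (s : ℝ)⁻¹ := by
          rw [Finset.mul_sum]
      _ ≤ _ := by
          refine mul_le_mul_of_nonneg_left ?_ (by positivity)
          refine sum_le_VV q _ fun s hs => ?_
          rw [mem_filter, mem_SMz (Nat.cast_nonneg _)] at hs
          exact hs.1.1
  have hZ0 := ZZ_nonneg q
  have hle1 : Real.log q / q ≤ 1 := by
    rw [div_le_one hq0]
    exact (Real.log_le_sub_one_of_pos hq0).trans (by linarith)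
  have hlq0 : 0 ≤ Real.log q := by linarith
  have hw0 : 0 ≤ Real.log q / q := by positivity
  have hw2 : (Real.log q / q) ^ 2 ≤ Real.log q / q := by nlinarith
  -- large smooth factor
  have h2 : (((Ioc A (A + H)).filter (fun n => (roughPart q n).Prime ∧
      S ≤ ((n / roughPart q n : ℕ) : ℝ))).card : ℝ) ≤ 2 * (Real.log q / q) * H := by
    refine (large_local q A H (by omega) hS1).trans ?_
    have e1 : S ^ (-(1 / 2) : ℝ) ≤ Real.exp (-(c * q / 4)) := by
      calc S ^ (-(1 / 2) : ℝ) ≤ (Real.exp (c * q / 2)) ^ (-(1 / 2) : ℝ) :=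
            Real.rpow_le_rpow_of_nonpos (Real.exp_pos _) hSlow (by norm_num)
        _ = _ := by rw [← Real.exp_mul]; congr 1; ring
    have e2 : S ^ (-(1 / 2) : ℝ) * ZZ q ≤ Real.log q / q := by
      calc _ ≤ Real.exp (-(c * q / 4)) * Real.exp (c / 16 * q) := by gcongr
        _ = Real.exp (-(3 * c / 16 * q)) := by rw [← Real.exp_add]; congr 1; ring
        _ ≤ Real.exp (-(c / 8 * q)) := by
            rw [Real.exp_le_exp]
            nlinarith
        _ ≤ (Real.log q / q) ^ 2 := hsm
        _ ≤ _ := hw2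
    have e3 : (S * q) ^ (1 / 2 : ℝ) * ZZ q ≤ Real.log q / q * H := by
      have h3 : (q : ℝ) ≤ Real.exp (c / 16 * q) := by
        have : (q : ℝ) ≤ 1 * (q : ℝ) ^ 2 := by nlinarith
        exact this.trans hg
      have h4 : (S * q) ^ (1 / 2 : ℝ) ≤ S * q := by
        have h5 : 1 ≤ S * q := by nlinarith
        calc (S * q) ^ (1 / 2 : ℝ) ≤ (S * q) ^ (1 : ℝ) :=
              Real.rpow_le_rpow_of_exponent_le h5 (by norm_num)
          _ = S * q := Real.rpow_one _
      calc _ ≤ S * Real.exp (c / 16 * q) * Real.exp (c / 16 * q) := by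
            refine mul_le_mul (h4.trans ?_) hZ hZ0 (by positivity)
            gcongr
        _ = S * Real.exp (c / 8 * q) := by
            rw [mul_assoc, ← Real.exp_add]; congr 2; ring
        _ ≤ S * (S * Real.exp (-(c / 8 * q))) := by
            refine mul_le_mul_of_nonneg_left ?_ hS0.le
            calc Real.exp (c / 8 * q) ≤ Real.exp (c * q / 2) * Real.exp (-(c / 8 * q)) := by
                  rw [← Real.exp_add, Real.exp_le_exp]
                  nlinarith
              _ ≤ _ := by gcongr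
        _ = Real.exp (-(c / 8 * q)) * H := by rw [← hSS]; ring
        _ ≤ (Real.log q / q) ^ 2 * H := by gcongr
        _ ≤ _ := by gcongr
    calc _ ≤ H * (Real.log q / q) + Real.log q / q * H := by
          refine add_le_add ?_ e3
          exact mul_le_mul_of_nonneg_left e2 hH0.le
      _ = _ := by ring
  have h3 : (((Ioc A (A + H)).filter (fun n => (roughPart q n).Prime)).card : ℝ) ≤
      4 * C0 * H / (c * q) * VV q + 2 * (Real.log q / q) * H := by
    have hsub : (Ioc A (A + H)).filter (fun n => (roughPart q n).Prime) ⊆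
        (Ioc A (A + H)).filter (fun n => (roughPart q n).Prime ∧ ((n / roughPart q n : ℕ) : ℝ) < S) ∪
        (Ioc A (A + H)).filter (fun n => (roughPart q n).Prime ∧ S ≤ ((n / roughPart q n : ℕ) : ℝ)) := by
      intro n hn
      rw [mem_filter] at hn
      rw [mem_union, mem_filter, mem_filter]
      rcases lt_or_ge ((n / roughPart q n : ℕ) : ℝ) S with h | h
      · left; exact ⟨hn.1, hn.2, h⟩
      · right; exact ⟨hn.1, hn.2, h⟩
    have h4 := (Finset.card_le_card hsub).trans (Finset.card_union_le _ _)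
    have h5 : (((Ioc A (A + H)).filter (fun n => (roughPart q n).Prime)).card : ℝ) ≤
        (((Ioc A (A + H)).filter (fun n => (roughPart q n).Prime ∧
          ((n / roughPart q n : ℕ) : ℝ) < S)).card : ℝ) +
        (((Ioc A (A + H)).filter (fun n => (roughPart q n).Prime ∧
          S ≤ ((n / roughPart q n : ℕ) : ℝ))).card : ℝ) := by exact_mod_cast h4
    linarith
  calc _ ≤ 4 * C0 * H / (c * q) * VV q + 2 * (Real.log q / q) * H := h3
    _ ≤ 4 * C0 * H / (c * q) * (C1 * Real.log q) + 2 * (Real.log q / q) * H := by gcongr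
    _ = _ := by field_simp

end Pool.Agent.U776.PL
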