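import Mathlib

set_option autoImplicit false

/-!
# Point probabilities from generating functions
-/

namespace Pool.Agent.U776.PL

open MeasureTheory Finset Filter Topology

variable {Ω : Type*} [MeasurableSpace Ω]

/-- the weights of the Poisson law -/
noncomputable def pois (lam : ℝ) (k : ℕ) : ℝ := Real.exp (-lam) * lam ^ k / k.factorial

lemma pois_nonneg {lam : ℝ} (h : 0 ≤ lam) (k : ℕ) : 0 ≤ pois lam k := by
  unfold pois; positivity

lemma exp_tail {lam s : ℝ} (h : 0 ≤ lam) (h0 : 0 ≤ s) (h1 : s ≤ 1) (k : ℕ) :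
    0 ≤ Real.exp (-(lam * (1 - s))) - ∑ j ∈ range (k + 1), pois lam j * s ^ j ∧
    Real.exp (-(lam * (1 - s))) - ∑ j ∈ range (k + 1), pois lam j * s ^ j ≤ s ^ (k + 1) := by
  have hs : HasSum (fun j : ℕ => pois lam j * s ^ j) (Real.exp (-(lam * (1 - s)))) := by
    have h2 : HasSum (fun j : ℕ => (lam * s) ^ j / j.factorial) (Real.exp (lam * s)) := by
      have := NormedSpace.expSeries_div_hasSum_exp (lam * s)
      rwa [← Real.exp_eq_exp_ℝ] at this
    have h3 := h2.mul_left (Real.exp (-lam))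
    rw [← Real.exp_add] at h3
    have e1 : (fun j : ℕ => pois lam j * s ^ j) =
        fun j : ℕ => Real.exp (-lam) * ((lam * s) ^ j / j.factorial) := by
      funext j
      unfold pois
      rw [mul_pow]; ring
    have e2 : -(lam * (1 - s)) = -lam + lam * s := by ring
    rw [e1, e2]
    exact h3
  have hs1 : HasSum (fun j : ℕ => pois lam j) 1 := by
    have h2 : HasSum (fun j : ℕ => lam ^ j / j.factorial) (Real.exp lam) := by
      have := NormedSpace.expSeries_div_hasSum_exp lam
      rwa [← Real.exp_eq_exp_ℝ] at this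
    have h3 := h2.mul_left (Real.exp (-lam))
    rw [← Real.exp_add, neg_add_cancel, Real.exp_zero] at h3
    have e1 : (fun j : ℕ => pois lam j) = fun j : ℕ => Real.exp (-lam) * (lam ^ j / j.factorial) := by
      funext j
      unfold pois
      ring
    rw [e1]
    exact h3
  have hp : ∀ j, 0 ≤ pois lam j := pois_nonneg h
  have e1 := hs.summable.sum_add_tsum_nat_add (k + 1)
  rw [hs.tsum_eq] at e1
  have e2 := hs1.summable.sum_add_tsum_nat_add (k + 1)
  rw [hs1.tsum_eq] at e2
  have hsm := (summable_nat_add_iff (k + 1)).2 hs.summable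
  have hsm1 := (summable_nat_add_iff (k + 1)).2 hs1.summable
  have e3 : 0 ≤ ∑ j ∈ range (k + 1), pois lam j := Finset.sum_nonneg fun j _ => hp j
  have e4 : ∑' j, pois lam (j + (k + 1)) ≤ 1 := by linarith
  have e5 : 0 ≤ ∑' j, pois lam (j + (k + 1)) * s ^ (j + (k + 1)) :=
    tsum_nonneg fun j => mul_nonneg (hp _) (pow_nonneg h0 _)
  have e6 : ∑' j, pois lam (j + (k + 1)) * s ^ (j + (k + 1)) ≤
      ∑' j, s ^ (k + 1) * pois lam (j + (k + 1)) := by
    refine hsm.tsum_le_tsum (fun j => ?_) (hsm1.mul_left _)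
    rw [mul_comm]
    refine mul_le_mul_of_nonneg_right ?_ (hp _)
    exact pow_le_pow_of_le_one h0 h1 (by omega)
  rw [tsum_mul_left] at e6
  have e7 : s ^ (k + 1) * ∑' j, pois lam (j + (k + 1)) ≤ s ^ (k + 1) * 1 :=
    mul_le_mul_of_nonneg_left e4 (pow_nonneg h0 _)
  constructor
  · linarith
  · linarith

lemma pow_split (s : ℝ) (h0 : 0 ≤ s) (h1 : s ≤ 1) (k N : ℕ) :
    0 ≤ s ^ N - ∑ j ∈ range (k + 1), (if N = j then (1 : ℝ) else 0) * s ^ j ∧
    s ^ N - ∑ j ∈ range (k + 1), (if N = j then (1 : ℝ) else 0) * s ^ j ≤ s ^ (k + 1) := by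
  have e : ∑ j ∈ range (k + 1), (if N = j then (1 : ℝ) else 0) * s ^ j =
      if N < k + 1 then s ^ N else 0 := by
    simp only [ite_mul, one_mul, zero_mul]
    rw [Finset.sum_ite_eq]
    simp only [mem_range]
  rw [e]
  split_ifs with h
  · rw [sub_self]; exact ⟨le_rfl, pow_nonneg h0 _⟩
  · rw [sub_zero]; exact ⟨pow_nonneg h0 _, pow_le_pow_of_le_one h0 h1 (by omega)⟩

lemma integrable_01 {μ : Measure Ω} [IsFiniteMeasure μ] {f : Ω → ℝ} (hf : Measurable f) (h : ∀ x, 0 ≤ f x ∧ f x ≤ 1) :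
    Integrable f μ := by
  refine (integrable_const (1 : ℝ)).mono' hf.aestronglyMeasurable ?_
  filter_upwards with x
  rw [Real.norm_eq_abs, abs_of_nonneg (h x).1]
  exact (h x).2

variable {μ : ℕ → Measure Ω} [∀ n, IsFiniteMeasure (μ n)]

theorem extract {M : ℝ} (hM : ∀ n, (μ n).real Set.univ ≤ M) (h : ℕ → Ω → ℝ) (N : ℕ → Ω → ℕ) (hm : ∀ n, Measurable (h n))
    (h01 : ∀ n x, 0 ≤ h n x ∧ h n x ≤ 1) (hN : ∀ n, Measurable (N n)) {A lam : ℝ} (hA : 0 ≤ A)
    (hlam : 0 ≤ lam)
    (hgen : ∀ r : ℕ, Tendsto (fun n => ∫ x, h n x * (1 / ((r : ℝ) + 1)) ^ (N n x) ∂(μ n)) atTop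
      (𝓝 (A * Real.exp (-(lam * (1 - 1 / ((r : ℝ) + 1))))))) (k : ℕ) :
    Tendsto (fun n => ∫ x, h n x * (if N n x = k then 1 else 0) ∂(μ n)) atTop
      (𝓝 (A * pois lam k)) := by
  have hind : ∀ n j, Measurable (fun x => (if N n x = j then (1 : ℝ) else 0)) := fun n j =>
    (measurable_from_nat (f := fun m : ℕ => if m = j then (1 : ℝ) else 0)).comp (hN n)
  have hint : ∀ n j, Integrable (fun x => h n x * (if N n x = j then (1 : ℝ) else 0)) (μ n) := by
    intro n j
    refine integrable_01 ((hm n).mul (hind n j)) fun x => ?_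
    have := h01 n x
    split_ifs <;> simp [this]
  induction k using Nat.strong_induction_on with
  | _ k ih =>
  have hM0 : 0 ≤ M := measureReal_nonneg.trans (hM 0)
  rw [Metric.tendsto_atTop]
  intro ε hε
  obtain ⟨s, hs0, hs1, hsε, hg⟩ : ∃ s : ℝ, 0 < s ∧ s ≤ 1 ∧ s * (M + A) < ε / 2 ∧
      Tendsto (fun n => ∫ x, h n x * s ^ (N n x) ∂(μ n)) atTop
        (𝓝 (A * Real.exp (-(lam * (1 - s))))) := by
    obtain ⟨r, hr⟩ := exists_nat_ge (4 * (M + A) / ε)
    refine ⟨1 / ((r : ℝ) + 1), by positivity, ?_, ?_, hgen r⟩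
    · rw [div_le_one (by positivity)]
      linarith [Nat.cast_nonneg (α := ℝ) r]
    · rw [div_le_iff₀ hε] at hr
      rw [div_mul_eq_mul_div, one_mul, div_lt_iff₀ (by positivity)]
      have := Nat.cast_nonneg (α := ℝ) r
      nlinarith
  have hsum : Tendsto (fun n => ∑ j ∈ range k,
      (∫ x, h n x * (if N n x = j then 1 else 0) ∂(μ n)) * s ^ j) atTop
      (𝓝 (∑ j ∈ range k, (A * pois lam j) * s ^ j)) := by
    refine tendsto_finsetSum _ fun j hj => ?_
    exact (ih j (mem_range.1 hj)).mul_const _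
  have hd := hg.sub hsum
  have hsk : 0 < s ^ k := pow_pos hs0 k
  have hd2 := Metric.tendsto_atTop.1 hd (s ^ k * (ε / 2)) (by positivity)
  obtain ⟨n0, hn0⟩ := hd2
  refine ⟨n0, fun n hn => ?_⟩
  have h1 := hn0 n hn
  rw [Real.dist_eq] at h1 ⊢
  -- the generating function of `N n`
  have hR : 0 ≤ ∫ x, h n x * s ^ (N n x) ∂(μ n) -
      ∑ j ∈ range (k + 1), (∫ x, h n x * (if N n x = j then 1 else 0) ∂(μ n)) * s ^ j ∧
      ∫ x, h n x * s ^ (N n x) ∂(μ n) -
      ∑ j ∈ range (k + 1), (∫ x, h n x * (if N n x = j then 1 else 0) ∂(μ n)) * s ^ j ≤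
        s ^ (k + 1) * M := by
    have hpm : Measurable (fun x => h n x * s ^ (N n x)) :=
      (hm n).mul ((measurable_from_nat (f := fun m : ℕ => s ^ m)).comp (hN n))
    have hpi : Integrable (fun x => h n x * s ^ (N n x)) (μ n) := by
      refine integrable_01 hpm fun x => ?_
      have h2 := h01 n x
      have h3 : 0 ≤ s ^ (N n x) := pow_nonneg hs0.le _
      have h4 : s ^ (N n x) ≤ 1 := pow_le_one₀ hs0.le hs1
      constructor
      · exact mul_nonneg h2.1 h3
      · nlinarith
    have e : ∫ x, h n x * s ^ (N n x) ∂(μ n) -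
        ∑ j ∈ range (k + 1), (∫ x, h n x * (if N n x = j then 1 else 0) ∂(μ n)) * s ^ j =
        ∫ x, h n x * (s ^ (N n x) -
          ∑ j ∈ range (k + 1), (if N n x = j then (1 : ℝ) else 0) * s ^ j) ∂(μ n) := by
      have e1 : ∑ j ∈ range (k + 1), (∫ x, h n x * (if N n x = j then 1 else 0) ∂(μ n)) * s ^ j =
          ∫ x, ∑ j ∈ range (k + 1), (h n x * (if N n x = j then (1 : ℝ) else 0)) * s ^ j ∂(μ n) := by
        rw [integral_finsetSum _ fun j _ => (hint n j).mul_const _]
        refine Finset.sum_congr rfl fun j _ => ?_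
        rw [integral_mul_const]
      rw [e1, ← integral_sub hpi (integrable_finsetSum _ fun j _ => (hint n j).mul_const _)]
      refine integral_congr_ae ?_
      filter_upwards with x
      rw [mul_sub, Finset.mul_sum]
      congr 1
      refine Finset.sum_congr rfl fun j _ => ?_
      ring
    rw [e]
    constructor
    · refine integral_nonneg fun x => ?_
      exact mul_nonneg (h01 n x).1 (pow_split s hs0.le hs1 k (N n x)).1
    · calc _ ≤ ∫ _, s ^ (k + 1) ∂(μ n) := by
            refine integral_mono_of_nonneg ?_ (integrable_const _) ?_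
            · filter_upwards with x
              exact mul_nonneg (h01 n x).1 (pow_split s hs0.le hs1 k (N n x)).1
            · filter_upwards with x
              have h2 := h01 n x
              have h3 := pow_split s hs0.le hs1 k (N n x)
              have h4 : 0 ≤ s ^ (k + 1) := pow_nonneg hs0.le _
              calc _ ≤ 1 * (s ^ (N n x) -
                  ∑ j ∈ range (k + 1), (if N n x = j then (1 : ℝ) else 0) * s ^ j) :=
                    mul_le_mul_of_nonneg_right h2.2 h3.1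
                _ ≤ _ := by rw [one_mul]; exact h3.2
        _ = s ^ (k + 1) * (μ n).real Set.univ := by
            rw [integral_const, smul_eq_mul, mul_comm]
        _ ≤ s ^ (k + 1) * M := mul_le_mul_of_nonneg_left (hM n) (by positivity)
  have hT := exp_tail hlam hs0.le hs1 k
  rw [Finset.sum_range_succ] at hR hT
  set I := ∫ x, h n x * s ^ (N n x) ∂(μ n) with hI
  set S1 := ∑ j ∈ range k, (∫ x, h n x * (if N n x = j then 1 else 0) ∂(μ n)) * s ^ j with hS1
  set F := ∫ x, h n x * (if N n x = k then 1 else 0) ∂(μ n) with hF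
  have e2 : ∑ j ∈ range k, (A * pois lam j) * s ^ j = A * ∑ j ∈ range k, pois lam j * s ^ j := by
    rw [Finset.mul_sum]
    refine Finset.sum_congr rfl fun j _ => ?_
    ring
  rw [e2] at h1
  set S2 := ∑ j ∈ range k, pois lam j * s ^ j with hS2
  set X := Real.exp (-(lam * (1 - s))) with hX
  have k1 : |(F - A * pois lam k) * s ^ k| ≤
      |I - S1 - (A * X - A * S2)| + s ^ (k + 1) * (M + A) := by
    have e3 : (F - A * pois lam k) * s ^ k = (I - S1 - (A * X - A * S2)) -
        ((I - (S1 + F * s ^ k)) - A * (X - (S2 + pois lam k * s ^ k))) := by ring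
    rw [e3]
    refine (abs_sub _ _).trans ?_
    have h5 : 0 ≤ A * (X - (S2 + pois lam k * s ^ k)) := mul_nonneg hA hT.1
    have h6 : A * (X - (S2 + pois lam k * s ^ k)) ≤ A * s ^ (k + 1) :=
      mul_le_mul_of_nonneg_left hT.2 hA
    have h7 : |(I - (S1 + F * s ^ k)) - A * (X - (S2 + pois lam k * s ^ k))| ≤
        s ^ (k + 1) * (M + A) := by
      rw [abs_le]
      have h8 : 0 ≤ s ^ (k + 1) * M := by positivity
      have h9 : 0 ≤ s ^ (k + 1) * A := by positivity
      constructor
      · nlinarith [hR.1]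
      · nlinarith [hR.2]
    linarith
  rw [abs_mul, abs_of_pos hsk] at k1
  have k2 : |F - A * pois lam k| * s ^ k < ε * s ^ k := by
    calc _ ≤ |I - S1 - (A * X - A * S2)| + s ^ (k + 1) * (M + A) := k1
      _ < s ^ k * (ε / 2) + s ^ (k + 1) * (M + A) := by linarith
      _ = s ^ k * (ε / 2 + s * (M + A)) := by rw [pow_succ]; ring
      _ ≤ s ^ k * (ε / 2 + ε / 2) := by gcongr
      _ = _ := by ring
  exact lt_of_mul_lt_mul_right k2 hsk.le

end Pool.Agent.U776.PL
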