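import Pool.Agent.U776.PL.Gen2
import Pool.Agent.U776.PL.Poi

set_option autoImplicit false

/-!
# The joint Poisson law in thin sets
-/

namespace Pool.Agent.U776.PL

open MeasureTheory Finset Filter Topology

variable {Ω : Type*} [MeasurableSpace Ω]

open Classical in
/-- the number of the `p ∈ T` with `x ∈ E p` -/
noncomputable def NE (E : ℕ → Set Ω) (T : Finset ℕ) (x : Ω) : ℕ := (T.filter (fun p => x ∈ E p)).card

lemma NE_measurable {E : ℕ → Set Ω} (hE : ∀ p, MeasurableSet (E p)) (T : Finset ℕ) :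
    Measurable (NE E T) := by
  classical
  have e : NE E T = fun x => ∑ p ∈ T, if x ∈ E p then 1 else 0 := by
    funext x
    unfold NE
    rw [Finset.card_filter]
  rw [e]
  exact Finset.measurable_sum T fun p _ => Measurable.ite (hE p) measurable_const measurable_const

open Classical in
/-- the hypotheses on the families of thin sets -/
structure Thin {ι : Type*} (T : ℕ → ι → Finset ℕ) : Prop where
  disj : ∀ n i j, i ≠ j → Disjoint (T n i) (T n j)
  large : ∀ M : ℕ, ∀ᶠ n in atTop, ∀ i, ∀ p ∈ T n i, M ≤ p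
  close : ∀ g : ℕ, ∀ δ : ℝ, 0 < δ → ∀ᶠ n in atTop, ∀ i,
    ∑ p ∈ (T n i).filter (fun p => ∃ j, ∃ q ∈ T n j, p < q ∧ q < p + g), wt p ≤ δ
  thin : ∀ δ : ℝ, 0 < δ → ∀ᶠ n in atTop, ∀ i, ∀ x : ℕ,
    ∑ p ∈ (T n i).filter (fun p => x < p ∧ p ≤ 2 * x), wt p ≤ δ

/-- the axioms of the model -/
structure Model (μ : Measure Ω) (E : ℕ → Set Ω) (κ : ℝ) : Prop where
  meas : ∀ p, MeasurableSet (E p)
  pair : ∃ C ρ : ℝ, 0 ≤ C ∧ 0 ≤ ρ ∧ ρ < 1 ∧ ∃ P : ℕ,
    (∀ p ≥ P, μ.real (E p) ≤ μ.real Set.univ * (C * wt p)) ∧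
    ∀ p ≥ P, ∀ q > p, μ.real (E p ∩ E q) ≤
      μ.real Set.univ * (C * (wt p * wt q + wt p * ρ ^ (q - p)))
  mix : ∃ c : ℝ, 0 < c ∧ ∀ η : ℝ, 0 < η → ∃ Q : ℕ, ∀ q ≥ Q, ∀ S : Finset ℕ,
    (∀ p ∈ S, (p : ℝ) ≤ c * q) → ∀ θ : ℕ → ℝ, (∀ p, 0 ≤ θ p ∧ θ p ≤ 1) →
    |∫ x in E q, G E S θ x ∂μ - κ * wt q * ∫ x, G E S θ x ∂μ| ≤ η * wt q

/-- the block of exponents between `c q` and `q` is a bounded number of dyadic blocks -/
lemma yy_small {c : ℝ} (hc : 0 < c) : ∃ m P1 : ℕ, ∀ q ≥ P1, ((yy q m : ℕ) : ℝ) ≤ c * q := by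
  obtain ⟨m, hm⟩ := exists_pow_lt_of_lt_one (show (0 : ℝ) < c / 2 by positivity)
    (show (1 / 2 : ℝ) < 1 by norm_num)
  obtain ⟨P1, hP1⟩ := ((tendsto_natCast_atTop_atTop (R := ℝ)).eventually_ge_atTop
    (2 / c)).exists_forall_of_atTop
  refine ⟨m, P1, fun q hq => ?_⟩
  have h1 := yy_le q m
  have h2 := hP1 q hq
  have h3 : (q : ℝ) / 2 ^ m ≤ c / 2 * q := by
    rw [div_eq_mul_inv, mul_comm]
    have : ((2 : ℝ) ^ m)⁻¹ ≤ c / 2 := by
      rw [← inv_pow]
      have : ((2 : ℝ)⁻¹) = 1 / 2 := by norm_num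
      rw [this]; exact hm.le
    exact mul_le_mul_of_nonneg_right this (Nat.cast_nonneg q)
  have h4 : 1 ≤ c / 2 * q := by
    rw [div_le_iff₀ hc] at h2
    linarith
  linarith

section pure

variable {ι : Type*} [Fintype ι] [DecidableEq ι]

/-- the joint law from the generating functions at the points `1 / (r + 1)` -/
theorem joint_of_gen {μ : ℕ → Measure Ω} [∀ n, IsFiniteMeasure (μ n)] {M : ℝ}
    (hM : ∀ n, (μ n).real Set.univ ≤ M) {N : ℕ → ι → Ω → ℕ} (hN : ∀ n i, Measurable (N n i))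
    {A : ℝ} (hA : 0 ≤ A) {lam : ι → ℝ} (hlam0 : ∀ i, 0 ≤ lam i)
    (hgen : ∀ r : ι → ℕ, Tendsto (fun n => ∫ x, ∏ i, (1 / ((r i : ℝ) + 1)) ^ N n i x ∂(μ n)) atTop
      (𝓝 (A * ∏ i, Real.exp (-(lam i * (1 - 1 / ((r i : ℝ) + 1)))))))
    (k : ι → ℕ) :
    Tendsto (fun n => (μ n).real {x | ∀ i, N n i x = k i}) atTop
      (𝓝 (A * ∏ i, pois (lam i) (k i))) := by
  classical
  have ht : ∀ (r : ι → ℕ) (i : ι), 0 ≤ 1 / ((r i : ℝ) + 1) ∧ 1 / ((r i : ℝ) + 1) ≤ 1 := by
    intro r i
    have := Nat.cast_nonneg (α := ℝ) (r i)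
    refine ⟨by positivity, ?_⟩
    rw [div_le_one (by positivity)]
    linarith
  have key : ∀ J : Finset ι, ∀ r : ι → ℕ,
      Tendsto (fun n => ∫ x, (∏ i ∈ J, if N n i x = k i then (1 : ℝ) else 0) *
        ∏ i ∈ Jᶜ, (1 / ((r i : ℝ) + 1)) ^ N n i x ∂(μ n)) atTop
      (𝓝 (A * (∏ i ∈ J, pois (lam i) (k i)) *
        ∏ i ∈ Jᶜ, Real.exp (-(lam i * (1 - 1 / ((r i : ℝ) + 1)))))) := by
    intro J
    induction J using Finset.induction_on with
    | empty =>
      intro r
      simp only [Finset.prod_empty, one_mul, mul_one, Finset.compl_empty]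
      exact hgen r
    | insert i0 J hi0 ih =>
      intro r
      set K := (insert i0 J)ᶜ with hK
      have hi0K : i0 ∉ K := by rw [hK, mem_compl]; simp
      have hJc : Jᶜ = insert i0 K := by
        ext i
        rw [hK, mem_compl, mem_insert, mem_compl, mem_insert]
        by_cases h : i = i0
        · subst h; simp [hi0]
        · simp [h]
      have hpr : Tendsto (fun n => ∫ x, ((∏ i ∈ J, if N n i x = k i then (1 : ℝ) else 0) *
          ∏ i ∈ K, (1 / ((r i : ℝ) + 1)) ^ N n i x) * (if N n i0 x = k i0 then 1 else 0) ∂(μ n)) atTop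
          (𝓝 ((A * (∏ i ∈ J, pois (lam i) (k i)) *
            ∏ i ∈ K, Real.exp (-(lam i * (1 - 1 / ((r i : ℝ) + 1))))) * pois (lam i0) (k i0))) := by
        refine extract hM (fun n x => (∏ i ∈ J, if N n i x = k i then (1 : ℝ) else 0) *
          ∏ i ∈ K, (1 / ((r i : ℝ) + 1)) ^ N n i x) (fun n => N n i0) ?_ ?_
          (fun n => hN n _) ?_ (hlam0 i0) ?_ (k i0)
        · intro n
          refine Measurable.mul ?_ ?_
          · refine Finset.measurable_prod _ fun i _ => ?_
            exact (measurable_from_nat (f := fun m : ℕ => if m = k i then (1 : ℝ) else 0)).comp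
              (hN n _)
          · refine Finset.measurable_prod _ fun i _ => ?_
            exact (measurable_from_nat (f := fun m : ℕ => (1 / ((r i : ℝ) + 1)) ^ m)).comp (hN n _)
        · intro n x
          have h1 : 0 ≤ ∏ i ∈ J, (if N n i x = k i then (1 : ℝ) else 0) :=
            Finset.prod_nonneg fun i _ => by split_ifs <;> norm_num
          have h2 : ∏ i ∈ J, (if N n i x = k i then (1 : ℝ) else 0) ≤ 1 :=
            Finset.prod_le_one (fun i _ => by split_ifs <;> norm_num)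
              fun i _ => by split_ifs <;> norm_num
          have h3 : 0 ≤ ∏ i ∈ K, (1 / ((r i : ℝ) + 1)) ^ N n i x :=
            Finset.prod_nonneg fun i _ => pow_nonneg (ht r i).1 _
          have h4 : ∏ i ∈ K, (1 / ((r i : ℝ) + 1)) ^ N n i x ≤ 1 :=
            Finset.prod_le_one (fun i _ => pow_nonneg (ht r i).1 _)
              fun i _ => pow_le_one₀ (ht r i).1 (ht r i).2
          constructor
          · exact mul_nonneg h1 h3
          · nlinarith
        · have h1 : 0 ≤ ∏ i ∈ J, pois (lam i) (k i) :=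
            Finset.prod_nonneg fun i _ => pois_nonneg (hlam0 i) _
          have h2 : 0 ≤ ∏ i ∈ K, Real.exp (-(lam i * (1 - 1 / ((r i : ℝ) + 1)))) :=
            Finset.prod_nonneg fun i _ => (Real.exp_pos _).le
          positivity
        · intro s
          have h5 := ih (Function.update r i0 s)
          rw [hJc] at h5
          have e1 : ∀ n x, ∏ i ∈ insert i0 K,
              (1 / (((Function.update r i0 s) i : ℝ) + 1)) ^ N n i x =
              (1 / ((s : ℝ) + 1)) ^ N n i0 x * ∏ i ∈ K, (1 / ((r i : ℝ) + 1)) ^ N n i x := by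
            intro n x
            rw [Finset.prod_insert hi0K, Function.update_self]
            congr 1
            refine Finset.prod_congr rfl fun i hi => ?_
            rw [Function.update_of_ne (by rintro rfl; exact hi0K hi)]
          have e2 : ∏ i ∈ insert i0 K,
              Real.exp (-(lam i * (1 - 1 / (((Function.update r i0 s) i : ℝ) + 1)))) =
              Real.exp (-(lam i0 * (1 - 1 / ((s : ℝ) + 1)))) *
                ∏ i ∈ K, Real.exp (-(lam i * (1 - 1 / ((r i : ℝ) + 1)))) := by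
            rw [Finset.prod_insert hi0K, Function.update_self]
            congr 1
            refine Finset.prod_congr rfl fun i hi => ?_
            rw [Function.update_of_ne (by rintro rfl; exact hi0K hi)]
          simp only [e1, e2] at h5
          convert h5 using 2
          · refine integral_congr_ae ?_
            filter_upwards with x
            ring
          · ring
      convert hpr using 2
      · refine integral_congr_ae ?_
        filter_upwards with x
        rw [Finset.prod_insert hi0]; ring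
      · rw [Finset.prod_insert hi0]; ring
  have h := key Finset.univ (fun _ => 0)
  simp only [Finset.compl_univ, Finset.prod_empty, mul_one] at h
  convert h using 2 with n
  have hms : MeasurableSet {x | ∀ i, N n i x = k i} := by
    rw [Set.ofPred_forall]
    exact MeasurableSet.iInter fun i => hN n i (measurableSet_singleton (k i))
  rw [← integral_indicator_one hms]
  refine integral_congr_ae ?_
  filter_upwards with x
  by_cases hx : ∀ i, N n i x = k i
  · rw [Set.indicator_of_mem (show x ∈ {x | ∀ i, N n i x = k i} from hx)]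
    rw [Finset.prod_congr rfl (fun i _ => if_pos (hx i)), Finset.prod_const_one]
    rfl
  · rw [Set.indicator_of_notMem (show x ∉ {x | ∀ i, N n i x = k i} from hx)]
    push Not at hx
    obtain ⟨i, hi⟩ := hx
    exact (Finset.prod_eq_zero (mem_univ i) (if_neg hi)).symm

end pure

variable {μ : Measure Ω} [IsFiniteMeasure μ] {E : ℕ → Set Ω} {κ : ℝ}

section

variable {ι : Type*} [Fintype ι] [DecidableEq ι]

omit [MeasurableSpace Ω] in
lemma G_union (T : ι → Finset ℕ) (hd : ∀ i j, i ≠ j → Disjoint (T i) (T j)) (t : ι → ℝ) (x : Ω) :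
    G E (Finset.univ.biUnion T) (fun p => ∏ i, if p ∈ T i then t i else 1) x =
      ∏ i, t i ^ NE E (T i) x := by
  classical
  unfold G
  rw [Finset.prod_biUnion (fun i _ j _ hij => hd i j hij)]
  refine Finset.prod_congr rfl fun i _ => ?_
  have e : ∀ p ∈ T i, (if x ∈ E p then ∏ j, (if p ∈ T j then t j else 1) else 1) =
      if x ∈ E p then t i else 1 := by
    intro p hp
    have : ∏ j, (if p ∈ T j then t j else 1) = t i := by
      rw [Finset.prod_eq_single i]
      · rw [if_pos hp]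
      · intro j _ hj
        rw [if_neg]
        intro hpj
        exact Finset.disjoint_left.1 (hd j i hj) hpj hp
      · intro h; exact absurd (mem_univ i) h
    rw [this]
  rw [Finset.prod_congr rfl e]
  unfold NE
  rw [Finset.prod_ite, Finset.prod_const, Finset.prod_const_one, mul_one]

lemma theta_sum (T : ι → Finset ℕ) (hd : ∀ i j, i ≠ j → Disjoint (T i) (T j)) (t : ι → ℝ) :
    ∑ p ∈ Finset.univ.biUnion T, (1 - ∏ i, if p ∈ T i then t i else 1) * wt p =
      ∑ i, (1 - t i) * ∑ p ∈ T i, wt p := by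
  classical
  rw [Finset.sum_biUnion (fun i _ j _ hij => hd i j hij)]
  refine Finset.sum_congr rfl fun i _ => ?_
  rw [Finset.mul_sum]
  refine Finset.sum_congr rfl fun p hp => ?_
  have : ∏ j, (if p ∈ T j then t j else 1) = t i := by
    rw [Finset.prod_eq_single i]
    · rw [if_pos hp]
    · intro j _ hj
      rw [if_neg]
      intro hpj
      exact Finset.disjoint_left.1 (hd j i hj) hpj hp
    · intro h; exact absurd (mem_univ i) h
  rw [this]

omit [MeasurableSpace Ω] in
lemma theta_01 (T : ι → Finset ℕ) (t : ι → ℝ) (ht : ∀ i, 0 ≤ t i ∧ t i ≤ 1) (p : ℕ) :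
    0 ≤ (∏ i, if p ∈ T i then t i else 1) ∧ (∏ i, if p ∈ T i then t i else 1) ≤ 1 := by
  constructor
  · refine Finset.prod_nonneg fun i _ => ?_
    split_ifs
    · exact (ht i).1
    · exact zero_le_one
  · refine Finset.prod_le_one (fun i _ => ?_) fun i _ => ?_
    · split_ifs
      · exact (ht i).1
      · exact zero_le_one
    · split_ifs
      · exact (ht i).2
      · exact le_rfl

omit [DecidableEq ι] in
/-- the union of thin sets is thin -/
lemma union_small [DecidableEq ι] {T : ℕ → ι → Finset ℕ} (hT : Thin T) {κ : ℝ} (hκ : 0 < κ) {lam : ι → ℝ}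
    (hlam : ∀ i, Tendsto (fun n => κ * ∑ p ∈ T n i, wt p) atTop (𝓝 (lam i))) :
    0 ≤ ∑ i, (lam i / κ + 1) ∧ (∀ᶠ n in atTop, ∑ p ∈ Finset.univ.biUnion (T n), wt p ≤
      ∑ i, (lam i / κ + 1)) ∧
    (∀ M : ℕ, ∀ᶠ n in atTop, ∀ p ∈ Finset.univ.biUnion (T n), M ≤ p) ∧
    (∀ g : ℕ, ∀ δ : ℝ, 0 < δ → ∀ᶠ n in atTop,
      ∑ p ∈ clo (Finset.univ.biUnion (T n)) g, wt p ≤ δ) ∧
    (∀ δ : ℝ, 0 < δ → ∀ᶠ n in atTop, ∀ x : ℕ,
      ∑ p ∈ (Finset.univ.biUnion (T n)).filter (fun p => x < p ∧ p ≤ 2 * x), wt p ≤ δ) := by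
  classical
  have hlam0 : ∀ i, 0 ≤ lam i := fun i =>
    ge_of_tendsto' (hlam i) fun n => mul_nonneg hκ.le (Finset.sum_nonneg fun p _ => wt_nonneg p)
  have hcard : (0 : ℝ) < Fintype.card ι + 1 := by positivity
  have hdist : ∀ δ : ℝ, 0 < δ → ∑ _i : ι, δ / (Fintype.card ι + 1) ≤ δ := by
    intro δ hδ
    calc _ = δ * (Fintype.card ι / (Fintype.card ι + 1)) := by
          rw [Finset.sum_const, Finset.card_univ, nsmul_eq_mul]; ring
      _ ≤ δ * 1 := by
          gcongr
          rw [div_le_one hcard]; linarith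
      _ = δ := mul_one _
  refine ⟨Finset.sum_nonneg fun i _ => by have := hlam0 i; positivity, ?_, ?_, ?_, ?_⟩
  · have h1 : ∀ᶠ n in atTop, ∀ i, κ * ∑ p ∈ T n i, wt p ≤ lam i + κ := by
      rw [eventually_all]
      intro i
      exact ((hlam i).eventually_lt_const (show lam i < lam i + κ by linarith)).mono fun n h => h.le
    filter_upwards [h1] with n hn
    rw [Finset.sum_biUnion (fun i _ j _ hij => hT.disj n i j hij)]
    refine Finset.sum_le_sum fun i _ => ?_
    have := hn i
    have e : lam i / κ + 1 = (lam i + κ) / κ := by field_simp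
    rw [e, le_div_iff₀ hκ]
    linarith
  · intro M
    filter_upwards [hT.large M] with n hn p hp
    rw [mem_biUnion] at hp
    obtain ⟨i, _, hi⟩ := hp
    exact hn i p hi
  · intro g δ hδ
    filter_upwards [hT.close g (δ / (Fintype.card ι + 1)) (by positivity)] with n hn
    have h1 : clo (Finset.univ.biUnion (T n)) g = Finset.univ.biUnion (fun i =>
        (T n i).filter (fun p => ∃ j, ∃ q ∈ T n j, p < q ∧ q < p + g)) := by
      ext p
      unfold clo
      simp only [mem_filter, mem_biUnion, mem_univ, true_and]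
      constructor
      · rintro ⟨⟨i, hi⟩, q, ⟨j, hj⟩, hq⟩
        exact ⟨i, hi, j, q, hj, hq⟩
      · rintro ⟨i, hi, j, q, hj, hq⟩
        exact ⟨⟨i, hi⟩, q, ⟨j, hj⟩, hq⟩
    rw [h1, Finset.sum_biUnion (fun i _ j _ hij =>
      Finset.disjoint_filter_filter (hT.disj n i j hij))]
    have h2 := (Finset.sum_le_sum (s := Finset.univ) fun i _ => hn i).trans (hdist δ hδ)
    refine le_trans (le_of_eq (Finset.sum_congr rfl fun i _ => ?_)) h2
    exact Finset.sum_congr (Finset.ext fun p => by simp only [mem_filter]) fun _ _ => rfl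
  · intro δ hδ
    filter_upwards [hT.thin (δ / (Fintype.card ι + 1)) (by positivity)] with n hn x
    rw [Finset.filter_biUnion, Finset.sum_biUnion (fun i _ j _ hij =>
      Finset.disjoint_filter_filter (hT.disj n i j hij))]
    exact (Finset.sum_le_sum fun i _ => hn i x).trans (hdist δ hδ)

/-- the exponent of the limit -/
lemma exp_tendsto {T : ℕ → ι → Finset ℕ} (hd : ∀ n i j, i ≠ j → Disjoint (T n i) (T n j)) {κ : ℝ}
    {lam : ι → ℝ}
    (hlam : ∀ i, Tendsto (fun n => κ * ∑ p ∈ T n i, wt p) atTop (𝓝 (lam i))) (t : ι → ℝ) :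
    Tendsto (fun n => Real.exp (-(κ * ∑ p ∈ Finset.univ.biUnion (T n),
      (1 - ∏ i, if p ∈ T n i then t i else 1) * wt p))) atTop
      (𝓝 (∏ i, Real.exp (-(lam i * (1 - t i))))) := by
  rw [← Real.exp_sum]
  refine (Real.continuous_exp.tendsto _).comp ?_
  have e : (fun n => -(κ * ∑ p ∈ Finset.univ.biUnion (T n),
      (1 - ∏ i, if p ∈ T n i then t i else 1) * wt p)) =
      fun n => ∑ i, -((κ * ∑ p ∈ T n i, wt p) * (1 - t i)) := by
    funext n
    rw [theta_sum (T n) (hd n) t, Finset.mul_sum, ← Finset.sum_neg_distrib]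
    refine Finset.sum_congr rfl fun i _ => ?_
    ring
  rw [e]
  refine tendsto_finsetSum _ fun i _ => ?_
  exact ((hlam i).mul_const _).neg

theorem gen_tendsto (hκ : 0 < κ) (hM : Model μ E κ) {T : ℕ → ι → Finset ℕ} (hT : Thin T)
    {lam : ι → ℝ} (hlam : ∀ i, Tendsto (fun n => κ * ∑ p ∈ T n i, wt p) atTop (𝓝 (lam i)))
    (t : ι → ℝ) (ht : ∀ i, 0 ≤ t i ∧ t i ≤ 1) :
    Tendsto (fun n => ∫ x, ∏ i, t i ^ NE E (T n i) x ∂μ) atTop
      (𝓝 (μ.real Set.univ * ∏ i, Real.exp (-(lam i * (1 - t i))))) := by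
  classical
  obtain ⟨hV0, hsumV, hlarge, hclose, hthin⟩ := union_small hT hκ hlam
  set V := ∑ i, (lam i / κ + 1) with hV
  have hexp := (exp_tendsto hT.disj hlam t).const_mul (μ.real Set.univ)
  have hdiff : Tendsto (fun n => ∫ x, ∏ i, t i ^ NE E (T n i) x ∂μ -
      μ.real Set.univ * Real.exp (-(κ *
      ∑ p ∈ Finset.univ.biUnion (T n), (1 - ∏ i, if p ∈ T n i then t i else 1) * wt p))) atTop
      (𝓝 0) := by
    rw [Metric.tendsto_atTop]
    intro ε hε
    obtain ⟨C, ρ, hC, hρ0, hρ1, P, hone, hpair⟩ := hM.pair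
    obtain ⟨c, hc, hmix⟩ := hM.mix
    obtain ⟨m, P1, hyy⟩ := yy_small hc
    set M := μ.real Set.univ with hMdef
    have hM0 : 0 ≤ M := measureReal_nonneg
    obtain ⟨Q, hQ⟩ := hmix (ε / (4 * (V + 1))) (by positivity)
    obtain ⟨δ, hδ, P0, hP0⟩ := errd_small (C := C) (ρ := ρ) (κ := κ) hκ.le hC hρ0 hρ1 m hV0
      (show 0 < ε / (4 * (M + 1)) by positivity)
    have hkw : Tendsto (fun p => κ * wt p) atTop (𝓝 0) := by
      simpa using wt_tendsto.const_mul κ
    obtain ⟨P2, hP2⟩ := (hkw.eventually_lt_const one_pos).exists_forall_of_atTop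
    obtain ⟨n0, hn0⟩ := ((hlarge (P + P1 + P0 + P2 + Q)).and ((hclose P0 δ hδ).and
      ((hthin δ hδ).and hsumV))).exists_forall_of_atTop
    refine ⟨n0, fun n hn => ?_⟩
    obtain ⟨hl, hcl, hth, hsV⟩ := hn0 n hn
    rw [Real.dist_eq, sub_zero]
    have e : ∫ x, ∏ i, t i ^ NE E (T n i) x ∂μ =
        ∫ x, G E (Finset.univ.biUnion (T n)) (fun p => ∏ i, if p ∈ T n i then t i else 1) x ∂μ :=
      integral_congr_ae (by
        filter_upwards with x
        exact (G_union (T n) (fun i j => hT.disj n i j) t x).symm)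
    rw [e]
    have hsm := (hP0 (Finset.univ.biUnion (T n)) (fun p hp => by have := hl p hp; omega) hcl hth
      hsV).1
    have hg := gen_unif (m := m) hκ.le hM.meas (P := P + P1 + P0 + P2 + Q)
      (fun p hp => hone p (by omega)) (fun p hp => hpair p (by omega))
      (Finset.univ.biUnion (T n)) hl (fun p hp => (hP2 p (by omega)).le)
      (θ := fun p => ∏ i, if p ∈ T n i then t i else 1) (theta_01 (T n) t ht)
      (r := fun q => ε / (4 * (V + 1)) * wt q)
      (fun q hq S' hS' => hQ q (by omega) S' (fun p hp =>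
        le_trans (by exact_mod_cast hS' p hp) (hyy q (by omega))) _ (theta_01 (T n) t ht))
    refine lt_of_le_of_lt hg ?_
    rw [← mul_sum]
    have h1 : ε / (4 * (V + 1)) * ∑ q ∈ Finset.univ.biUnion (T n), wt q ≤ ε / 4 := by
      calc _ ≤ ε / (4 * (V + 1)) * (V + 1) := by gcongr; linarith
        _ = ε / 4 := by field_simp
    have h2 : M * errd C ρ κ m (Finset.univ.biUnion (T n)) ≤ ε / 4 := by
      calc _ ≤ (M + 1) * (ε / (4 * (M + 1))) := by
            have h3 : M * errd C ρ κ m (Finset.univ.biUnion (T n)) ≤ M * (ε / (4 * (M + 1))) :=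
              mul_le_mul_of_nonneg_left hsm hM0
            have h4 : 0 ≤ ε / (4 * (M + 1)) := by positivity
            linarith
        _ = ε / 4 := by field_simp
    linarith
  have := hdiff.add hexp
  rw [zero_add] at this
  refine this.congr fun n => ?_
  ring

end

section

variable {μ : Measure Ω} [IsFiniteMeasure μ] {E : ℕ → Set Ω} {κ : ℝ} {ι : Type*} [Fintype ι]
  [DecidableEq ι]

theorem joint (hκ : 0 < κ) (hM : Model μ E κ) {T : ℕ → ι → Finset ℕ} (hT : Thin T)
    {lam : ι → ℝ} (hlam : ∀ i, Tendsto (fun n => κ * ∑ p ∈ T n i, wt p) atTop (𝓝 (lam i)))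
    (k : ι → ℕ) :
    Tendsto (fun n => μ.real {x | ∀ i, NE E (T n i) x = k i}) atTop
      (𝓝 (μ.real Set.univ * ∏ i, pois (lam i) (k i))) := by
  have hlam0 : ∀ i, 0 ≤ lam i := fun i =>
    ge_of_tendsto' (hlam i) fun n => mul_nonneg hκ.le (Finset.sum_nonneg fun p _ => wt_nonneg p)
  refine joint_of_gen (μ := fun _ => μ) (fun _ => le_rfl) (N := fun n i => NE E (T n i))
    (fun n i => NE_measurable hM.meas _) measureReal_nonneg hlam0 (fun r => ?_) k
  refine gen_tendsto hκ hM hT hlam (fun i => 1 / ((r i : ℝ) + 1)) fun i => ?_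
  have := Nat.cast_nonneg (α := ℝ) (r i)
  refine ⟨by positivity, ?_⟩
  rw [div_le_one (by positivity)]
  linarith

end

end Pool.Agent.U776.PL
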