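import Mathlib
import Pool.Agent.N176.GP.Meas
import Pool.Agent.N176.SH.Stm
import Pool.Agent.N607.SH.GC
import Pool.Agent.U776.PL.IntUp
import Pool.Agent.U776.PL.Joint

set_option autoImplicit false

/-!
# The model: the integers of the first `p` digits of a random amplitude, shifted
-/

namespace Pool.Agent.U776.PL

open MeasureTheory Finset Filter Topology
open Pool.Agent.H305R2 (roughPart)
open Pool.Agent.N176.GP (NB NB_spec NB_div sum_cells)
open Pool.Agent.N176.SH (sh Ok Deg Big S_TU S_RB)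
open Pool.Agent.N176.OW (cell kap)

/-- the event -/
def Ev (c : ℕ → ℤ) (b p : ℕ) : Set ℝ := {β | (roughPart p (sh c p (NB b β p))).Prime}

lemma NB_measurable (b p : ℕ) : Measurable (fun β : ℝ => NB b β p) := by
  unfold NB
  have h1 : Measurable (fun β : ℝ => ⌈β * (b : ℝ) ^ p⌉₊) :=
    Nat.measurable_ceil.comp (measurable_id.mul_const _)
  exact (measurable_of_countable (fun n : ℕ => n - 1)).comp h1

lemma Ev_measurable (c : ℕ → ℤ) (b p : ℕ) : MeasurableSet (Ev c b p) :=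
  NB_measurable b p (MeasurableSet.of_discrete (s := {n : ℕ | (roughPart p (sh c p n)).Prime}))

lemma NB_cell {b : ℕ} (hb : 2 ≤ b) {t n : ℕ} {β : ℝ} (h1 : (n : ℝ) / (b : ℝ) ^ t < β)
    (h2 : β ≤ ((n + 1 : ℕ) : ℝ) / (b : ℝ) ^ t) : NB b β t = n := by
  have hb0 : (0 : ℝ) < (b : ℝ) ^ t := by positivity
  have hβ : 0 < β := lt_of_le_of_lt (by positivity) h1
  obtain ⟨h3, h4⟩ := NB_spec hb hβ t
  rw [div_lt_iff₀ hb0] at h1
  rw [le_div_iff₀ hb0] at h2
  push_cast at h2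
  have h5 : (n : ℝ) < NB b β t + 1 := lt_of_lt_of_le h1 h4
  have h6 : (NB b β t : ℝ) < n + 1 := lt_of_lt_of_le h3 h2
  have h7 : n < NB b β t + 1 := by exact_mod_cast h5
  have h8 : NB b β t < n + 1 := by exact_mod_cast h6
  omega

lemma int_cells {b : ℕ} (hb : 2 ≤ b) (t : ℕ) (f : ℕ → ℝ) {A B : ℕ} (hAB : A ≤ B) :
    IntegrableOn (fun β => f (NB b β t)) (Set.Ioc ((A : ℝ) / (b : ℝ) ^ t) ((B : ℝ) / (b : ℝ) ^ t)) ∧
    ∫ β in Set.Ioc ((A : ℝ) / (b : ℝ) ^ t) ((B : ℝ) / (b : ℝ) ^ t), f (NB b β t) =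
      (∑ n ∈ Ico A B, f n) / (b : ℝ) ^ t := by
  have hb0 : (0 : ℝ) < (b : ℝ) ^ t := by positivity
  induction B, hAB using Nat.le_induction with
  | base => simp
  | succ B hAB ih =>
    have h1 : Set.Ioc ((A : ℝ) / (b : ℝ) ^ t) (((B + 1 : ℕ) : ℝ) / (b : ℝ) ^ t) =
       Set.Ioc ((A : ℝ) / (b : ℝ) ^ t) ((B : ℝ) / (b : ℝ) ^ t) ∪
         Set.Ioc ((B : ℝ) / (b : ℝ) ^ t) (((B + 1 : ℕ) : ℝ) / (b : ℝ) ^ t) := by
      rw [Set.Ioc_union_Ioc_eq_Ioc]
      · gcongr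
      · gcongr
        omega
    have h2 : Set.EqOn (fun β => f (NB b β t)) (fun _ => f B)
        (Set.Ioc ((B : ℝ) / (b : ℝ) ^ t) (((B + 1 : ℕ) : ℝ) / (b : ℝ) ^ t)) := by
      intro β hβ
      simp only [NB_cell hb hβ.1 hβ.2]
    have h3 : IntegrableOn (fun β => f (NB b β t))
        (Set.Ioc ((B : ℝ) / (b : ℝ) ^ t) (((B + 1 : ℕ) : ℝ) / (b : ℝ) ^ t)) := by
      refine (integrableOn_congr_fun h2 measurableSet_Ioc).2 ?_
      exact integrableOn_const (by simp)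
    refine ⟨by rw [h1]; exact ih.1.union h3, ?_⟩
    rw [h1, setIntegral_union (Set.Ioc_disjoint_Ioc_of_le le_rfl) measurableSet_Ioc ih.1 h3, ih.2,
      setIntegral_congr_fun measurableSet_Ioc h2, setIntegral_const, Measure.real,
      Real.volume_Ioc, Finset.sum_Ico_succ_top hAB, add_div]
    congr 1
    have h4 : ((B + 1 : ℕ) : ℝ) - B = 1 := by push_cast; ring
    rw [← sub_div, h4, ENNReal.toReal_ofReal (by positivity), smul_eq_mul]
    ring

/-- the uniform measure on `(A0 / b ^ m, B0 / b ^ m]`, not normalized -/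
noncomputable def mu (b m A0 B0 : ℕ) : Measure ℝ :=
  volume.restrict (Set.Ioc ((A0 : ℝ) / (b : ℝ) ^ m) ((B0 : ℝ) / (b : ℝ) ^ m))

instance (b m A0 B0 : ℕ) : IsFiniteMeasure (mu b m A0 B0) := by
  unfold mu
  infer_instance

lemma mass {b m A0 B0 : ℕ} (hAB : A0 ≤ B0) :
    (mu b m A0 B0).real Set.univ = ((B0 - A0 : ℕ) : ℝ) / (b : ℝ) ^ m := by
  unfold mu
  have h1 : (A0 : ℝ) / (b : ℝ) ^ m ≤ (B0 : ℝ) / (b : ℝ) ^ m := by gcongr
  rw [Measure.real, Measure.restrict_apply_univ, Real.volume_Ioc,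
    ENNReal.toReal_ofReal (by linarith), ← sub_div, Nat.cast_sub hAB]

lemma scale {b : ℕ} (hb : 2 ≤ b) {m t : ℕ} (hmt : m ≤ t) (A0 : ℕ) :
    (A0 : ℝ) / (b : ℝ) ^ m = ((A0 * b ^ (t - m) : ℕ) : ℝ) / (b : ℝ) ^ t := by
  have hb0 : (0 : ℝ) < b := by positivity
  have h1 : (b : ℝ) ^ t = (b : ℝ) ^ m * (b : ℝ) ^ (t - m) := by
    rw [← pow_add]; congr 1; omega
  rw [h1]
  push_cast
  field_simp

lemma int_mu {b : ℕ} (hb : 2 ≤ b) {m t A0 B0 : ℕ} (hmt : m ≤ t) (hAB : A0 ≤ B0) (f : ℕ → ℝ) :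
    ∫ β, f (NB b β t) ∂(mu b m A0 B0) =
      (∑ n ∈ Ico (A0 * b ^ (t - m)) (B0 * b ^ (t - m)), f n) / (b : ℝ) ^ t := by
  unfold mu
  rw [scale hb hmt A0, scale hb hmt B0]
  exact (int_cells hb t f (Nat.mul_le_mul_right _ hAB)).2

lemma int_mu' {b : ℕ} (hb : 2 ≤ b) {m t A0 B0 : ℕ} (hmt : m ≤ t) (hAB : A0 ≤ B0) (f : ℕ → ℝ)
    (g : ℝ → ℝ) (h : ∀ β > 0, g β = f (NB b β t)) :
    ∫ β, g β ∂(mu b m A0 B0) =
      (∑ n ∈ Ico (A0 * b ^ (t - m)) (B0 * b ^ (t - m)), f n) / (b : ℝ) ^ t := by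
  rw [← int_mu hb hmt hAB f]
  unfold mu
  refine setIntegral_congr_fun measurableSet_Ioc fun β hβ => h β (lt_of_le_of_lt ?_ hβ.1)
  positivity

lemma real_mu {b : ℕ} (hb : 2 ≤ b) {m t A0 B0 : ℕ} (hmt : m ≤ t) (hAB : A0 ≤ B0) {S : Set ℝ}
    (hS : MeasurableSet S) (P : ℕ → Prop) [DecidablePred P] (h : ∀ β > 0, (β ∈ S ↔ P (NB b β t))) :
    (mu b m A0 B0).real S =
      (((Ico (A0 * b ^ (t - m)) (B0 * b ^ (t - m))).filter P).card : ℝ) / (b : ℝ) ^ t := by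
  classical
  have h1 : (mu b m A0 B0).real S = ∫ β, S.indicator (fun _ => (1 : ℝ)) β ∂(mu b m A0 B0) := by
    rw [integral_indicator hS, setIntegral_const, smul_eq_mul, mul_one]
  rw [h1, int_mu' hb hmt hAB (fun n => if P n then 1 else 0)]
  · rw [Finset.card_filter]
    push_cast
    rfl
  · intro β hβ
    by_cases h2 : β ∈ S
    · rw [Set.indicator_of_mem h2, if_pos ((h β hβ).1 h2)]
    · rw [Set.indicator_of_notMem h2, if_neg fun h3 => h2 ((h β hβ).2 h3)]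

lemma Ev_iff {c : ℕ → ℤ} {b : ℕ} (hb : 2 ≤ b) {p t : ℕ} (hpt : p ≤ t) {β : ℝ} (hβ : 0 < β) :
    β ∈ Ev c b p ↔ (roughPart p (sh c p (NB b β t / b ^ (t - p)))).Prime := by
  rw [NB_div hb hβ hpt]
  rfl

/-- the shifts are small -/
lemma shift_small {b A : ℕ} {c : ℕ → ℤ} (H : Ok b A c) (m : ℕ) {p : ℕ} (hp : A * (m + 1) ≤ p) :
    |c p| < ((b ^ (p - m) : ℕ) : ℤ) := by
  have hb := H.hb
  have hA := H.hA
  have hpA : A ≤ p := by nlinarith
  have hmp : m ≤ p := by nlinarith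
  have h1 := H.size p hpA
  have h2 : m + 1 ≤ p / A := by
    rw [Nat.le_div_iff_mul_le (by omega)]
    linarith [Nat.mul_comm A (m + 1)]
  have h3 : |c p| * (b : ℤ) ^ (m + 1) ≤ (b : ℤ) ^ p := by
    refine le_trans ?_ h1
    apply mul_le_mul_of_nonneg_left _ (abs_nonneg _)
    exact pow_le_pow_right₀ (by omega) (by omega)
  have h4 : (b : ℤ) ^ p = (b : ℤ) ^ (p - m) * (b : ℤ) ^ m := by
    rw [← pow_add]; congr 1; omega
  rw [h4, pow_succ, ← mul_assoc, mul_right_comm] at h3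
  have h5 : |c p| * b ≤ (b : ℤ) ^ (p - m) := le_of_mul_le_mul_right h3 (by positivity)
  push_cast
  have h6 : 0 ≤ |c p| := abs_nonneg _
  have h7 : (2 : ℤ) ≤ b := by exact_mod_cast hb
  have h8 : (0 : ℤ) < (b : ℤ) ^ (p - m) := by positivity
  nlinarith

/-- integers with prime rough part after the shift, in an interval of exponential length -/
lemma shift_up {b A : ℕ} {c : ℕ → ℤ} (H : Ok b A c) {c0 : ℝ} (hc0 : 0 < c0) :
    ∃ C : ℝ, 0 < C ∧ ∃ P : ℕ, ∀ m : ℕ, ∀ p ≥ P, A * (m + 1) ≤ p → ∀ N L : ℕ, b ^ (p - m) ≤ N →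
      Real.exp (c0 * p) ≤ L →
      (((Ico N (N + L)).filter (fun n => (roughPart p (sh c p n)).Prime)).card : ℝ) ≤
        C * wt p * L := by
  obtain ⟨C, hC, P, hP⟩ := interval_up hc0
  refine ⟨C, hC, P, fun m p hp hmp N L hN hL => ?_⟩
  have h1 := shift_small H m hmp
  have h2 : |c p| < (N : ℤ) := lt_of_lt_of_le h1 (by exact_mod_cast hN)
  have h3 := abs_lt.1 h2
  set a := ((N : ℤ) + c p - 1).toNat with ha
  have ha' : (a : ℤ) = N + c p - 1 := by omega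
  have h4 := hP p hp a L hL
  refine le_trans ?_ h4
  have h5 : (((Ico N (N + L)).filter (fun n => (roughPart p (sh c p n)).Prime)).image
      (fun n => sh c p n)).card =
      ((Ico N (N + L)).filter (fun n => (roughPart p (sh c p n)).Prime)).card := by
    apply card_image_of_injOn
    intro x hx y hy hxy
    rw [coe_filter, Set.mem_ofPred_eq, mem_Ico] at hx hy
    simp only [sh] at hxy
    omega
  rw [← h5]
  have h6 : ((Ico N (N + L)).filter (fun n => (roughPart p (sh c p n)).Prime)).image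
      (fun n => sh c p n) ⊆ (Ioc a (a + L)).filter (fun n => (roughPart p n).Prime) := by
    intro x hx
    rw [mem_image] at hx
    obtain ⟨n, hn, rfl⟩ := hx
    rw [mem_filter, mem_Ico] at hn
    rw [mem_filter, mem_Ioc]
    refine ⟨?_, hn.2⟩
    unfold sh
    omega
  exact_mod_cast card_le_card h6

end Pool.Agent.U776.PL
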