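import Mathlib
import Pool.Agent.U776.PL.Inst1

set_option autoImplicit false

/-!
# The model: one event and pairs of events
-/

namespace Pool.Agent.U776.PL

open MeasureTheory Finset Filter Topology
open Pool.Agent.H305R2 (roughPart)
open Pool.Agent.N176.GP (NB NB_spec NB_div sum_cells)
open Pool.Agent.N176.SH (sh Ok Deg Big S_TU S_RB)
open Pool.Agent.N176.OW (cell kap)

lemma sum_blocks (M a c : ℕ) (hac : a ≤ c) (g : ℕ → ℝ) :
    ∑ n ∈ Ico (a * M) (c * M), g n = ∑ j ∈ Ico a c, ∑ n ∈ Ico (j * M) ((j + 1) * M), g n := by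
  rw [sum_cells M a c hac]
  refine sum_congr rfl fun j _ => ?_
  rw [sum_cells M j (j + 1) (Nat.le_succ j), Nat.Ico_succ_singleton, sum_singleton]

lemma exp_le_pow {b : ℕ} (hb : 2 ≤ b) {q k : ℕ} (h : q ≤ 4 * k) :
    Real.exp (Real.log b / 4 * q) ≤ ((b ^ k : ℕ) : ℝ) := by
  have hb0 : (0 : ℝ) < b := by positivity
  have hl : 0 ≤ Real.log b := Real.log_natCast_nonneg b
  have h1 : ((b ^ k : ℕ) : ℝ) = Real.exp (Real.log b * k) := by
    push_cast
    rw [mul_comm, Real.exp_nat_mul, Real.exp_log hb0]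
  rw [h1, Real.exp_le_exp]
  have h2 : (q : ℝ) ≤ 4 * k := by exact_mod_cast h
  nlinarith

section

variable {b A : ℕ} {c : ℕ → ℤ} (H : Ok b A c)

include H

/-- one event -/
lemma one_up : ∃ C : ℝ, 0 < C ∧ ∃ P : ℕ, ∀ m A0 B0 : ℕ, 1 ≤ A0 → A0 < B0 → ∀ p ≥ P,
    A * (m + 1) ≤ p →
    (mu b m A0 B0).real (Ev c b p) ≤ (mu b m A0 B0).real Set.univ * (C * wt p) := by
  have hb := H.hb
  have hA := H.hA
  have hb0 : (0 : ℝ) < b := by positivity
  have hlb : 0 < Real.log b := Real.log_pos (by exact_mod_cast hb)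
  obtain ⟨C, hC, P, hP⟩ := shift_up H (c0 := Real.log b / 4) (by positivity)
  refine ⟨C, by positivity, P, fun m A0 B0 hA0 hAB p hp hmp => ?_⟩
  have hmp2 : 2 * m ≤ p := by nlinarith
  rw [real_mu hb (by omega : m ≤ p) hAB.le (Ev_measurable c b p)
    (fun n => (roughPart p (sh c p n)).Prime) (fun β _ => Iff.rfl), div_le_iff₀ (by positivity),
    mass hAB.le]
  have h1 := hP m p hp hmp (A0 * b ^ (p - m)) ((B0 - A0) * b ^ (p - m))
    (Nat.le_mul_of_pos_left _ hA0) ?_
  · have h2 : A0 * b ^ (p - m) + (B0 - A0) * b ^ (p - m) = B0 * b ^ (p - m) := by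
      rw [← add_mul]
      congr 1
      omega
    rw [h2] at h1
    refine h1.trans (le_of_eq ?_)
    have h3 : (b : ℝ) ^ p = (b : ℝ) ^ m * (b : ℝ) ^ (p - m) := by
      rw [← pow_add]; congr 1; omega
    rw [h3]
    push_cast
    field_simp
  · refine (exp_le_pow hb (by omega : p ≤ 4 * (p - m))).trans ?_
    exact_mod_cast Nat.le_mul_of_pos_left _ (by omega : 0 < B0 - A0)

/-- the number of integers of level `p` with the event -/
lemma card_one : ∃ C : ℝ, 0 < C ∧ ∃ P : ℕ, ∀ m A0 B0 : ℕ, 1 ≤ A0 → A0 < B0 → ∀ p ≥ P,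
    A * (m + 1) ≤ p →
    ((((Ico (A0 * b ^ (p - m)) (B0 * b ^ (p - m))).filter
      (fun n => (roughPart p (sh c p n)).Prime)).card : ℕ) : ℝ) ≤
      (mu b m A0 B0).real Set.univ * (C * wt p) * (b : ℝ) ^ p := by
  have hb := H.hb
  have hA := H.hA
  have hb0 : (0 : ℝ) < b := by positivity
  obtain ⟨C, hC, P, hP⟩ := one_up H
  refine ⟨C, hC, P, fun m A0 B0 hA0 hAB p hp hmp => ?_⟩
  have hmp2 : 2 * m ≤ p := by nlinarith
  have h1 := hP m A0 B0 hA0 hAB p hp hmp
  rw [real_mu hb (by omega : m ≤ p) hAB.le (Ev_measurable c b p)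
    (fun n => (roughPart p (sh c p n)).Prime) (fun β _ => Iff.rfl), div_le_iff₀ (by positivity)] at h1
  exact h1

/-- two distant events -/
lemma far_up : ∃ C : ℝ, 0 < C ∧ ∃ P : ℕ, ∀ m A0 B0 : ℕ, 1 ≤ A0 → A0 < B0 → ∀ p ≥ P,
    A * (m + 1) ≤ p → ∀ q : ℕ, 2 * p - 1 ≤ q →
    (mu b m A0 B0).real (Ev c b p ∩ Ev c b q) ≤
      (mu b m A0 B0).real Set.univ * (C * (wt p * wt q)) := by
  classical
  have hb := H.hb
  have hA := H.hA
  have hb0 : (0 : ℝ) < b := by positivity
  have hlb : 0 < Real.log b := Real.log_pos (by exact_mod_cast hb)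
  obtain ⟨C, hC, P, hP⟩ := shift_up H (c0 := Real.log b / 4) (by positivity)
  obtain ⟨C1, hC1, P1, hP1⟩ := card_one H
  refine ⟨C1 * C, by positivity, P + P1 + 2, fun m A0 B0 hA0 hAB p hp hmp q hq => ?_⟩
  have hpq : p ≤ q := by omega
  have hmp' : m ≤ p := by nlinarith
  rw [real_mu hb (by omega : m ≤ q) hAB.le ((Ev_measurable c b p).inter (Ev_measurable c b q))
    (fun n => (roughPart p (sh c p (n / b ^ (q - p)))).Prime ∧ (roughPart q (sh c q n)).Prime)
    (fun β hβ => by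
      rw [Set.mem_inter_iff, Ev_iff hb hpq hβ]
      rfl), div_le_iff₀ (by positivity)]
  set B := b ^ (q - p) with hB
  have hB0 : 0 < B := by positivity
  have e1 : b ^ (q - m) = b ^ (p - m) * B := by
    rw [hB, ← pow_add]; congr 1; omega
  rw [Finset.card_filter]
  push_cast
  rw [e1, ← mul_assoc, ← mul_assoc, sum_cells B _ _ (Nat.mul_le_mul_right _ hAB.le)]
  have h1 : ∀ n' ∈ Ico (A0 * b ^ (p - m)) (B0 * b ^ (p - m)),
      ∑ r ∈ range B, (if (roughPart p (sh c p ((n' * B + r) / B))).Prime ∧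
        (roughPart q (sh c q (n' * B + r))).Prime then (1 : ℝ) else 0) ≤
      (if (roughPart p (sh c p n')).Prime then (1 : ℝ) else 0) * (C * wt q * B) := by
    intro n' hn'
    rw [mem_Ico] at hn'
    have h2 : ∀ r ∈ range B, (n' * B + r) / B = n' := by
      intro r hr
      rw [mem_range] at hr
      rw [Nat.add_div_of_dvd_right (dvd_mul_left B n'), Nat.mul_div_cancel _ hB0,
        Nat.div_eq_of_lt hr, add_zero]
    by_cases h3 : (roughPart p (sh c p n')).Prime
    · rw [if_pos h3, one_mul]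
      have h4 := hP m q (by omega) (by omega) (n' * B) B ?_ ?_
      · refine le_trans (le_of_eq ?_) h4
        rw [Finset.card_filter]
        push_cast
        have h5 : n' * B + B = (n' + 1) * B := by ring
        rw [h5, sum_cells B n' (n' + 1) (Nat.le_succ n'), Nat.Ico_succ_singleton, sum_singleton]
        refine sum_congr rfl fun r hr => ?_
        rw [h2 r hr]
        simp only [h3, true_and]
      · rw [e1]
        exact Nat.mul_le_mul_right _ ((Nat.le_mul_of_pos_left _ hA0).trans hn'.1)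
      · exact exp_le_pow hb (by omega)
    · rw [if_neg h3, zero_mul]
      refine le_of_eq (sum_eq_zero fun r hr => ?_)
      rw [h2 r hr, if_neg fun h => h3 h.1]
  refine (sum_le_sum h1).trans ?_
  rw [← sum_mul]
  have h2 := hP1 m A0 B0 hA0 hAB p (by omega) hmp
  rw [Finset.card_filter] at h2
  push_cast at h2
  have h4 := wt_nonneg q
  set M := (mu b m A0 B0).real Set.univ with hM
  calc (∑ i ∈ Ico (A0 * b ^ (p - m)) (B0 * b ^ (p - m)),
        if (roughPart p (sh c p i)).Prime then (1 : ℝ) else 0) * (C * wt q * (B : ℝ))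
      ≤ (M * (C1 * wt p) * (b : ℝ) ^ p) * (C * wt q * (B : ℝ)) :=
        mul_le_mul_of_nonneg_right h2 (by positivity)
    _ = M * (C1 * C * (wt p * wt q)) * ((b : ℝ) ^ p * B) := by ring
    _ = M * (C1 * C * (wt p * wt q)) * (b : ℝ) ^ q := by
        congr 1
        rw [hB]
        push_cast
        rw [← pow_add]
        congr 1
        omega

end

end Pool.Agent.U776.PL
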