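import Mathlib
import Pool.Agent.U776.PL.Inst2

set_option autoImplicit false

/-!
# The model: two near events
-/

namespace Pool.Agent.U776.PL

open MeasureTheory Finset Filter Topology
open Pool.Agent.H305R2 (roughPart)
open Pool.Agent.N176.GP (NB NB_spec NB_div sum_cells)
open Pool.Agent.N176.SH (sh Ok Deg Big S_TU S_RB)
open Pool.Agent.N176.OW (cell kap)

lemma deg_iff {c : ℕ → ℤ} {b t p q : ℕ} (hb : 2 ≤ b) (hpq : p < q) (hqt : q ≤ t) (n r : ℕ)
    (hr : r < b ^ (t - p)) : Deg c b t p q (n * b ^ (t - p) + r) ↔ Deg c b t p q r := by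
  have hb0 : 0 < b := by omega
  have e1 : b ^ (t - p) = b ^ (q - p) * b ^ (t - q) := by
    rw [← pow_add]; congr 1; omega
  have h1 : (n * b ^ (t - p) + r) / b ^ (t - q) = n * b ^ (q - p) + r / b ^ (t - q) := by
    rw [e1, ← mul_assoc, Nat.add_div_of_dvd_right (dvd_mul_left _ _),
      Nat.mul_div_cancel _ (by positivity)]
  have h2 : (n * b ^ (t - p) + r) / b ^ (t - p) = n := by
    rw [Nat.add_div_of_dvd_right (dvd_mul_left _ _), Nat.mul_div_cancel _ (by positivity),
      Nat.div_eq_of_lt hr, add_zero]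
  have h3 : r / b ^ (t - p) = 0 := Nat.div_eq_of_lt hr
  unfold Deg
  rw [h1, h2, h3]
  push_cast
  constructor
  · intro h
    linarith
  · intro h
    linarith

/-- few last digits are degenerate -/
lemma deg_card {c : ℕ → ℤ} {b t p q : ℕ} (hb : 2 ≤ b) :
    ((range (b ^ (t - p))).filter (fun r => Deg c b t p q r)).card ≤ b ^ (t - q) := by
  have hb0 : 0 < b := by omega
  set d : ℤ := (b : ℤ) ^ (q - p) * c p - c q with hd
  have h1 : (range (b ^ (t - p))).filter (fun r => Deg c b t p q r) ⊆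
      Ico (d.toNat * b ^ (t - q)) ((d.toNat + 1) * b ^ (t - q)) := by
    intro r hr
    rw [mem_filter, mem_range] at hr
    obtain ⟨h2, h3⟩ := hr
    have h4 : r / b ^ (t - p) = 0 := Nat.div_eq_of_lt h2
    unfold Deg at h3
    rw [h4] at h3
    push_cast at h3
    have h5 : ((r / b ^ (t - q) : ℕ) : ℤ) = d := by
      push_cast
      rw [hd]
      linarith
    have h6 : r / b ^ (t - q) = d.toNat := by
      rw [← h5]
      exact (Int.toNat_natCast _).symm
    rw [mem_Ico, ← h6]
    constructor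
    · exact Nat.div_mul_le_self _ _
    · rw [mul_comm]
      exact Nat.lt_mul_div_succ r (by positivity)
  refine (card_le_card h1).trans ?_
  rw [Nat.card_Ico, add_mul, one_mul]
  omega

section

variable {b A : ℕ} {c : ℕ → ℤ} (H : Ok b A c)

include H

/-- two near events, counting -/
lemma near_count (hTU : S_TU) (hRB : S_RB) : ∃ C d : ℝ, 0 < C ∧ 0 < d ∧ ∃ P : ℕ,
    ∀ m A0 B0 : ℕ, 1 ≤ A0 → A0 < B0 → B0 ≤ b ^ (2 * m) → ∀ p ≥ P, A * (m + 1) ≤ p →
    ∀ q : ℕ, p < q → q ≤ 2 * (p - 1) →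
    (mu b m A0 B0).real (Ev c b p ∩ Ev c b q) ≤ (mu b m A0 B0).real Set.univ *
      (C * ((Real.log (p - 1 : ℕ) / (p - 1 : ℕ)) ^ 2 + Real.exp (-(d * (p - 1 : ℕ))) +
        wt p * (1 / 2) ^ (q - p))) := by
  classical
  have hb := H.hb
  have hb0 : (0 : ℝ) < b := by positivity
  have hb1 : (1 : ℝ) ≤ b := by exact_mod_cast (by omega : 1 ≤ b)
  obtain ⟨C, hC, P, hP⟩ := hTU b A c H
  obtain ⟨d, hd, P1, hP1⟩ := hRB b A c H
  obtain ⟨C2, hC2, P2, hP2⟩ := card_one H
  have hev : ∀ᶠ x : ℕ in atTop, (4 : ℝ) ≤ Real.log x :=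
    (Real.tendsto_log_atTop.comp tendsto_natCast_atTop_atTop).eventually_ge_atTop 4
  obtain ⟨P3, hP3⟩ := eventually_atTop.1 hev
  have hA64 := H.hA
  refine ⟨(C * 2) ^ 2 + 1 + C2, d, by positivity, hd, P + P1 + P2 + P3 + 2,
    fun m A0 B0 hA0 hAB hB0 p hp hmp q hpq hq => ?_⟩
  obtain ⟨x, rfl⟩ : ∃ x, p = x + 1 := ⟨p - 1, by omega⟩
  rw [Nat.add_sub_cancel] at hq
  simp only [Nat.add_sub_cancel]
  have hAm : A * m ≤ x := by nlinarith
  have hmx : m ≤ x := by nlinarith
  set D : ℝ := ((B0 - A0 : ℕ) : ℝ) with hDdef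
  set t := 2 * x with ht
  have hmt : m ≤ t := by omega
  have hpt : x + 1 ≤ t := by omega
  have hF : ∀ p ∈ ({x + 1, q} : Finset ℕ), x < p ∧ p ≤ 2 * x := by
    intro p hp
    rw [mem_insert, mem_singleton] at hp
    omega
  have hFc : ({x + 1, q} : Finset ℕ).card = 2 := by
    rw [card_pair (by omega)]
  rw [real_mu hb hmt hAB.le ((Ev_measurable c b (x + 1)).inter (Ev_measurable c b q))
    (fun n => (roughPart (x + 1) (sh c (x + 1) (n / b ^ (t - (x + 1))))).Prime ∧
      (roughPart q (sh c q (n / b ^ (t - q)))).Prime)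
    (fun β hβ => by
      rw [Set.mem_inter_iff, Ev_iff hb hpt hβ, Ev_iff hb hq hβ]), div_le_iff₀ (by positivity)]
  set Pp : ℕ → Prop := fun n => (roughPart (x + 1) (sh c (x + 1) (n / b ^ (t - (x + 1))))).Prime
    with hPp
  set Pq : ℕ → Prop := fun n => (roughPart q (sh c q (n / b ^ (t - q)))).Prime with hPq
  set I := Ico (A0 * b ^ (t - m)) (B0 * b ^ (t - m)) with hI
  set S1 := I.filter (fun n => Big c {x + 1, q} b t x n) with hS1
  set S2 := I.filter (fun n => Pp n ∧ Deg c b t (x + 1) q n) with hS2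
  set S3 := I.filter (fun n => ¬ Deg c b t (x + 1) q n ∧ ∀ p ∈ ({x + 1, q} : Finset ℕ),
    (roughPart p (sh c p (n / b ^ (t - p)))).Prime ∧
    ((sh c p (n / b ^ (t - p)) / roughPart p (sh c p (n / b ^ (t - p))) : ℕ) : ℝ) <
      Real.exp (x * Real.log b / 8)) with hS3
  have hcover : I.filter (fun n => Pp n ∧ Pq n) ⊆ (S1 ∪ S2) ∪ S3 := by
    intro n hn
    rw [mem_filter] at hn
    obtain ⟨h1, h2, h3⟩ := hn
    rw [mem_union, mem_union]
    by_cases h4 : Big c {x + 1, q} b t x n
    · exact Or.inl (Or.inl (mem_filter.2 ⟨h1, h4⟩))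
    · by_cases h5 : Deg c b t (x + 1) q n
      · exact Or.inl (Or.inr (mem_filter.2 ⟨h1, h2, h5⟩))
      · refine Or.inr (mem_filter.2 ⟨h1, h5, fun p hp => ?_⟩)
        have h6 : (roughPart p (sh c p (n / b ^ (t - p)))).Prime := by
          rw [mem_insert, mem_singleton] at hp
          rcases hp with rfl | rfl
          · exact h2
          · exact h3
        refine ⟨h6, ?_⟩
        by_contra h7
        exact h4 ⟨p, hp, h6, not_lt.1 h7⟩
  have hc0 : ((I.filter (fun n => Pp n ∧ Pq n)).card : ℝ) ≤ S1.card + S2.card + S3.card := by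
    have h1 := (card_le_card hcover).trans (card_union_le _ _)
    have h2 := card_union_le S1 S2
    have h3 : (I.filter (fun n => Pp n ∧ Pq n)).card ≤ S1.card + S2.card + S3.card := by omega
    exact_mod_cast h3
  -- large smooth parts
  have hc1 : (S1.card : ℝ) ≤ D * (Real.exp (-(d * x)) * (b : ℝ) ^ (t - m)) := by
    rw [hS1, Finset.card_filter]
    push_cast
    rw [hI, sum_blocks _ _ _ hAB.le]
    have h1 : ∀ j ∈ Ico A0 B0, ∑ n ∈ Ico (j * b ^ (t - m)) ((j + 1) * b ^ (t - m)),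
        (if Big c {x + 1, q} b t x n then (1 : ℝ) else 0) ≤
        Real.exp (-(d * x)) * (b : ℝ) ^ (t - m) := by
      intro j hj
      rw [mem_Ico] at hj
      have h2 := hP1 x (by omega) {x + 1, q} hF m hAm t le_rfl j (by omega) (by omega)
      rw [Finset.card_filter] at h2
      push_cast at h2
      exact h2
    refine (sum_le_sum h1).trans ?_
    rw [sum_const, Nat.card_Ico, nsmul_eq_mul]
  -- degenerate pairs
  set B := b ^ (t - (x + 1)) with hB
  have hBpos : 0 < B := by positivity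
  have e1 : b ^ (t - m) = b ^ (x + 1 - m) * B := by
    rw [hB, ← pow_add]; congr 1; omega
  set M := (mu b m A0 B0).real Set.univ with hM
  have hMD : M = D / (b : ℝ) ^ m := mass hAB.le
  have hM0 : 0 ≤ M := measureReal_nonneg
  have hc2 : (S2.card : ℝ) ≤ M * (C2 * wt (x + 1)) * (b : ℝ) ^ (x + 1) * (b : ℝ) ^ (t - q) := by
    rw [hS2, Finset.card_filter]
    push_cast
    rw [hI, e1, ← mul_assoc, ← mul_assoc, sum_cells B _ _ (Nat.mul_le_mul_right _ hAB.le)]
    have h1 : ∀ n' ∈ Ico (A0 * b ^ (x + 1 - m)) (B0 * b ^ (x + 1 - m)),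
        ∑ r ∈ range B, (if Pp (n' * B + r) ∧ Deg c b t (x + 1) q (n' * B + r)
          then (1 : ℝ) else 0) ≤
        (if (roughPart (x + 1) (sh c (x + 1) n')).Prime then (1 : ℝ) else 0) *
          (b : ℝ) ^ (t - q) := by
      intro n' hn'
      have h2 : ∀ r ∈ range B, (n' * B + r) / B = n' := by
        intro r hr
        rw [mem_range] at hr
        rw [Nat.add_div_of_dvd_right (dvd_mul_left B n'), Nat.mul_div_cancel _ hBpos,
          Nat.div_eq_of_lt hr, add_zero]
      by_cases h3 : (roughPart (x + 1) (sh c (x + 1) n')).Prime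
      · rw [if_pos h3, one_mul]
        have h4 : ∑ r ∈ range B, (if Pp (n' * B + r) ∧ Deg c b t (x + 1) q (n' * B + r)
            then (1 : ℝ) else 0) ≤
            ∑ r ∈ range B, (if Deg c b t (x + 1) q r then (1 : ℝ) else 0) := by
          refine sum_le_sum fun r hr => ?_
          have h5 := deg_iff (c := c) hb hpq hq n' r (mem_range.1 hr)
          by_cases h6 : Deg c b t (x + 1) q r
          · rw [if_pos h6]
            split_ifs <;> norm_num
          · rw [if_neg h6, if_neg fun h7 => h6 (h5.1 h7.2)]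
        refine h4.trans ?_
        have h5 := deg_card (c := c) (b := b) (t := t) (p := x + 1) (q := q) hb
        rw [Finset.card_filter] at h5
        exact_mod_cast h5
      · rw [if_neg h3, zero_mul]
        refine le_of_eq (sum_eq_zero fun r hr => ?_)
        rw [if_neg]
        intro h
        apply h3
        have h4 : (roughPart (x + 1) (sh c (x + 1) ((n' * B + r) / B))).Prime := h.1
        rw [h2 r hr] at h4
        exact h4
    refine (sum_le_sum h1).trans ?_
    rw [← sum_mul]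
    have h2 := hP2 m A0 B0 hA0 hAB (x + 1) (by omega) hmp
    rw [Finset.card_filter] at h2
    push_cast at h2
    exact mul_le_mul_of_nonneg_right h2 (by positivity)
  -- the sieve
  have hc3 : (S3.card : ℝ) ≤ B * (D * ((C * 2 * (Real.log x / x)) ^ 2 * (b : ℝ) ^ (x + 1 - m))) := by
    rw [hS3, Finset.card_filter]
    push_cast
    rw [hI, e1, ← mul_assoc, ← mul_assoc, sum_cells B _ _ (Nat.mul_le_mul_right _ hAB.le),
      sum_comm]
    have h1 : ∀ r ∈ range B, ∑ n' ∈ Ico (A0 * b ^ (x + 1 - m)) (B0 * b ^ (x + 1 - m)),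
        (if ¬ Deg c b t (x + 1) q (n' * B + r) ∧ ∀ p ∈ ({x + 1, q} : Finset ℕ),
          (roughPart p (sh c p ((n' * B + r) / b ^ (t - p)))).Prime ∧
          ((sh c p ((n' * B + r) / b ^ (t - p)) /
            roughPart p (sh c p ((n' * B + r) / b ^ (t - p))) : ℕ) : ℝ) <
            Real.exp (x * Real.log b / 8) then (1 : ℝ) else 0) ≤
        D * ((C * 2 * (Real.log x / x)) ^ 2 * (b : ℝ) ^ (x + 1 - m)) := by
      intro r hr
      have hr' := mem_range.1 hr
      by_cases h2 : Deg c b t (x + 1) q r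
      · have h3 : ∀ n' : ℕ, Deg c b t (x + 1) q (n' * B + r) := fun n' =>
          (deg_iff (c := c) hb hpq hq n' r hr').2 h2
        have h4 : 0 ≤ D * ((C * 2 * (Real.log x / x)) ^ 2 * (b : ℝ) ^ (x + 1 - m)) := by
          positivity
        refine le_trans (le_of_eq (sum_eq_zero fun n' _ => ?_)) h4
        rw [if_neg fun h => h.1 (h3 n')]
      · rw [sum_blocks _ _ _ hAB.le]
        have h3 : ∀ j ∈ Ico A0 B0, ∑ n' ∈ Ico (j * b ^ (x + 1 - m)) ((j + 1) * b ^ (x + 1 - m)),
            (if ¬ Deg c b t (x + 1) q (n' * B + r) ∧ ∀ p ∈ ({x + 1, q} : Finset ℕ),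
              (roughPart p (sh c p ((n' * B + r) / b ^ (t - p)))).Prime ∧
              ((sh c p ((n' * B + r) / b ^ (t - p)) /
                roughPart p (sh c p ((n' * B + r) / b ^ (t - p))) : ℕ) : ℝ) <
                Real.exp (x * Real.log b / 8) then (1 : ℝ) else 0) ≤
            (C * 2 * (Real.log x / x)) ^ 2 * (b : ℝ) ^ (x + 1 - m) := by
          intro j hj
          rw [mem_Ico] at hj
          have hlog := hP3 x (by omega)
          have h4 := hP x (by omega) {x + 1, q} hF (by rw [hFc]; norm_num; linarith) (x + 1)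
            (mem_insert_self _ _) (by
              intro p hp
              rw [mem_insert, mem_singleton] at hp
              omega) m hAm t le_rfl r hr' (by
              intro p hp p' hp' hlt
              rw [mem_insert, mem_singleton] at hp hp'
              have h5 : p = x + 1 := by omega
              have h6 : p' = q := by omega
              rw [h5, h6]
              exact h2) j (by omega)
          rw [hFc] at h4
          refine le_trans ?_ h4
          rw [Finset.card_filter]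
          push_cast
          refine sum_le_sum fun n' _ => ?_
          by_cases h5 : ∀ p ∈ ({x + 1, q} : Finset ℕ),
              (roughPart p (sh c p ((n' * B + r) / b ^ (t - p)))).Prime ∧
              ((sh c p ((n' * B + r) / b ^ (t - p)) /
                roughPart p (sh c p ((n' * B + r) / b ^ (t - p))) : ℕ) : ℝ) <
                Real.exp (x * Real.log b / 8)
          · have h6 := h5
            rw [mul_comm n' B] at h6
            rw [if_pos h6]
            split_ifs <;> norm_num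
          · rw [if_neg fun h => h5 h.2]
            split_ifs <;> norm_num
        refine (sum_le_sum h3).trans ?_
        rw [sum_const, Nat.card_Ico, nsmul_eq_mul]
    refine (sum_le_sum h1).trans ?_
    rw [sum_const, card_range, nsmul_eq_mul]
  -- the sum
  have hx0 : (0 : ℝ) < x := by exact_mod_cast (by omega : 0 < x)
  have hw := wt_nonneg (x + 1)
  have hbm : (0 : ℝ) < (b : ℝ) ^ m := by positivity
  have hDM : D * (b : ℝ) ^ (t - m) = M * (b : ℝ) ^ t := by
    have h1 : (b : ℝ) ^ t = (b : ℝ) ^ m * (b : ℝ) ^ (t - m) := by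
      rw [← pow_add]; congr 1; omega
    rw [hMD, h1]
    field_simp
  have hbt2 : (b : ℝ) ^ (x + 1) * (b : ℝ) ^ (t - q) ≤ (1 / 2) ^ (q - (x + 1)) * (b : ℝ) ^ t := by
    have h1 : (b : ℝ) ^ t = (b : ℝ) ^ (x + 1) * (b : ℝ) ^ (t - q) * (b : ℝ) ^ (q - (x + 1)) := by
      rw [← pow_add, ← pow_add]; congr 1; omega
    have h2 : (1 : ℝ) ≤ (1 / 2) ^ (q - (x + 1)) * (b : ℝ) ^ (q - (x + 1)) := by
      rw [← mul_pow]
      apply one_le_pow₀
      have : (2 : ℝ) ≤ b := by exact_mod_cast hb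
      linarith
    rw [h1]
    calc (b : ℝ) ^ (x + 1) * (b : ℝ) ^ (t - q)
        = (b : ℝ) ^ (x + 1) * (b : ℝ) ^ (t - q) * 1 := (mul_one _).symm
      _ ≤ (b : ℝ) ^ (x + 1) * (b : ℝ) ^ (t - q) *
          ((1 / 2) ^ (q - (x + 1)) * (b : ℝ) ^ (q - (x + 1))) :=
        mul_le_mul_of_nonneg_left h2 (by positivity)
      _ = _ := by ring
  have hbt3 : (B : ℝ) * (b : ℝ) ^ (x + 1 - m) = (b : ℝ) ^ (t - m) := by
    rw [hB]
    push_cast
    rw [← pow_add]; congr 1; omega
  refine hc0.trans ?_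
  have k1 : (S1.card : ℝ) ≤ M * Real.exp (-(d * x)) * (b : ℝ) ^ t := by
    refine hc1.trans (le_of_eq ?_)
    calc D * (Real.exp (-(d * x)) * (b : ℝ) ^ (t - m))
        = Real.exp (-(d * x)) * (D * (b : ℝ) ^ (t - m)) := by ring
      _ = _ := by rw [hDM]; ring
  have k2 : (S2.card : ℝ) ≤ M * (C2 * (wt (x + 1) * (1 / 2) ^ (q - (x + 1)))) * (b : ℝ) ^ t := by
    refine hc2.trans ?_
    calc M * (C2 * wt (x + 1)) * (b : ℝ) ^ (x + 1) * (b : ℝ) ^ (t - q)
        = M * (C2 * wt (x + 1)) * ((b : ℝ) ^ (x + 1) * (b : ℝ) ^ (t - q)) := by ring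
      _ ≤ M * (C2 * wt (x + 1)) * ((1 / 2) ^ (q - (x + 1)) * (b : ℝ) ^ t) :=
        mul_le_mul_of_nonneg_left hbt2 (by positivity)
      _ = _ := by ring
  have k3 : (S3.card : ℝ) ≤ M * ((C * 2) ^ 2 * (Real.log x / x) ^ 2) * (b : ℝ) ^ t := by
    refine hc3.trans (le_of_eq ?_)
    calc (B : ℝ) * (D * ((C * 2 * (Real.log x / x)) ^ 2 * (b : ℝ) ^ (x + 1 - m)))
        = (C * 2) ^ 2 * (Real.log x / x) ^ 2 * (D * ((B : ℝ) * (b : ℝ) ^ (x + 1 - m))) := by ring
      _ = _ := by rw [hbt3, hDM]; ring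
  have n1 : 0 ≤ M * (Real.log x / x) ^ 2 * (b : ℝ) ^ t := by positivity
  have n2 : 0 ≤ M * Real.exp (-(d * x)) * (b : ℝ) ^ t := by positivity
  have n3 : 0 ≤ M * (wt (x + 1) * (1 / 2) ^ (q - (x + 1))) * (b : ℝ) ^ t := by positivity
  have m1 : 0 ≤ (1 + C2) * (M * (Real.log x / x) ^ 2 * (b : ℝ) ^ t) := by positivity
  have m2 : 0 ≤ ((C * 2) ^ 2 + C2) * (M * Real.exp (-(d * x)) * (b : ℝ) ^ t) := by positivity
  have m3 : 0 ≤ ((C * 2) ^ 2 + 1) * (M * (wt (x + 1) * (1 / 2) ^ (q - (x + 1))) * (b : ℝ) ^ t) := by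
    positivity
  nlinarith

end

end Pool.Agent.U776.PL
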