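import Mathlib
import Pool.Agent.N176.SH.All
import Pool.Agent.U776.PL.Inst3

set_option autoImplicit false

/-!
# The model: all axioms
-/

namespace Pool.Agent.U776.PL

open MeasureTheory Finset Filter Topology
open Pool.Agent.H305R2 (roughPart)
open Pool.Agent.N176.GP (NB NB_spec NB_div sum_cells grow)
open Pool.Agent.N176.SH (sh Ok Deg Big S_TU S_RB cnt)
open Pool.Agent.N176.OW (cell kap S_FM)

section

variable {b A : ℕ} {c : ℕ → ℤ} (H : Ok b A c)

include H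

/-- the pair bounds, uniformly in the interval -/
lemma pair_up (hTU : S_TU) (hRB : S_RB) : ∃ C ρ : ℝ, 0 ≤ C ∧ 0 ≤ ρ ∧ ρ < 1 ∧ ∃ P : ℕ,
    ∀ m A0 B0 : ℕ, 1 ≤ A0 → A0 < B0 → B0 ≤ b ^ (2 * m) →
    (∀ p ≥ P, A * (m + 1) ≤ p →
      (mu b m A0 B0).real (Ev c b p) ≤ (mu b m A0 B0).real Set.univ * (C * wt p)) ∧
    ∀ p ≥ P, A * (m + 1) ≤ p → ∀ q > p, (mu b m A0 B0).real (Ev c b p ∩ Ev c b q) ≤
      (mu b m A0 B0).real Set.univ * (C * (wt p * wt q + wt p * ρ ^ (q - p))) := by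
  obtain ⟨C1, hC1, P1, h1⟩ := one_up H
  obtain ⟨C2, hC2, P2, h2⟩ := far_up H
  obtain ⟨C3, d, hC3, hd, P3, h3⟩ := near_count H hTU hRB
  obtain ⟨P4, h4⟩ := eventually_atTop.1 (grow d 1 hd)
  refine ⟨C1 + C2 + 8 * C3, 1 / 2, by positivity, by norm_num, by norm_num, P1 + P2 + P3 + P4 + 5,
    fun m A0 B0 hA0 hAB hB0 => ⟨fun p hp hmp => ?_, fun p hp hmp q hpq => ?_⟩⟩
  · refine (h1 m A0 B0 hA0 hAB p (by omega) hmp).trans ?_
    refine mul_le_mul_of_nonneg_left ?_ measureReal_nonneg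
    have := wt_nonneg p
    nlinarith [mul_nonneg hC2.le this, mul_nonneg hC3.le this]
  · have hwp := wt_nonneg p
    have hwq := wt_nonneg q
    have hwpq := mul_nonneg hwp hwq
    have hg : 0 ≤ wt p * (1 / 2) ^ (q - p) := by positivity
    by_cases hq : 2 * p - 1 ≤ q
    · refine (h2 m A0 B0 hA0 hAB p (by omega) hmp q hq).trans ?_
      refine mul_le_mul_of_nonneg_left ?_ measureReal_nonneg
      nlinarith [mul_nonneg hC1.le hwpq, mul_nonneg hC3.le hwpq, mul_nonneg hC1.le hg,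
        mul_nonneg hC2.le hg, mul_nonneg hC3.le hg]
    · refine (h3 m A0 B0 hA0 hAB hB0 p (by omega) hmp q hpq (by omega)).trans ?_
      refine mul_le_mul_of_nonneg_left ?_ measureReal_nonneg
      set x := p - 1 with hx
      have hxp : p = x + 1 := by omega
      have hx4 : 4 ≤ x := by omega
      have hx0 : (0 : ℝ) < x := by exact_mod_cast (by omega : 0 < x)
      have hlx : 1 ≤ Real.log x := by
        rw [Real.le_log_iff_exp_le hx0]
        have h5 := Real.exp_one_lt_d9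
        have h6 : (4 : ℝ) ≤ x := by exact_mod_cast hx4
        linarith
      have k1 : ∀ r : ℕ, x ≤ r → r ≤ 2 * x → Real.log x / x ≤ 2 * wt r := by
        intro r h5 h6
        have hr0 : (0 : ℝ) < r := by exact_mod_cast (by omega : 0 < r)
        unfold wt
        rw [mul_div_assoc', div_le_div_iff₀ hx0 hr0]
        have h7 : (r : ℝ) ≤ 2 * x := by exact_mod_cast h6
        have h8 : Real.log x ≤ Real.log r := Real.log_le_log hx0 (by exact_mod_cast h5)
        calc Real.log x * r ≤ Real.log x * (2 * x) :=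
              mul_le_mul_of_nonneg_left h7 (by linarith)
          _ ≤ Real.log r * (2 * x) := mul_le_mul_of_nonneg_right h8 (by positivity)
          _ = 2 * Real.log r * x := by ring
      have k2 : (Real.log x / x) ^ 2 ≤ 4 * (wt p * wt q) := by
        have h5 := k1 p (by omega) (by omega)
        have h6 := k1 q (by omega) (by omega)
        have h7 : 0 ≤ Real.log x / x := by positivity
        calc (Real.log x / x) ^ 2 = (Real.log x / x) * (Real.log x / x) := by ring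
          _ ≤ (2 * wt p) * (2 * wt q) := mul_le_mul h5 h6 h7 (by positivity)
          _ = _ := by ring
      have k3 : Real.exp (-(d * x)) ≤ (Real.log x / x) ^ 2 := by
        have h5 := h4 x (by omega)
        rw [one_mul] at h5
        rw [Real.exp_neg, div_pow, inv_eq_one_div, div_le_div_iff₀ (Real.exp_pos _) (by positivity)]
        have h6 : 1 ≤ Real.log x ^ 2 := one_le_pow₀ hlx
        calc 1 * (x : ℝ) ^ 2 ≤ 1 * Real.exp (d * x) := by rw [one_mul, one_mul]; exact h5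
          _ ≤ Real.log x ^ 2 * Real.exp (d * x) :=
            mul_le_mul_of_nonneg_right h6 (Real.exp_pos _).le
      nlinarith [mul_nonneg hC1.le hwpq, mul_nonneg hC2.le hwpq, mul_nonneg hC1.le hg,
        mul_nonneg hC2.le hg, mul_nonneg hC3.le hg, mul_nonneg hC3.le hwpq]

omit H in
/-- the level of the cells for the exponent `q` -/
noncomputable def zl (c0 : ℝ) (q : ℕ) : ℕ := ⌊c0 * q⌋₊

omit H in
/-- the mean deviation of the conditional probability of the event `q` -/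
noncomputable def rr (c : ℕ → ℤ) (b : ℕ) (c0 : ℝ) (q m A0 B0 : ℕ) : ℝ :=
  (∑ i ∈ Ico (A0 * b ^ (zl c0 q - m)) (B0 * b ^ (zl c0 q - m)),
    |(cnt c b (zl c0 q) i q : ℝ) / (b : ℝ) ^ (q - zl c0 q) - kap b * wt q|) / (b : ℝ) ^ zl c0 q

omit H in
lemma rr_nonneg (c : ℕ → ℤ) (b : ℕ) (c0 : ℝ) (q m A0 B0 : ℕ) : 0 ≤ rr c b c0 q m A0 B0 :=
  div_nonneg (sum_nonneg fun _ _ => abs_nonneg _) (by positivity)

omit H in
/-- the deviation is additive over the cells -/
lemma rr_sum {b : ℕ} {c0 : ℝ} {q m z A0 B0 : ℕ} (hAB : A0 ≤ B0) (hm : m ≤ z) (hz : z ≤ zl c0 q) :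
    ∑ j ∈ Ico (A0 * b ^ (z - m)) (B0 * b ^ (z - m)), rr c b c0 q z j (j + 1) =
      rr c b c0 q m A0 B0 := by
  unfold rr
  rw [← sum_div]
  congr 1
  have e1 : b ^ (zl c0 q - m) = b ^ (z - m) * b ^ (zl c0 q - z) := by
    rw [← pow_add]; congr 1; omega
  rw [e1, ← mul_assoc, ← mul_assoc, sum_blocks _ _ _ (Nat.mul_le_mul_right _ hAB)]

/-- asymptotic independence of the event `q` and the first digits -/
lemma mix_rr {m A0 B0 : ℕ} (hAB : A0 < B0) {c0 : ℝ} {q : ℕ} (hmz : m ≤ zl c0 q)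
    (hzq : zl c0 q ≤ q) {S : Finset ℕ} (hSz : ∀ p ∈ S, p ≤ zl c0 q) {θ : ℕ → ℝ}
    (hθ : ∀ p, 0 ≤ θ p ∧ θ p ≤ 1) :
    |∫ x in Ev c b q, G (Ev c b) S θ x ∂(mu b m A0 B0) -
      kap b * wt q * ∫ x, G (Ev c b) S θ x ∂(mu b m A0 B0)| ≤ rr c b c0 q m A0 B0 := by
  classical
  have hb := H.hb
  have hb0 : (0 : ℝ) < b := by positivity
  unfold rr
  set z := zl c0 q with hz
  -- the function of the first digits
  set g : ℕ → ℝ := fun j => ∏ p ∈ S, if (roughPart p (sh c p (j / b ^ (z - p)))).Prime then θ p else 1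
    with hg
  have hg01 : ∀ j, 0 ≤ g j ∧ g j ≤ 1 := by
    intro j
    have h1 : ∀ p ∈ S, 0 ≤ (if (roughPart p (sh c p (j / b ^ (z - p)))).Prime then θ p else 1) ∧
        (if (roughPart p (sh c p (j / b ^ (z - p)))).Prime then θ p else 1) ≤ 1 := by
      intro p _
      split_ifs
      · exact hθ p
      · exact ⟨zero_le_one, le_rfl⟩
    exact ⟨prod_nonneg fun p hp => (h1 p hp).1, prod_le_one (fun p hp => (h1 p hp).1)
      fun p hp => (h1 p hp).2⟩
  have hGg : ∀ β : ℝ, 0 < β → G (Ev c b) S θ β = g (NB b β z) := by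
    intro β hβ
    unfold G
    rw [hg]
    refine prod_congr rfl fun p hp => ?_
    by_cases h1 : β ∈ Ev c b p
    · rw [if_pos h1, if_pos ((Ev_iff hb (hSz p hp) hβ).1 h1)]
    · rw [if_neg h1, if_neg fun h2 => h1 ((Ev_iff hb (hSz p hp) hβ).2 h2)]
  have i1 : ∫ x, G (Ev c b) S θ x ∂(mu b m A0 B0) =
      (∑ j ∈ Ico (A0 * b ^ (z - m)) (B0 * b ^ (z - m)), g j) / (b : ℝ) ^ z :=
    int_mu' hb hmz hAB.le g _ fun β hβ => hGg β hβ
  have i2 : ∫ x in Ev c b q, G (Ev c b) S θ x ∂(mu b m A0 B0) =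
      (∑ j ∈ Ico (A0 * b ^ (z - m)) (B0 * b ^ (z - m)), g j * (cnt c b z j q : ℝ)) /
        (b : ℝ) ^ q := by
    rw [← integral_indicator (Ev_measurable c b q),
      int_mu' hb (by omega : m ≤ q) hAB.le
        (fun n => if (roughPart q (sh c q n)).Prime then g (n / b ^ (q - z)) else 0)]
    · congr 1
      have e1 : b ^ (q - m) = b ^ (z - m) * b ^ (q - z) := by
        rw [← pow_add]; congr 1; omega
      rw [e1, ← mul_assoc, ← mul_assoc, sum_blocks _ _ _ (Nat.mul_le_mul_right _ hAB.le)]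
      refine sum_congr rfl fun j hj => ?_
      unfold cnt
      rw [Finset.card_filter]
      push_cast
      rw [mul_sum]
      refine sum_congr rfl fun n hn => ?_
      rw [mem_Ico] at hn
      have h1 : n / b ^ (q - z) = j := by
        rw [Nat.div_eq_iff (by positivity)]
        constructor
        · linarith [hn.1, mul_comm j (b ^ (q - z))]
        · have h3 := hn.2
          have h4 : (j + 1) * b ^ (q - z) = j * b ^ (q - z) + b ^ (q - z) := by ring
          have h5 : 0 < b ^ (q - z) := by positivity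
          omega
      rw [h1]
      split_ifs <;> simp
    · intro β hβ
      by_cases h1 : β ∈ Ev c b q
      · rw [Set.indicator_of_mem h1, if_pos (show (roughPart q (sh c q (NB b β q))).Prime from h1),
          hGg β hβ, NB_div hb hβ hzq]
      · rw [Set.indicator_of_notMem h1, if_neg (show ¬ (roughPart q (sh c q (NB b β q))).Prime from h1)]
  have hbq : (b : ℝ) ^ q = (b : ℝ) ^ (q - z) * (b : ℝ) ^ z := by
    rw [← pow_add]; congr 1; omega
  have i3 : ∫ x in Ev c b q, G (Ev c b) S θ x ∂(mu b m A0 B0) -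
      kap b * wt q * ∫ x, G (Ev c b) S θ x ∂(mu b m A0 B0) =
      (∑ j ∈ Ico (A0 * b ^ (z - m)) (B0 * b ^ (z - m)),
        g j * ((cnt c b z j q : ℝ) / (b : ℝ) ^ (q - z) - kap b * wt q)) / (b : ℝ) ^ z := by
    rw [i1, i2, hbq]
    have h1 : (∑ j ∈ Ico (A0 * b ^ (z - m)) (B0 * b ^ (z - m)),
        g j * ((cnt c b z j q : ℝ) / (b : ℝ) ^ (q - z) - kap b * wt q)) =
        (∑ j ∈ Ico (A0 * b ^ (z - m)) (B0 * b ^ (z - m)), g j * (cnt c b z j q : ℝ)) /
          (b : ℝ) ^ (q - z) -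
        kap b * wt q * ∑ j ∈ Ico (A0 * b ^ (z - m)) (B0 * b ^ (z - m)), g j := by
      rw [sum_div, mul_sum, ← sum_sub_distrib]
      refine sum_congr rfl fun j _ => ?_
      ring
    rw [h1, sub_div, div_div, mul_div_assoc]
  rw [i3, abs_div, abs_of_pos (show (0 : ℝ) < (b : ℝ) ^ z by positivity)]
  refine div_le_div_of_nonneg_right ?_ (by positivity)
  refine (abs_sum_le_sum_abs _ _).trans (sum_le_sum fun j _ => ?_)
  rw [abs_mul, abs_of_nonneg (hg01 j).1]
  calc g j * |(cnt c b z j q : ℝ) / (b : ℝ) ^ (q - z) - kap b * wt q|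
      ≤ 1 * |(cnt c b z j q : ℝ) / (b : ℝ) ^ (q - z) - kap b * wt q| :=
        mul_le_mul_of_nonneg_right (hg01 j).2 (abs_nonneg _)
    _ = _ := one_mul _

omit H in
/-- the level of the cells is admissible -/
lemma zl_ok {c0 : ℝ} (h0 : 0 < c0) (hA' : c0 ≤ 1 / A) (hA : 64 ≤ A) (q : ℕ) :
    A * zl c0 q ≤ q ∧ zl c0 q ≤ q := by
  have hA0 : (0 : ℝ) < A := by exact_mod_cast (by omega : 0 < A)
  have hz1 : (zl c0 q : ℝ) ≤ c0 * q := Nat.floor_le (by positivity)
  have h1 : (zl c0 q : ℝ) ≤ 1 / A * q :=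
    hz1.trans (mul_le_mul_of_nonneg_right hA' (Nat.cast_nonneg q))
  have h2 : (A : ℝ) * zl c0 q ≤ q := by
    calc (A : ℝ) * zl c0 q ≤ A * (1 / A * q) := mul_le_mul_of_nonneg_left h1 hA0.le
      _ = q := by field_simp
  have h3 : A * zl c0 q ≤ q := by exact_mod_cast h2
  exact ⟨h3, by nlinarith⟩

/-- the deviation is small -/
lemma rr_small (hFM : S_FM) : ∃ c0 : ℝ, 0 < c0 ∧ c0 ≤ 1 / A ∧ ∀ m A0 B0 : ℕ, 1 ≤ A0 → A0 < B0 →
    B0 ≤ b ^ (2 * m) → ∃ K : ℝ, 0 < K ∧ ∃ Q : ℕ, ∀ q ≥ Q,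
    m ≤ zl c0 q ∧ rr c b c0 q m A0 B0 ≤ K / q := by
  classical
  have hb := H.hb
  have hA := H.hA
  have hb0 : (0 : ℝ) < b := by positivity
  obtain ⟨κ0, K, hκ0, hK, hfm⟩ := hFM b hb
  have hA' : (0 : ℝ) < A := by exact_mod_cast (by omega : 0 < A)
  set c0 : ℝ := min κ0 (1 / A) with hc0
  have hc0pos : 0 < c0 := lt_min hκ0 (by positivity)
  refine ⟨c0, hc0pos, min_le_right _ _, fun m A0 B0 hA0 hAB hB0 => ?_⟩
  obtain ⟨P, hP⟩ := hfm m
  have hD : (1 : ℝ) ≤ ((B0 - A0 : ℕ) : ℝ) := by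
    have : 1 ≤ B0 - A0 := by omega
    exact_mod_cast this
  set D : ℝ := ((B0 - A0 : ℕ) : ℝ) with hDdef
  refine ⟨1 + D * (K + 1), by positivity, ?_⟩
  have ev3 : ∀ᶠ q : ℕ in atTop, (m : ℝ) + 1 ≤ c0 * q :=
    (tendsto_natCast_atTop_atTop.const_mul_atTop hc0pos).eventually_ge_atTop _
  have ev4 := grow (c0 * Real.log 2) 2 (by have := Real.log_pos (by norm_num : (1 : ℝ) < 2); positivity)
  have ev5 : ∀ᶠ q : ℕ in atTop, (Real.log q) ^ 2 ≤ q := by
    have h1 := (Real.isLittleO_pow_log_id_atTop (n := 2)).tendsto_div_nhds_zero.comp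
      (tendsto_natCast_atTop_atTop (R := ℝ))
    filter_upwards [h1.eventually (ge_mem_nhds (show (0 : ℝ) < 1 by norm_num)),
      eventually_ge_atTop 1] with q hq hq1
    have hq0 : (0 : ℝ) < q := by exact_mod_cast (by omega : 0 < q)
    simp only [Function.comp, id] at hq
    rw [div_le_one hq0] at hq
    exact hq
  obtain ⟨Q, hQ⟩ := eventually_atTop.1 (ev3.and (ev4.and ev5))
  refine ⟨Q + P + A + 2, fun q hq => ?_⟩
  obtain ⟨f3, f4, f5⟩ := hQ q (by omega)
  have hq0 : (0 : ℝ) < q := by exact_mod_cast (by omega : 0 < q)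
  have hq1 : (1 : ℝ) ≤ q := by exact_mod_cast (by omega : 1 ≤ q)
  obtain ⟨hAz, hzq⟩ := zl_ok hc0pos (min_le_right _ _) hA q
  set z := zl c0 q with hz
  have hz1 : (z : ℝ) ≤ c0 * q := Nat.floor_le (by positivity)
  have hz2 : c0 * q < z + 1 := Nat.lt_floor_add_one _
  have hmz : m ≤ z := by
    have h1 : (m : ℝ) < z + 1 := by linarith
    have h2 : m < z + 1 := by exact_mod_cast h1
    omega
  have hzκ : (z : ℝ) ≤ κ0 * q := hz1.trans (mul_le_mul_of_nonneg_right (min_le_left _ _) hq0.le)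
  refine ⟨hmz, ?_⟩
  have hbz : (q : ℝ) ≤ (b : ℝ) ^ z := by
    have h1 : (2 : ℝ) ^ z ≤ (b : ℝ) ^ z :=
      pow_le_pow_left₀ (by norm_num) (by exact_mod_cast hb) z
    refine le_trans ?_ h1
    have h2 : Real.exp (c0 * Real.log 2 * q) ≤ 2 * (2 : ℝ) ^ z := by
      have h3 : 2 * (2 : ℝ) ^ z = Real.exp (((z + 1 : ℕ) : ℝ) * Real.log 2) := by
        rw [Real.exp_nat_mul, Real.exp_log (by norm_num), pow_succ]
        ring
      rw [h3, Real.exp_le_exp]
      push_cast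
      have := Real.log_pos (by norm_num : (1 : ℝ) < 2)
      nlinarith
    nlinarith
  unfold rr
  rw [← hz, div_le_iff₀ (by positivity)]
  set Y : ℕ → ℝ := fun j => max 0 (|(Pool.Agent.N176.GP.cnt b z j q : ℝ) / (b : ℝ) ^ (q - z) -
    Real.exp Real.eulerMascheroniConstant / Real.log b * (Real.log q / q)| - K / q) with hY
  have hY0 : ∀ j, 0 ≤ Y j := fun j => le_max_left _ _
  have h1 : ∀ j ∈ Ico (A0 * b ^ (z - m)) (B0 * b ^ (z - m)),
      |(cnt c b z j q : ℝ) / (b : ℝ) ^ (q - z) - kap b * wt q| ≤ Y j + (K + 1) / q := by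
    intro j hj
    rw [mem_Ico] at hj
    have hj1 : 1 ≤ j := by
      have : 1 ≤ A0 * b ^ (z - m) := Nat.mul_pos hA0 (by positivity)
      omega
    have h3 := Pool.Agent.N607.SH.cnt_shift H hj1 hAz (by omega)
    have h4 := le_max_right (0 : ℝ) (|(Pool.Agent.N176.GP.cnt b z j q : ℝ) / (b : ℝ) ^ (q - z) -
      Real.exp Real.eulerMascheroniConstant / Real.log b * (Real.log q / q)| - K / q)
    have h5 : |(Pool.Agent.N176.GP.cnt b z j q : ℝ) / (b : ℝ) ^ (q - z) -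
      Real.exp Real.eulerMascheroniConstant / Real.log b * (Real.log q / q)| - K / q ≤ Y j := h4
    have h6 : kap b * wt q =
      Real.exp Real.eulerMascheroniConstant / Real.log b * (Real.log q / q) := rfl
    have h7 : 1 / (b : ℝ) ^ z ≤ 1 / q := one_div_le_one_div_of_le hq0 hbz
    have h8 : (K + 1) / (q : ℝ) = K / q + 1 / q := add_div _ _ _
    rw [h6, h8]
    have h9 := abs_sub_le ((cnt c b z j q : ℝ) / (b : ℝ) ^ (q - z))
      ((Pool.Agent.N176.GP.cnt b z j q : ℝ) / (b : ℝ) ^ (q - z))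
      (Real.exp Real.eulerMascheroniConstant / Real.log b * (Real.log q / q))
    linarith
  refine (sum_le_sum h1).trans ?_
  rw [sum_add_distrib, sum_const, Nat.card_Ico, nsmul_eq_mul]
  have h2 : ∑ j ∈ Ico (A0 * b ^ (z - m)) (B0 * b ^ (z - m)), Y j ≤
      (b : ℝ) ^ z * ((Real.log q) ^ 2 / q ^ 2) := by
    refine le_trans ?_ (hP q (by omega) z hmz hzκ)
    refine sum_le_sum_of_subset_of_nonneg ?_ fun j _ _ => hY0 j
    intro j hj
    rw [mem_Ico] at hj ⊢
    constructor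
    · exact (Nat.le_mul_of_pos_left _ hA0).trans hj.1
    · refine lt_of_lt_of_le hj.2 ((Nat.mul_le_mul_right _ hB0).trans ?_)
      rw [← pow_add]
      exact Nat.pow_le_pow_right (by omega) (by omega)
  have h3 : ((B0 * b ^ (z - m) - A0 * b ^ (z - m) : ℕ) : ℝ) ≤ D * (b : ℝ) ^ z := by
    rw [← Nat.sub_mul]
    push_cast
    refine mul_le_mul_of_nonneg_left ?_ (by positivity)
    exact pow_le_pow_right₀ (by exact_mod_cast (by omega : 1 ≤ b)) (by omega)
  have h4 : ((B0 * b ^ (z - m) - A0 * b ^ (z - m) : ℕ) : ℝ) * ((K + 1) / q) ≤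
      D * (b : ℝ) ^ z * ((K + 1) / q) := mul_le_mul_of_nonneg_right h3 (by positivity)
  have h5 : (Real.log q) ^ 2 / (q : ℝ) ^ 2 ≤ 1 / q := by
    rw [div_le_div_iff₀ (by positivity) hq0]
    nlinarith
  calc _ ≤ (b : ℝ) ^ z * ((Real.log q) ^ 2 / q ^ 2) + D * (b : ℝ) ^ z * ((K + 1) / q) :=
        add_le_add h2 h4
    _ ≤ (b : ℝ) ^ z * (1 / q) + D * (b : ℝ) ^ z * ((K + 1) / q) := by gcongr
    _ = (1 + D * (K + 1)) / q * (b : ℝ) ^ z := by ring

/-- the axioms hold -/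
theorem model {m A0 B0 : ℕ} (hA0 : 1 ≤ A0) (hAB : A0 < B0) (hB0 : B0 ≤ b ^ (2 * m)) :
    Model (mu b m A0 B0) (Ev c b) (kap b) where
  meas := Ev_measurable c b
  pair := by
    obtain ⟨C, ρ, hC, hρ0, hρ1, P, h⟩ := pair_up H Pool.Agent.N176.SH.All.tu
      Pool.Agent.N897.SH.rb
    obtain ⟨h1, h2⟩ := h m A0 B0 hA0 hAB hB0
    exact ⟨C, ρ, hC, hρ0, hρ1, P + A * (m + 1), fun p hp => h1 p (by omega) (by omega),
      fun p hp q hq => h2 p (by omega) (by omega) q hq⟩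
  mix := by
    obtain ⟨c0, hc0, hc0A, h⟩ := rr_small H Pool.Agent.N176.OW.All.fm
    obtain ⟨K, hK, Q, hQ⟩ := h m A0 B0 hA0 hAB hB0
    refine ⟨c0, hc0, fun η hη => ?_⟩
    have hl1 : Tendsto (fun n : ℕ => Real.log (n : ℝ)) atTop atTop :=
      Real.tendsto_log_atTop.comp tendsto_natCast_atTop_atTop
    obtain ⟨Q1, hQ1⟩ := eventually_atTop.1 (hl1.eventually_ge_atTop (K / η))
    refine ⟨Q + Q1 + 1, fun q hq S hS θ hθ => ?_⟩
    obtain ⟨h1, h2⟩ := hQ q (by omega)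
    refine (mix_rr H hAB h1 (zl_ok hc0 hc0A H.hA q).2 (fun p hp => Nat.le_floor (hS p hp)) hθ).trans
      (h2.trans ?_)
    have hq0 : (0 : ℝ) < q := by exact_mod_cast (by omega : 0 < q)
    have h3 := hQ1 q (by omega)
    rw [div_le_iff₀ hη] at h3
    unfold wt
    rw [mul_div_assoc', div_le_div_iff_of_pos_right hq0]
    linarith

end

end Pool.Agent.U776.PL
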