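import Mathlib
import Pool.Agent.U776.PL.Inst4

set_option autoImplicit false

/-!
# Joint Poisson law for the exponents in thin families, shifted digits
-/

namespace Pool.Agent.U776.PL

open MeasureTheory Finset Filter Topology
open Pool.Agent.H305R2 (roughPart)
open Pool.Agent.N176.GP (NB)
open Pool.Agent.N176.SH (sh Ok)
open Pool.Agent.N176.OW (kap)

lemma kap_pos {b : ℕ} (hb : 2 ≤ b) : 0 < kap b := by
  unfold kap
  have : 0 < Real.log b := Real.log_pos (by exact_mod_cast hb)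
  positivity

variable {ι : Type*} [Fintype ι]

/-- the event that the numbers of exponents in the sets `T i` are `k i` -/
def EV (E : ℕ → Set ℝ) (T : ι → Finset ℕ) (k : ι → ℕ) : Set ℝ := {x | ∀ i, NE E (T i) x = k i}

lemma EV_measurable {E : ℕ → Set ℝ} (hE : ∀ p, MeasurableSet (E p)) (T : ι → Finset ℕ) (k : ι → ℕ) :
    MeasurableSet (EV E T k) := by
  unfold EV
  rw [Set.ofPred_forall]
  exact MeasurableSet.iInter fun i =>
    measurableSet_eq_fun (NE_measurable hE (T i)) measurable_const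

/-- intervals -/
theorem law_Ioc {b A : ℕ} {c : ℕ → ℤ} (H : Ok b A c) {T : ℕ → ι → Finset ℕ} (hT : Thin T)
    {lam : ι → ℝ} (hlam : ∀ i, Tendsto (fun n => kap b * ∑ p ∈ T n i, wt p) atTop (𝓝 (lam i)))
    (k : ι → ℕ) {u v : ℝ} (hu : 0 ≤ u) (huv : u < v) :
    Tendsto (fun n => volume.real (Set.Ioc u v ∩ EV (Ev c b) (T n) k)) atTop
      (𝓝 ((v - u) * ∏ i, pois (lam i) (k i))) := by
  have hb := H.hb
  have hb0 : (0 : ℝ) < b := by positivity
  have hb1 : (1 : ℝ) < b := by exact_mod_cast (by omega : 1 < b)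
  set π : ℝ := ∏ i, pois (lam i) (k i) with hπ
  have hlam0 : ∀ i, 0 ≤ lam i := fun i =>
    ge_of_tendsto' (hlam i) fun n => mul_nonneg (kap_pos hb).le (sum_nonneg fun p _ => wt_nonneg p)
  rw [Metric.tendsto_atTop]
  intro ε hε
  -- choice of the level
  have hpi0 : 0 ≤ π := prod_nonneg fun i _ => pois_nonneg (hlam0 i) (k i)
  have hlim := tendsto_pow_atTop_atTop_of_one_lt hb1
  have ev1 := hlim.eventually_ge_atTop (8 * (1 + π) / ε)
  have ev2 := hlim.eventually_ge_atTop (2 / (v - u))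
  have ev3 := hlim.eventually_ge_atTop (v + 1)
  obtain ⟨m, hm1, hm2, hm3⟩ := (ev1.and (ev2.and ev3)).exists
  have hvu : 0 < v - u := by linarith
  have hbm : (0 : ℝ) < (b : ℝ) ^ m := by positivity
  have hbm1 : (1 : ℝ) ≤ (b : ℝ) ^ m := one_le_pow₀ hb1.le
  rw [div_le_iff₀ hvu] at hm2
  set A0 := ⌊u * (b : ℝ) ^ m⌋₊ + 1 with hA0
  set B0 := ⌈v * (b : ℝ) ^ m⌉₊ with hB0
  have ha1 : (⌊u * (b : ℝ) ^ m⌋₊ : ℝ) ≤ u * (b : ℝ) ^ m := Nat.floor_le (by positivity)
  have ha2 : u * (b : ℝ) ^ m < ⌊u * (b : ℝ) ^ m⌋₊ + 1 := Nat.lt_floor_add_one _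
  have hv0 : 0 < v := by linarith
  have hb2 : v * (b : ℝ) ^ m ≤ B0 := Nat.le_ceil _
  have hb3 : (B0 : ℝ) < v * (b : ℝ) ^ m + 1 := Nat.ceil_lt_add_one (by positivity)
  have hA0' : (A0 : ℝ) = ⌊u * (b : ℝ) ^ m⌋₊ + 1 := by rw [hA0]; push_cast; ring
  have hAB : A0 < B0 := by
    have h1 : (A0 : ℝ) < B0 := by
      rw [hA0']
      nlinarith
    exact_mod_cast h1
  have hB02 : B0 ≤ b ^ (2 * m) := by
    have h1 : (B0 : ℝ) ≤ (b : ℝ) ^ (2 * m) := by
      have h2 : (b : ℝ) ^ (2 * m) = (b : ℝ) ^ m * (b : ℝ) ^ m := by rw [← pow_add]; congr 1; omega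
      rw [h2]
      nlinarith
    exact_mod_cast h1
  have hM := model H (m := m) (by omega : 1 ≤ A0) hAB hB02
  classical
  have hj := joint (kap_pos hb) hM hT hlam k
  set u' : ℝ := (A0 : ℝ) / (b : ℝ) ^ m with hu'
  set v' : ℝ := (B0 : ℝ) / (b : ℝ) ^ m with hv'
  have hu1 : u ≤ u' := by
    rw [hu', le_div_iff₀ hbm, hA0']
    exact ha2.le
  have hu2 : u' ≤ u + 1 / (b : ℝ) ^ m := by
    rw [hu', div_le_iff₀ hbm, add_mul, div_mul_cancel₀ _ hbm.ne', hA0']
    linarith
  have hv1 : v ≤ v' := by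
    rw [hv', le_div_iff₀ hbm]
    exact hb2
  have hv2 : v' ≤ v + 1 / (b : ℝ) ^ m := by
    rw [hv', div_le_iff₀ hbm, add_mul, div_mul_cancel₀ _ hbm.ne']
    exact hb3.le
  have huv' : u' ≤ v' := by
    rw [hu', hv']
    gcongr
  have h1m : 1 / (b : ℝ) ^ m ≤ ε / (8 * (1 + π)) := by
    rw [div_le_div_iff₀ hbm (by positivity), one_mul]
    rw [div_le_iff₀ hε] at hm1
    linarith
  have huniv : (mu b m A0 B0).real Set.univ = v' - u' := by
    unfold mu
    rw [Measure.real, Measure.restrict_apply_univ, Real.volume_Ioc,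
      ENNReal.toReal_ofReal (by linarith)]
  have hreal : ∀ n, (mu b m A0 B0).real {x | ∀ i, NE (Ev c b) (T n i) x = k i} =
      volume.real (Set.Ioc u' v' ∩ EV (Ev c b) (T n) k) := by
    intro n
    unfold mu
    rw [Measure.real, Measure.real, Measure.restrict_apply' measurableSet_Ioc, Set.inter_comm]
    rfl
  rw [huniv] at hj
  simp only [hreal] at hj
  rw [Metric.tendsto_atTop] at hj
  obtain ⟨N, hN⟩ := hj (ε / 4) (by positivity)
  refine ⟨N, fun n hn => ?_⟩
  have h1 := hN n hn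
  rw [Real.dist_eq] at h1 ⊢
  set S := EV (Ev c b) (T n) k with hS
  have fin : ∀ (x y : ℝ) (B : Set ℝ), volume (Set.Ioc x y ∩ B) ≠ ⊤ := fun x y B =>
    ne_top_of_le_ne_top (by rw [Real.volume_Ioc]; exact ENNReal.ofReal_ne_top)
      (measure_mono Set.inter_subset_left)
  have fin' : ∀ x y : ℝ, volume (Set.Ioc x y) ≠ ⊤ := fun x y => by
    rw [Real.volume_Ioc]; exact ENNReal.ofReal_ne_top
  have k1 : volume.real (Set.Ioc u v ∩ S) ≤ volume.real (Set.Ioc u' v' ∩ S) + (u' - u) := by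
    have h2 : Set.Ioc u v ∩ S ⊆ (Set.Ioc u' v' ∩ S) ∪ Set.Ioc u u' := by
      rintro x ⟨⟨h3, h4⟩, h5⟩
      by_cases h6 : x ≤ u'
      · exact Or.inr ⟨h3, h6⟩
      · exact Or.inl ⟨⟨not_le.1 h6, h4.trans hv1⟩, h5⟩
    have h3 := measureReal_mono h2 (by
      exact ne_top_of_le_ne_top (ENNReal.add_ne_top.2 ⟨fin _ _ _, fin' _ _⟩) (measure_union_le _ _))
    refine h3.trans ((measureReal_union_le _ _).trans ?_)
    rw [Real.volume_real_Ioc_of_le hu1]
  have k2 : volume.real (Set.Ioc u' v' ∩ S) ≤ volume.real (Set.Ioc u v ∩ S) + (v' - v) := by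
    have h2 : Set.Ioc u' v' ∩ S ⊆ (Set.Ioc u v ∩ S) ∪ Set.Ioc v v' := by
      rintro x ⟨⟨h3, h4⟩, h5⟩
      by_cases h6 : x ≤ v
      · exact Or.inl ⟨⟨hu1.trans_lt h3, h6⟩, h5⟩
      · exact Or.inr ⟨not_le.1 h6, h4⟩
    have h3 := measureReal_mono h2 (by
      exact ne_top_of_le_ne_top (ENNReal.add_ne_top.2 ⟨fin _ _ _, fin' _ _⟩) (measure_union_le _ _))
    refine h3.trans ((measureReal_union_le _ _).trans ?_)
    rw [Real.volume_real_Ioc_of_le hv1]
  have k3 : |(v' - u') * π - (v - u) * π| ≤ ε / 4 := by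
    rw [← sub_mul, abs_mul, abs_of_nonneg hpi0]
    have h2 : |v' - u' - (v - u)| ≤ 1 / (b : ℝ) ^ m := by
      rw [abs_le]
      constructor <;> linarith
    calc |v' - u' - (v - u)| * π ≤ (ε / (8 * (1 + π))) * (1 + π) :=
          mul_le_mul (h2.trans h1m) (by linarith) hpi0 (by positivity)
      _ = ε / 8 := by field_simp
      _ ≤ ε / 4 := by linarith
  have h2m : ε / (8 * (1 + π)) ≤ ε / 8 := by
    apply div_le_div_of_nonneg_left hε.le (by norm_num)
    linarith
  rw [abs_lt] at h1 ⊢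
  rw [abs_le] at k3
  constructor <;> linarith

/-- bounded measurable sets -/
theorem law_set {b A : ℕ} {c : ℕ → ℤ} (H : Ok b A c) {T : ℕ → ι → Finset ℕ} (hT : Thin T)
    {lam : ι → ℝ} (hlam : ∀ i, Tendsto (fun n => kap b * ∑ p ∈ T n i, wt p) atTop (𝓝 (lam i)))
    (k : ι → ℕ) {B : Set ℝ} (hB : MeasurableSet B) (M : ℝ) (hM : 0 < M) :
    Tendsto (fun n => volume.real ((B ∩ Set.Ioc 0 M) ∩ EV (Ev c b) (T n) k)) atTop
      (𝓝 (volume.real (B ∩ Set.Ioc 0 M) * ∏ i, pois (lam i) (k i))) := by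
  set π : ℝ := ∏ i, pois (lam i) (k i) with hπ
  have hmeas : ∀ n, MeasurableSet (EV (Ev c b) (T n) k) := fun n =>
    EV_measurable (Ev_measurable c b) (T n) k
  have fin0 : volume (Set.Ioc 0 M) ≠ ⊤ := by rw [Real.volume_Ioc]; exact ENNReal.ofReal_ne_top
  have fin : ∀ B : Set ℝ, volume (B ∩ Set.Ioc 0 M) ≠ ⊤ := fun B =>
    ne_top_of_le_ne_top fin0 (measure_mono Set.inter_subset_right)
  have fin2 : ∀ (B : Set ℝ) n, volume ((B ∩ Set.Ioc 0 M) ∩ EV (Ev c b) (T n) k) ≠ ⊤ := fun B n =>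
    ne_top_of_le_ne_top (fin B) (measure_mono Set.inter_subset_left)
  have htot : Tendsto (fun n => volume.real (Set.Ioc 0 M ∩ EV (Ev c b) (T n) k)) atTop
      (𝓝 (volume.real (Set.Ioc 0 M) * π)) := by
    have h := law_Ioc H hT hlam k le_rfl hM
    rwa [← Real.volume_real_Ioc_of_le hM.le] at h
  induction B, hB using MeasurableSpace.induction_on_inter (borel_eq_generateFrom_Ioc ℝ)
    (isPiSystem_Ioc (id : ℝ → ℝ) id) with
  | empty => simp
  | basic t ht =>
    obtain ⟨x, y, hxy, rfl⟩ := ht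
    rw [Set.Ioc_inter_Ioc]
    rcases le_or_gt (min y M) (max x 0) with h | h
    · have e : Set.Ioc (max x 0) (min y M) = ∅ := Set.Ioc_eq_empty (not_lt.2 h)
      have e' : Set.Ioc (x ⊔ 0) (y ⊓ M) = ∅ := e
      rw [e']
      simp
    · have h1 := law_Ioc H hT hlam k (le_max_right x 0) h
      rw [← Real.volume_real_Ioc_of_le h.le] at h1
      exact h1
  | compl t ht ih =>
    have e1 : ∀ n, volume.real ((tᶜ ∩ Set.Ioc 0 M) ∩ EV (Ev c b) (T n) k) =
        volume.real (Set.Ioc 0 M ∩ EV (Ev c b) (T n) k) -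
          volume.real ((t ∩ Set.Ioc 0 M) ∩ EV (Ev c b) (T n) k) := by
      intro n
      have h1 : (tᶜ ∩ Set.Ioc 0 M) ∩ EV (Ev c b) (T n) k =
          (Set.Ioc 0 M ∩ EV (Ev c b) (T n) k) \ ((t ∩ Set.Ioc 0 M) ∩ EV (Ev c b) (T n) k) := by
        ext x
        simp only [Set.mem_inter_iff, Set.mem_compl_iff, Set.mem_sdiff]
        tauto
      have hs : (t ∩ Set.Ioc 0 M) ∩ EV (Ev c b) (T n) k ⊆ Set.Ioc 0 M ∩ EV (Ev c b) (T n) k :=
        fun x hx => ⟨hx.1.2, hx.2⟩
      rw [h1, measureReal_sdiff hs ((ht.inter measurableSet_Ioc).inter (hmeas n))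
        (ne_top_of_le_ne_top fin0 (measure_mono Set.inter_subset_left))]
    have e2 : volume.real (tᶜ ∩ Set.Ioc 0 M) =
        volume.real (Set.Ioc 0 M) - volume.real (t ∩ Set.Ioc 0 M) := by
      have h1 : tᶜ ∩ Set.Ioc 0 M = Set.Ioc 0 M \ (t ∩ Set.Ioc 0 M) := by
        ext x
        simp only [Set.mem_inter_iff, Set.mem_compl_iff, Set.mem_sdiff]
        tauto
      rw [h1, measureReal_sdiff Set.inter_subset_right (ht.inter measurableSet_Ioc) fin0]
    simp only [e1]
    rw [e2, sub_mul]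
    exact htot.sub ih
  | iUnion f hd hf ih =>
    have e1 : ∀ n, volume.real (((⋃ i, f i) ∩ Set.Ioc 0 M) ∩ EV (Ev c b) (T n) k) =
        ∑' i, volume.real ((f i ∩ Set.Ioc 0 M) ∩ EV (Ev c b) (T n) k) := by
      intro n
      rw [Set.iUnion_inter, Set.iUnion_inter, measureReal_def, measure_iUnion, ENNReal.tsum_toReal_eq]
      · rfl
      · exact fun i => fin2 (f i) n
      · intro i j hij
        exact ((hd hij).mono Set.inter_subset_left Set.inter_subset_left).mono
          Set.inter_subset_left Set.inter_subset_left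
      · exact fun i => ((hf i).inter measurableSet_Ioc).inter (hmeas n)
    have hsumm : Summable fun i => volume.real (f i ∩ Set.Ioc 0 M) := by
      refine ENNReal.summable_toReal ?_
      rw [← measure_iUnion]
      · rw [← Set.iUnion_inter]
        exact fin _
      · intro i j hij
        exact (hd hij).mono Set.inter_subset_left Set.inter_subset_left
      · exact fun i => (hf i).inter measurableSet_Ioc
    have e2 : volume.real ((⋃ i, f i) ∩ Set.Ioc 0 M) = ∑' i, volume.real (f i ∩ Set.Ioc 0 M) := by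
      rw [Set.iUnion_inter, measureReal_def, measure_iUnion, ENNReal.tsum_toReal_eq]
      · rfl
      · exact fun i => fin (f i)
      · intro i j hij
        exact (hd hij).mono Set.inter_subset_left Set.inter_subset_left
      · exact fun i => (hf i).inter measurableSet_Ioc
    simp only [e1]
    rw [e2, ← tsum_mul_right]
    refine tendsto_tsum_of_dominated_convergence hsumm ih ?_
    refine Eventually.of_forall fun n i => ?_
    rw [Real.norm_eq_abs, abs_of_nonneg measureReal_nonneg]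
    exact measureReal_mono Set.inter_subset_left (fin (f i))

end Pool.Agent.U776.PL
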