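import Mathlib

set_option autoImplicit false

/-!
# Averages of bounded variables, orthogonal at distance two
-/

namespace Pool.Agent.U776.PL

open MeasureTheory Finset Filter Topology

section real

/-- averages along the squares -/
lemma avg_of_sq {X : ℕ → ℝ} (h1 : ∀ j, |X j| ≤ 1)
    (h : Tendsto (fun i : ℕ => (∑ j ∈ range (i ^ 2), X j) / (i : ℝ) ^ 2) atTop (𝓝 0)) :
    Tendsto (fun J : ℕ => (∑ j ∈ range J, X j) / (J : ℝ)) atTop (𝓝 0) := by
  have hs : Tendsto (fun J : ℕ => Nat.sqrt J) atTop atTop := by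
    refine tendsto_atTop.2 fun b => ?_
    filter_upwards [eventually_ge_atTop (b * b)] with J hJ
    exact Nat.le_sqrt.2 hJ
  have h2 : Tendsto (fun J : ℕ => |(∑ j ∈ range ((Nat.sqrt J) ^ 2), X j) / ((Nat.sqrt J : ℕ) : ℝ) ^ 2| +
      2 / ((Nat.sqrt J : ℕ) : ℝ)) atTop (𝓝 0) := by
    have h3 := (h.comp hs).abs
    rw [abs_zero] at h3
    have h4 : Tendsto (fun J : ℕ => 2 / ((Nat.sqrt J : ℕ) : ℝ)) atTop (𝓝 0) :=
      (tendsto_const_div_atTop_nhds_zero_nat (2 : ℝ)).comp hs
    have h5 := h3.add h4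
    rw [add_zero] at h5
    exact h5
  refine squeeze_zero_norm' ?_ h2
  filter_upwards [eventually_ge_atTop 1] with J hJ
  rw [Real.norm_eq_abs]
  set s := Nat.sqrt J with hsdef
  have hs1 : 1 ≤ s := Nat.le_sqrt.2 (by omega)
  have hs2 : s ^ 2 ≤ J := by rw [sq]; exact Nat.sqrt_le J
  have hs3 : J ≤ s ^ 2 + 2 * s := by
    have h4 : J < (s + 1) * (s + 1) := Nat.lt_succ_sqrt J
    nlinarith
  have hs0 : (0 : ℝ) < s := by exact_mod_cast hs1
  have hJ0 : (0 : ℝ) < J := by exact_mod_cast (by omega : 0 < J)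
  have e : ∑ j ∈ range J, X j = ∑ j ∈ range (s ^ 2), X j + ∑ j ∈ Ico (s ^ 2) J, X j := by
    rw [Finset.range_eq_Ico, Finset.range_eq_Ico, Finset.sum_Ico_consecutive _ (Nat.zero_le _) hs2]
  have h3 : |∑ j ∈ Ico (s ^ 2) J, X j| ≤ 2 * s := by
    refine (abs_sum_le_sum_abs _ _).trans ?_
    refine (sum_le_sum fun j _ => h1 j).trans ?_
    rw [sum_const, Nat.card_Ico, nsmul_eq_mul, mul_one]
    have : J - s ^ 2 ≤ 2 * s := by omega
    exact_mod_cast this
  have hs2' : ((s : ℝ)) ^ 2 ≤ J := by exact_mod_cast hs2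
  rw [abs_div, abs_of_pos hJ0, abs_div, abs_of_pos (show (0 : ℝ) < (s : ℝ) ^ 2 by positivity)]
  calc |∑ j ∈ range J, X j| / (J : ℝ)
      ≤ (|∑ j ∈ range (s ^ 2), X j| + 2 * s) / (s : ℝ) ^ 2 := by
        rw [e]
        have h4 := abs_add_le (∑ j ∈ range (s ^ 2), X j) (∑ j ∈ Ico (s ^ 2) J, X j)
        have h5 : 0 ≤ |∑ j ∈ range (s ^ 2), X j| := abs_nonneg _
        exact div_le_div₀ (by positivity) (by linarith) (by positivity) hs2'
    _ = _ := by
        rw [add_div]
        congr 1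
        field_simp

/-- Kronecker's lemma for non-negative terms -/
lemma kron {R : ℕ → ℝ} (h0 : ∀ j, 0 ≤ R j) (hs : Summable fun j : ℕ => R j / ((j : ℝ) + 1)) :
    Tendsto (fun J : ℕ => (∑ j ∈ range J, R j) / (J : ℝ)) atTop (𝓝 0) := by
  rw [Metric.tendsto_atTop]
  intro ε hε
  have htail := hs.tendsto_sum_tsum_nat
  obtain ⟨J0, hJ0⟩ := (Metric.tendsto_atTop.1 htail) (ε / 2) (by positivity)
  have h1 := hJ0 J0 le_rfl
  rw [Real.dist_eq] at h1
  obtain ⟨J1, hJ1⟩ := exists_nat_ge ((∑ j ∈ range J0, R j) * 4 / ε)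
  refine ⟨J0 + J1 + 1, fun J hJ => ?_⟩
  have hJpos : (0 : ℝ) < J := by exact_mod_cast (by omega : 0 < J)
  rw [Real.dist_eq, sub_zero, abs_of_nonneg (div_nonneg (sum_nonneg fun j _ => h0 j) hJpos.le)]
  have e : ∑ j ∈ range J, R j = ∑ j ∈ range J0, R j + ∑ j ∈ Ico J0 J, R j := by
    rw [Finset.range_eq_Ico, Finset.range_eq_Ico,
      Finset.sum_Ico_consecutive _ (Nat.zero_le _) (by omega)]
  have h2 : ∑ j ∈ Ico J0 J, R j ≤ J * (ε / 2) := by
    have h3 : ∑ j ∈ Ico J0 J, R j ≤ ∑ j ∈ Ico J0 J, (J : ℝ) * (R j / ((j : ℝ) + 1)) := by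
      refine sum_le_sum fun j hj => ?_
      rw [mem_Ico] at hj
      have h4 : (j : ℝ) + 1 ≤ J := by exact_mod_cast hj.2
      have h5 : (0 : ℝ) < (j : ℝ) + 1 := by positivity
      rw [mul_div_assoc', le_div_iff₀ h5, mul_comm]
      exact mul_le_mul_of_nonneg_right h4 (h0 j)
    refine h3.trans ?_
    rw [← mul_sum]
    refine mul_le_mul_of_nonneg_left ?_ hJpos.le
    have h4 : ∑ j ∈ Ico J0 J, R j / ((j : ℝ) + 1) =
        ∑ j ∈ range J, R j / ((j : ℝ) + 1) - ∑ j ∈ range J0, R j / ((j : ℝ) + 1) := by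
      rw [Finset.sum_Ico_eq_sub _ (by omega)]
    have h5 : ∑ j ∈ range J, R j / ((j : ℝ) + 1) ≤ ∑' j, R j / ((j : ℝ) + 1) :=
      hs.sum_le_tsum _ fun j _ => div_nonneg (h0 j) (by positivity)
    rw [abs_lt] at h1
    rw [h4]
    linarith
  have h3 : (∑ j ∈ range J0, R j) * 4 ≤ J * ε := by
    rw [div_le_iff₀ hε] at hJ1
    refine hJ1.trans ?_
    refine mul_le_mul_of_nonneg_right ?_ hε.le
    exact_mod_cast (by omega : J1 ≤ J)
  rw [e, div_lt_iff₀ hJpos]
  nlinarith

/-- averages and shifts -/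
lemma avg_shift {a : ℕ → ℝ} {L : ℝ} (J0 : ℕ)
    (h : Tendsto (fun J : ℕ => (∑ j ∈ range J, a (j + J0)) / (J : ℝ)) atTop (𝓝 L)) :
    Tendsto (fun J : ℕ => (∑ j ∈ range J, a j) / (J : ℝ)) atTop (𝓝 L) := by
  have hsub : Tendsto (fun J : ℕ => J - J0) atTop atTop := tendsto_sub_atTop_nat J0
  have h1 := h.comp hsub
  have h2 : Tendsto (fun J : ℕ => (((J - J0 : ℕ) : ℝ) / (J : ℝ))) atTop (𝓝 1) := by
    have h3 : Tendsto (fun J : ℕ => 1 - (J0 : ℝ) / (J : ℝ)) atTop (𝓝 (1 - 0)) :=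
      tendsto_const_nhds.sub (tendsto_const_div_atTop_nhds_zero_nat (J0 : ℝ))
    rw [sub_zero] at h3
    refine h3.congr' ?_
    filter_upwards [eventually_ge_atTop (J0 + 1)] with J hJ
    have hJpos : (0 : ℝ) < J := by exact_mod_cast (by omega : 0 < J)
    rw [Nat.cast_sub (by omega)]
    field_simp
  have h3 : Tendsto (fun J : ℕ => (∑ j ∈ range J0, a j) / (J : ℝ)) atTop (𝓝 0) :=
    tendsto_const_div_atTop_nhds_zero_nat _
  have h4 := (h1.mul h2).add h3
  rw [mul_one, add_zero] at h4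
  refine h4.congr' ?_
  filter_upwards [eventually_ge_atTop (J0 + 1)] with J hJ
  have hJpos : (0 : ℝ) < J := by exact_mod_cast (by omega : 0 < J)
  have hJ1 : (0 : ℝ) < ((J - J0 : ℕ) : ℝ) := by exact_mod_cast (by omega : 0 < J - J0)
  have e : ∑ j ∈ range J, a j = ∑ j ∈ range J0, a j + ∑ j ∈ range (J - J0), a (j + J0) := by
    have h5 := Finset.sum_Ico_consecutive a (Nat.zero_le J0) (by omega : J0 ≤ J)
    rw [Finset.sum_Ico_eq_sum_range a J0 J] at h5
    simp only [← Finset.range_eq_Ico] at h5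
    rw [← h5]
    congr 1
    refine Finset.sum_congr rfl fun j _ => ?_
    rw [add_comm]
  simp only [Function.comp]
  rw [e]
  field_simp
  ring

end real

variable {Ω : Type*} [MeasurableSpace Ω] {μ : Measure Ω}

lemma ae_summable {f : ℕ → Ω → ℝ} (hm : ∀ i, Measurable (f i)) (h0 : ∀ i x, 0 ≤ f i x)
    (hi : ∀ i, Integrable (f i) μ) (hs : Summable fun i => ∫ x, f i x ∂μ) :
    ∀ᵐ x ∂μ, Summable fun i => f i x := by
  have h1 : ∫⁻ x, ∑' i, ENNReal.ofReal (f i x) ∂μ ≠ ⊤ := by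
    rw [lintegral_tsum fun i => (hm i).ennreal_ofReal.aemeasurable]
    have h2 : ∀ i, ∫⁻ x, ENNReal.ofReal (f i x) ∂μ = ENNReal.ofReal (∫ x, f i x ∂μ) := fun i =>
      (ofReal_integral_eq_lintegral_ofReal (hi i) (ae_of_all _ (h0 i))).symm
    simp only [h2]
    rw [← ENNReal.ofReal_tsum_of_nonneg (fun i => integral_nonneg (h0 i)) hs]
    exact ENNReal.ofReal_ne_top
  have h2 := ae_lt_top (Measurable.tsum fun i => (hm i).ennreal_ofReal) h1
  filter_upwards [h2] with x hx
  have h3 := ENNReal.summable_toReal hx.ne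
  refine h3.congr fun i => ?_
  rw [ENNReal.toReal_ofReal (h0 i x)]

variable [IsFiniteMeasure μ]

lemma integrable_bdd {f : Ω → ℝ} (hf : Measurable f) {B : ℝ} (h : ∀ x, |f x| ≤ B) :
    Integrable f μ := by
  refine (integrable_const B).mono' hf.aestronglyMeasurable ?_
  filter_upwards with x
  exact h x

/-- the second moment of the sum -/
lemma sq_orth {X : ℕ → Ω → ℝ} (hm : ∀ j, Measurable (X j)) (h1 : ∀ j x, |X j x| ≤ 1)
    (h0 : ∀ j k, j + 2 ≤ k → ∫ x, X j x * X k x ∂μ = 0) (J : ℕ) :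
    ∫ x, (∑ j ∈ range J, X j x) ^ 2 ∂μ ≤ 3 * J * μ.real Set.univ := by
  have hSm : ∀ J, Measurable fun x => ∑ j ∈ range J, X j x := fun J =>
    Finset.measurable_sum _ fun j _ => hm j
  have hSb : ∀ J x, |∑ j ∈ range J, X j x| ≤ J := by
    intro J x
    refine (abs_sum_le_sum_abs _ _).trans ((sum_le_sum fun j _ => h1 j x).trans ?_)
    rw [sum_const, card_range, nsmul_eq_mul, mul_one]
  have hXX : ∀ j k, Integrable (fun x => X j x * X k x) μ := fun j k =>
    integrable_bdd ((hm j).mul (hm k)) (B := 1) fun x => by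
      rw [abs_mul]
      have := h1 j x
      have := h1 k x
      have := abs_nonneg (X j x)
      have := abs_nonneg (X k x)
      nlinarith
  have hXX1 : ∀ j k, |∫ x, X j x * X k x ∂μ| ≤ μ.real Set.univ := by
    intro j k
    have h2 := norm_integral_le_of_norm_le_const (μ := μ) (f := fun x => X j x * X k x) (C := 1)
      (ae_of_all _ fun x => by
        rw [Real.norm_eq_abs, abs_mul]
        have := h1 j x
        have := h1 k x
        have := abs_nonneg (X j x)
        have := abs_nonneg (X k x)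
        nlinarith)
    rw [one_mul, Real.norm_eq_abs] at h2
    exact h2
  induction J with
  | zero => simp
  | succ J ih =>
    have e1 : ∀ x, (∑ j ∈ range (J + 1), X j x) ^ 2 = (∑ j ∈ range J, X j x) ^ 2 +
        2 * ((∑ j ∈ range J, X j x) * X J x) + X J x * X J x := by
      intro x
      rw [sum_range_succ]
      ring
    have i1 : Integrable (fun x => (∑ j ∈ range J, X j x) ^ 2) μ :=
      integrable_bdd ((hSm J).pow_const 2) (B := (J : ℝ) ^ 2) fun x => by
        rw [abs_pow]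
        exact pow_le_pow_left₀ (abs_nonneg _) (hSb J x) 2
    have i2 : Integrable (fun x => (∑ j ∈ range J, X j x) * X J x) μ :=
      integrable_bdd ((hSm J).mul (hm J)) (B := (J : ℝ)) fun x => by
        rw [abs_mul]
        have h3 := hSb J x
        have h4 := h1 J x
        have h5 := abs_nonneg (X J x)
        have h6 := abs_nonneg (∑ j ∈ range J, X j x)
        nlinarith
    simp only [e1]
    have k1 : ∫ x, ((∑ j ∈ range J, X j x) ^ 2 + 2 * ((∑ j ∈ range J, X j x) * X J x)) +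
        X J x * X J x ∂μ = ∫ x, ((∑ j ∈ range J, X j x) ^ 2 +
        2 * ((∑ j ∈ range J, X j x) * X J x)) ∂μ + ∫ x, X J x * X J x ∂μ :=
      integral_add (i1.add (i2.const_mul 2)) (hXX J J)
    have k2 : ∫ x, ((∑ j ∈ range J, X j x) ^ 2 + 2 * ((∑ j ∈ range J, X j x) * X J x)) ∂μ =
        ∫ x, (∑ j ∈ range J, X j x) ^ 2 ∂μ + ∫ x, 2 * ((∑ j ∈ range J, X j x) * X J x) ∂μ :=
      integral_add i1 (i2.const_mul 2)
    rw [k1, k2, integral_const_mul]
    have h5 : ∫ x, (∑ j ∈ range J, X j x) * X J x ∂μ ≤ μ.real Set.univ := by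
      have e2 : ∀ x, (∑ j ∈ range J, X j x) * X J x = ∑ j ∈ range J, X j x * X J x := fun x =>
        sum_mul _ _ _
      simp only [e2]
      rw [integral_finsetSum _ fun j _ => hXX j J]
      rcases Nat.eq_zero_or_pos J with h | h
      · subst h
        simp
      · obtain ⟨K, rfl⟩ : ∃ K, J = K + 1 := ⟨J - 1, by omega⟩
        rw [sum_range_succ, sum_eq_zero, zero_add]
        · exact (le_abs_self _).trans (hXX1 _ _)
        · intro j hj
          rw [mem_range] at hj
          exact h0 j (K + 1) (by omega)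
    have h6 := (le_abs_self _).trans (hXX1 J J)
    push_cast
    linarith

/-- the averages of bounded variables, orthogonal at distance two, tend to zero -/
theorem slln_orth {X : ℕ → Ω → ℝ} (hm : ∀ j, Measurable (X j)) (h1 : ∀ j x, |X j x| ≤ 1)
    (h0 : ∀ j k, j + 2 ≤ k → ∫ x, X j x * X k x ∂μ = 0) :
    ∀ᵐ x ∂μ, Tendsto (fun J : ℕ => (∑ j ∈ range J, X j x) / (J : ℝ)) atTop (𝓝 0) := by
  have hSm : ∀ J, Measurable fun x => ∑ j ∈ range J, X j x := fun J =>
    Finset.measurable_sum _ fun j _ => hm j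
  have hSb : ∀ J x, |∑ j ∈ range J, X j x| ≤ J := by
    intro J x
    refine (abs_sum_le_sum_abs _ _).trans ((sum_le_sum fun j _ => h1 j x).trans ?_)
    rw [sum_const, card_range, nsmul_eq_mul, mul_one]
  have hM0 : 0 ≤ μ.real Set.univ := measureReal_nonneg
  have key := ae_summable (μ := μ) (f := fun i x => ((∑ j ∈ range (i ^ 2), X j x) / (i : ℝ) ^ 2) ^ 2)
    (fun i => ((hSm _).div_const _).pow_const 2) (fun i x => sq_nonneg _)
    (fun i => integrable_bdd (((hSm _).div_const _).pow_const 2) (B := 1) fun x => by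
      rw [abs_pow, abs_div, abs_of_nonneg (show (0 : ℝ) ≤ (i : ℝ) ^ 2 by positivity)]
      have h2 := hSb (i ^ 2) x
      push_cast at h2
      refine pow_le_one₀ (by positivity) ?_
      exact div_le_one_of_le₀ h2 (by positivity))
    (by
      refine Summable.of_nonneg_of_le (fun i => integral_nonneg fun x => sq_nonneg _)
        (fun i => ?_) ((Real.summable_one_div_nat_pow.2 (show 1 < 2 by norm_num)).mul_left
          (3 * μ.real Set.univ))
      have e : ∀ x, ((∑ j ∈ range (i ^ 2), X j x) / (i : ℝ) ^ 2) ^ 2 =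
          (∑ j ∈ range (i ^ 2), X j x) ^ 2 * (1 / (i : ℝ) ^ 4) := by
        intro x
        rw [div_pow, ← pow_mul]
        ring
      simp only [e]
      rw [integral_mul_const]
      have h2 := sq_orth hm h1 h0 (i ^ 2)
      push_cast at h2
      rcases Nat.eq_zero_or_pos i with h | h
      · subst h
        simp
      · have hi : (0 : ℝ) < i := by exact_mod_cast h
        calc _ ≤ 3 * (i : ℝ) ^ 2 * μ.real Set.univ * (1 / (i : ℝ) ^ 4) :=
              mul_le_mul_of_nonneg_right h2 (by positivity)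
          _ = 3 * μ.real Set.univ * (1 / (i : ℝ) ^ 2) := by
              field_simp)
  filter_upwards [key] with x hx
  refine avg_of_sq (fun j => h1 j x) ?_
  have h2 := hx.tendsto_atTop_zero
  have h3 := h2.sqrt
  rw [Real.sqrt_zero] at h3
  rw [tendsto_zero_iff_abs_tendsto_zero]
  refine h3.congr fun i => ?_
  rw [Real.sqrt_sq_eq_abs]
  rfl

end Pool.Agent.U776.PL
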