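import Mathlib
import Pool.Agent.U776.PL.Inst4
import Pool.Agent.U776.PL.Slln

set_option autoImplicit false

/-!
# Conditional means over the cells
-/

namespace Pool.Agent.U776.PL

open MeasureTheory Finset Filter Topology
open Pool.Agent.H305R2 (roughPart)
open Pool.Agent.N176.GP (NB NB_spec NB_div sum_cells)
open Pool.Agent.N176.SH (sh Ok cnt)
open Pool.Agent.N176.OW (kap)

/-- the product as a function of the digits -/
noncomputable def gd (c : ℕ → ℤ) (b t : ℕ) (S : Finset ℕ) (θ : ℕ → ℝ) (n : ℕ) : ℝ :=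
  ∏ p ∈ S, if (roughPart p (sh c p (n / b ^ (t - p)))).Prime then θ p else 1

lemma gd_01 {c : ℕ → ℤ} {b t : ℕ} {S : Finset ℕ} {θ : ℕ → ℝ} (hθ : ∀ p, 0 ≤ θ p ∧ θ p ≤ 1) (n : ℕ) :
    0 ≤ gd c b t S θ n ∧ gd c b t S θ n ≤ 1 := by
  have h1 : ∀ p ∈ S, 0 ≤ (if (roughPart p (sh c p (n / b ^ (t - p)))).Prime then θ p else 1) ∧
      (if (roughPart p (sh c p (n / b ^ (t - p)))).Prime then θ p else 1) ≤ 1 := by
    intro p _
    split_ifs
    · exact hθ p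
    · exact ⟨zero_le_one, le_rfl⟩
  exact ⟨prod_nonneg fun p hp => (h1 p hp).1, prod_le_one (fun p hp => (h1 p hp).1)
    fun p hp => (h1 p hp).2⟩

lemma G_gd {c : ℕ → ℤ} {b t : ℕ} (hb : 2 ≤ b) {S : Finset ℕ} {θ : ℕ → ℝ} (hS : ∀ p ∈ S, p ≤ t)
    {β : ℝ} (hβ : 0 < β) : G (Ev c b) S θ β = gd c b t S θ (NB b β t) := by
  classical
  unfold G gd
  refine prod_congr rfl fun p hp => ?_
  by_cases h1 : β ∈ Ev c b p
  · rw [if_pos h1, if_pos ((Ev_iff hb (hS p hp) hβ).1 h1)]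
  · rw [if_neg h1, if_neg fun h2 => h1 ((Ev_iff hb (hS p hp) hβ).2 h2)]

/-- the conditional mean -/
noncomputable def av (b z t : ℕ) (g : ℕ → ℝ) (i : ℕ) : ℝ :=
  (∑ n ∈ Ico (i * b ^ (t - z)) ((i + 1) * b ^ (t - z)), g n) / (b : ℝ) ^ (t - z)

lemma av_01 {b z t : ℕ} (hb : 2 ≤ b) {g : ℕ → ℝ} (hg : ∀ n, 0 ≤ g n ∧ g n ≤ 1) (i : ℕ) :
    0 ≤ av b z t g i ∧ av b z t g i ≤ 1 := by
  have hb0 : (0 : ℝ) < b := by positivity
  unfold av
  constructor
  · exact div_nonneg (sum_nonneg fun n _ => (hg n).1) (by positivity)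
  · rw [div_le_one (by positivity)]
    refine (sum_le_sum fun n _ => (hg n).2).trans ?_
    rw [sum_const, Nat.card_Ico, nsmul_eq_mul, mul_one]
    have : (i + 1) * b ^ (t - z) - i * b ^ (t - z) = b ^ (t - z) := by
      rw [add_mul, one_mul]; omega
    rw [this]
    push_cast
    exact le_rfl

lemma integrable_mu {b : ℕ} (hb : 2 ≤ b) {m t A0 B0 : ℕ} (hmt : m ≤ t) (hAB : A0 ≤ B0) (f : ℕ → ℝ) :
    Integrable (fun β => f (NB b β t)) (mu b m A0 B0) := by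
  unfold mu
  rw [scale hb hmt A0, scale hb hmt B0]
  exact (int_cells hb t f (Nat.mul_le_mul_right _ hAB)).1

lemma mu_pos {b m A0 B0 : ℕ} : ∀ᵐ β ∂(mu b m A0 B0), 0 < β := by
  unfold mu
  filter_upwards [ae_restrict_mem measurableSet_Ioc] with β hβ
  exact lt_of_le_of_lt (by positivity) hβ.1

/-- the integral over a cell -/
lemma int_cell_av {b z t : ℕ} (hb : 2 ≤ b) (hzt : z ≤ t) (g : ℕ → ℝ) (i : ℕ) :
    ∫ β, g (NB b β t) ∂(mu b z i (i + 1)) = av b z t g i / (b : ℝ) ^ z := by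
  rw [int_mu hb hzt (Nat.le_succ i)]
  unfold av
  rw [div_div]
  congr 1
  rw [← pow_add]
  congr 1
  omega

/-- a function of the first digits is orthogonal to the deviation from the conditional mean -/
lemma orth {b m z t A0 B0 : ℕ} (hb : 2 ≤ b) (hmz : m ≤ z) (hzt : z ≤ t) (hAB : A0 ≤ B0)
    (φ g : ℕ → ℝ) :
    ∫ β, φ (NB b β z) * (g (NB b β t) - av b z t g (NB b β z)) ∂(mu b m A0 B0) = 0 := by
  have hb0 : (0 : ℝ) < b := by positivity
  rw [int_mu' hb (hmz.trans hzt) hAB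
    (fun n => φ (n / b ^ (t - z)) * (g n - av b z t g (n / b ^ (t - z))))
    _ (fun β hβ => by rw [NB_div hb hβ hzt])]
  rw [div_eq_zero_iff]
  left
  have e1 : b ^ (t - m) = b ^ (z - m) * b ^ (t - z) := by
    rw [← pow_add]; congr 1; omega
  rw [e1, ← mul_assoc, ← mul_assoc, sum_blocks _ _ _ (Nat.mul_le_mul_right _ hAB)]
  refine sum_eq_zero fun i _ => ?_
  have h1 : ∀ n ∈ Ico (i * b ^ (t - z)) ((i + 1) * b ^ (t - z)), n / b ^ (t - z) = i := by
    intro n hn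
    rw [mem_Ico] at hn
    rw [Nat.div_eq_iff (by positivity)]
    constructor
    · linarith [hn.1, mul_comm i (b ^ (t - z))]
    · have h3 := hn.2
      have h4 : (i + 1) * b ^ (t - z) = i * b ^ (t - z) + b ^ (t - z) := by ring
      have h5 : 0 < b ^ (t - z) := by positivity
      omega
  have h2 : ∑ n ∈ Ico (i * b ^ (t - z)) ((i + 1) * b ^ (t - z)),
      φ (n / b ^ (t - z)) * (g n - av b z t g (n / b ^ (t - z))) =
      φ i * (∑ n ∈ Ico (i * b ^ (t - z)) ((i + 1) * b ^ (t - z)), g n -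
        (b : ℝ) ^ (t - z) * av b z t g i) := by
    have h3 : ∀ n ∈ Ico (i * b ^ (t - z)) ((i + 1) * b ^ (t - z)),
        φ (n / b ^ (t - z)) * (g n - av b z t g (n / b ^ (t - z))) =
        φ i * (g n - av b z t g i) := by
      intro n hn
      rw [h1 n hn]
    rw [sum_congr rfl h3, ← mul_sum, sum_sub_distrib, sum_const, Nat.card_Ico, nsmul_eq_mul]
    congr 3
    have : (i + 1) * b ^ (t - z) - i * b ^ (t - z) = b ^ (t - z) := by
      rw [add_mul, one_mul]; omega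
    rw [this]
    push_cast
    rfl
  rw [h2]
  unfold av
  rw [mul_div_cancel₀ _ (by positivity), sub_self, mul_zero]

/-- the deviation of the conditional mean of a block -/
lemma dev {b A : ℕ} {c : ℕ → ℤ} (H : Ok b A c) {C ρ : ℝ} {P : ℕ}
    (hpair : ∀ m A0 B0 : ℕ, 1 ≤ A0 → A0 < B0 → B0 ≤ b ^ (2 * m) →
      (∀ p ≥ P, A * (m + 1) ≤ p →
        (mu b m A0 B0).real (Ev c b p) ≤ (mu b m A0 B0).real Set.univ * (C * wt p)) ∧
      ∀ p ≥ P, A * (m + 1) ≤ p → ∀ q > p, (mu b m A0 B0).real (Ev c b p ∩ Ev c b q) ≤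
        (mu b m A0 B0).real Set.univ * (C * (wt p * wt q + wt p * ρ ^ (q - p))))
    {c0 : ℝ} (hc0 : 0 < c0) (hc0A : c0 ≤ 1 / A) {m1 : ℕ} {y : ℕ}
    (hyP : P ≤ y) (hyy : ∀ q ≥ y, ((yy q m1 : ℕ) : ℝ) ≤ c0 * q) (hy1 : ∀ p ≥ y, kap b * wt p ≤ 1)
    {S : Finset ℕ} (hS : ∀ p ∈ S, y ≤ p) {z : ℕ} (hAz : A * (z + 1) ≤ y) (hz0 : z ≤ zl c0 y)
    {t : ℕ} (ht : ∀ p ∈ S, p ≤ t) (hzt : z ≤ t) {θ : ℕ → ℝ} (hθ : ∀ p, 0 ≤ θ p ∧ θ p ≤ 1)
    {i : ℕ} (hi1 : 1 ≤ i) (hi2 : i + 1 ≤ b ^ (2 * z)) :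
    |av b z t (gd c b t S θ) i - Real.exp (-(kap b * ∑ p ∈ S, (1 - θ p) * wt p))| ≤
      (b : ℝ) ^ z * ∑ q ∈ S, rr c b c0 q z i (i + 1) + errd C ρ (kap b) m1 S := by
  have hb := H.hb
  have hb0 : (0 : ℝ) < b := by positivity
  have hk : 0 ≤ kap b := by
    unfold kap
    have : 0 ≤ Real.log b := Real.log_natCast_nonneg b
    positivity
  obtain ⟨h1, h2⟩ := hpair z i (i + 1) hi1 (Nat.lt_succ_self i) hi2
  have hmass : (mu b z i (i + 1)).real Set.univ = 1 / (b : ℝ) ^ z := by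
    rw [mass (Nat.le_succ i)]
    congr 1
    have : i + 1 - i = 1 := by omega
    rw [this]
    norm_num
  have hmono : ∀ q ≥ y, zl c0 y ≤ zl c0 q := by
    intro q hq
    unfold zl
    exact Nat.floor_le_floor (mul_le_mul_of_nonneg_left (by exact_mod_cast hq) hc0.le)
  have h3 := gen_unif (m := m1) (μ := mu b z i (i + 1)) (E := Ev c b) (C := C) (ρ := ρ) hk
    (Ev_measurable c b) (P := y) (fun p hp => h1 p (by omega) (by omega))
    (fun p hp q hq => h2 p (by omega) (by omega) q hq) S hS hy1 hθ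
    (r := fun q => rr c b c0 q z i (i + 1))
    (fun q hq S' hS' => mix_rr H (Nat.lt_succ_self i) (hz0.trans (hmono q hq))
      (zl_ok hc0 hc0A H.hA q).2 (fun p hp => Nat.le_floor
        (le_trans (by exact_mod_cast hS' p hp) (hyy q hq))) hθ)
  have h4 : ∫ x, G (Ev c b) S θ x ∂(mu b z i (i + 1)) = av b z t (gd c b t S θ) i / (b : ℝ) ^ z := by
    rw [← int_cell_av hb hzt]
    refine integral_congr_ae ?_
    filter_upwards [mu_pos] with β hβ
    exact G_gd hb ht hβ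
  rw [h4, hmass] at h3
  have hbz : (0 : ℝ) < (b : ℝ) ^ z := by positivity
  have h5 : av b z t (gd c b t S θ) i / (b : ℝ) ^ z -
      1 / (b : ℝ) ^ z * Real.exp (-(kap b * ∑ p ∈ S, (1 - θ p) * wt p)) =
      (av b z t (gd c b t S θ) i - Real.exp (-(kap b * ∑ p ∈ S, (1 - θ p) * wt p))) /
        (b : ℝ) ^ z := by ring
  rw [h5, abs_div, abs_of_pos hbz, div_le_iff₀ hbz] at h3
  refine h3.trans (le_of_eq ?_)
  field_simp

end Pool.Agent.U776.PL
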