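import Mathlib
import Pool.Agent.U776.PL.Quen1

set_option autoImplicit false

/-!
# Averages of the generating functions along the blocks, for almost every amplitude
-/

namespace Pool.Agent.U776.PL

open MeasureTheory Finset Filter Topology
open Pool.Agent.H305R2 (roughPart)
open Pool.Agent.N176.GP (NB NB_spec NB_div sum_cells)
open Pool.Agent.N176.SH (sh Ok cnt)
open Pool.Agent.N176.OW (kap)

lemma zl_mono {c0 : ℝ} (hc0 : 0 ≤ c0) {p q : ℕ} (h : p ≤ q) : zl c0 p ≤ zl c0 q := by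
  unfold zl
  exact Nat.floor_le_floor (mul_le_mul_of_nonneg_left (by exact_mod_cast h) hc0)

/-- the case where everything holds from the first block on -/
theorem quen_good {b A : ℕ} {c : ℕ → ℤ} (H : Ok b A c) {C ρ : ℝ} {P : ℕ}
    (hpair : ∀ m A0 B0 : ℕ, 1 ≤ A0 → A0 < B0 → B0 ≤ b ^ (2 * m) →
      (∀ p ≥ P, A * (m + 1) ≤ p →
        (mu b m A0 B0).real (Ev c b p) ≤ (mu b m A0 B0).real Set.univ * (C * wt p)) ∧
      ∀ p ≥ P, A * (m + 1) ≤ p → ∀ q > p, (mu b m A0 B0).real (Ev c b p ∩ Ev c b q) ≤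
        (mu b m A0 B0).real Set.univ * (C * (wt p * wt q + wt p * ρ ^ (q - p))))
    {c0 : ℝ} (hc0 : 0 < c0) (hc0A : c0 ≤ 1 / A) {m1 : ℕ}
    {m A0 B0 : ℕ} (hA0 : 1 ≤ A0) (hAB : A0 < B0) (hB0 : B0 ≤ b ^ (2 * m)) {K : ℝ} (hK : 0 < K)
    (S : ℕ → Finset ℕ) (θ : ℕ → ℕ → ℝ) (hθ : ∀ j p, 0 ≤ θ j p ∧ θ j p ≤ 1) (y : ℕ → ℕ)
    (hS : ∀ j, ∀ p ∈ S j, y j ≤ p ∧ p < y (j + 1)) (hymono : ∀ j, y j ≤ y (j + 1))
    (hyz : ∀ j, y (j + 1) ≤ zl (c0 / 2) (y (j + 2)))
    (hyP : ∀ j, P ≤ y j) (hyA : ∀ j, 2 * A ≤ y j) (hy2 : ∀ j, 2 ^ (j + 1) ≤ y j)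
    (hyy : ∀ q ≥ y 0, ((yy q m1 : ℕ) : ℝ) ≤ c0 * q) (hy1 : ∀ p ≥ y 0, kap b * wt p ≤ 1)
    (hrr : ∀ q ≥ y 0, rr c b c0 q m A0 B0 ≤ K / q) (hmz : ∀ j, m ≤ zl (c0 / 2) (y j))
    {V : ℝ} (hV : ∀ j, ∑ p ∈ S j, wt p ≤ V)
    (herr : Tendsto (fun j => errd C ρ (kap b) m1 (S j)) atTop (𝓝 0)) {L : ℝ}
    (hL : Tendsto (fun j => Real.exp (-(kap b * ∑ p ∈ S j, (1 - θ j p) * wt p))) atTop (𝓝 L)) :
    ∀ᵐ β ∂(mu b m A0 B0),
      Tendsto (fun J : ℕ => (∑ j ∈ range J, G (Ev c b) (S j) (θ j) β) / (J : ℝ)) atTop (𝓝 L) := by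
  classical
  have hb := H.hb
  have hA := H.hA
  have hb0 : (0 : ℝ) < b := by positivity
  have hA' : (0 : ℝ) < A := by exact_mod_cast (by omega : 0 < A)
  have hymono' : Monotone y := monotone_nat_of_le_succ hymono
  set z : ℕ → ℕ := fun j => zl (c0 / 2) (y j) with hz
  set t : ℕ → ℕ := fun j => y (j + 1) with ht
  have hzle : ∀ j, (z j : ℝ) ≤ c0 / 2 * y j := fun j => Nat.floor_le (by positivity)
  have hzA : ∀ j, A * (z j + 1) ≤ y j := by
    intro j
    have h1 : (A : ℝ) * z j ≤ y j / 2 := by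
      have h2 : (z j : ℝ) ≤ 1 / A / 2 * y j := (hzle j).trans
        (mul_le_mul_of_nonneg_right (by linarith) (Nat.cast_nonneg _))
      calc (A : ℝ) * z j ≤ A * (1 / A / 2 * y j) := mul_le_mul_of_nonneg_left h2 hA'.le
        _ = y j / 2 := by field_simp
    have h2 : (2 * A : ℝ) ≤ y j := by exact_mod_cast hyA j
    have h3 : (A : ℝ) * (z j + 1) ≤ y j := by linarith
    exact_mod_cast h3
  have hzy : ∀ j, z j ≤ y j := by
    intro j
    have := hzA j
    nlinarith
  have hz0 : ∀ j, z j ≤ zl c0 (y j) := by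
    intro j
    refine Nat.floor_le_floor ?_
    have := Nat.cast_nonneg (α := ℝ) (y j)
    nlinarith
  have hzt : ∀ j, z j ≤ t j := fun j => (hzy j).trans (hymono j)
  have hzmono : Monotone z := fun i j hij => zl_mono (by positivity) (hymono' hij)
  have htS : ∀ j, ∀ p ∈ S j, p ≤ t j := fun j p hp => (hS j p hp).2.le
  set g : ℕ → ℕ → ℝ := fun j => gd c b (t j) (S j) (θ j) with hg
  have hg01 : ∀ j n, 0 ≤ g j n ∧ g j n ≤ 1 := fun j n => gd_01 (hθ j) n
  have hav01 : ∀ j i, 0 ≤ av b (z j) (t j) (g j) i ∧ av b (z j) (t j) (g j) i ≤ 1 := fun j i =>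
    av_01 hb (hg01 j) i
  set e : ℕ → ℝ := fun j => Real.exp (-(kap b * ∑ p ∈ S j, (1 - θ j p) * wt p)) with he
  -- the orthogonal part
  set X : ℕ → ℝ → ℝ := fun j β => g j (NB b β (t j)) - av b (z j) (t j) (g j) (NB b β (z j)) with hX
  have hXm : ∀ j, Measurable (X j) := fun j =>
    ((measurable_from_nat (f := g j)).comp (NB_measurable b (t j))).sub
      ((measurable_from_nat (f := av b (z j) (t j) (g j))).comp (NB_measurable b (z j)))
  have hX1 : ∀ j β, |X j β| ≤ 1 := by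
    intro j β
    have h1 := hg01 j (NB b β (t j))
    have h2 := hav01 j (NB b β (z j))
    rw [abs_le]
    constructor
    · simp only [hX]; linarith
    · simp only [hX]; linarith
  have hX0 : ∀ j k, j + 2 ≤ k → ∫ β, X j β * X k β ∂(mu b m A0 B0) = 0 := by
    intro j k hjk
    have htz : t j ≤ z k := by
      have h1 : t j ≤ z (j + 2) := hyz j
      exact h1.trans (hzmono hjk)
    have hzz : z j ≤ z k := hzmono (by omega)
    have h1 := orth (m := m) (z := z k) (t := t k) (A0 := A0) (B0 := B0) hb (hmz k) (hzt k) hAB.le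
      (fun n => g j (n / b ^ (z k - t j)) - av b (z j) (t j) (g j) (n / b ^ (z k - z j))) (g k)
    rw [← h1]
    refine integral_congr_ae ?_
    filter_upwards [mu_pos] with β hβ
    simp only [hX]
    rw [NB_div hb hβ htz, NB_div hb hβ hzz]
  have hslln := slln_orth (μ := mu b m A0 B0) hXm hX1 hX0
  -- the deviation
  set R : ℕ → ℝ → ℝ := fun j β => (b : ℝ) ^ z j *
    ∑ q ∈ S j, rr c b c0 q (z j) (NB b β (z j)) (NB b β (z j) + 1) with hR
  have hR0 : ∀ j β, 0 ≤ R j β := fun j β =>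
    mul_nonneg (by positivity) (sum_nonneg fun q _ => rr_nonneg c b c0 q _ _ _)
  have hRm : ∀ j, Measurable (R j) := fun j =>
    (measurable_from_nat (f := fun i => (b : ℝ) ^ z j *
      ∑ q ∈ S j, rr c b c0 q (z j) i (i + 1))).comp (NB_measurable b (z j))
  have hRi : ∀ j, Integrable (R j) (mu b m A0 B0) := fun j =>
    integrable_mu hb (hmz j) hAB.le (fun i => (b : ℝ) ^ z j *
      ∑ q ∈ S j, rr c b c0 q (z j) i (i + 1))
  have hV0 : 0 ≤ V := (sum_nonneg fun p _ => wt_nonneg p).trans (hV 0)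
  have hlog2 : 0 < Real.log 2 := Real.log_pos (by norm_num)
  have hRint : ∀ j, ∫ β, R j β ∂(mu b m A0 B0) ≤ K * V / Real.log 2 / ((j : ℝ) + 1) := by
    intro j
    have h1 : ∫ β, R j β ∂(mu b m A0 B0) = ∑ q ∈ S j, rr c b c0 q m A0 B0 := by
      have h2 := int_mu (m := m) (t := z j) (A0 := A0) (B0 := B0) hb (hmz j) hAB.le
        (fun i => (b : ℝ) ^ z j * ∑ q ∈ S j, rr c b c0 q (z j) i (i + 1))
      have h3 : ∫ β, R j β ∂(mu b m A0 B0) = ∫ β, (fun i => (b : ℝ) ^ z j *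
        ∑ q ∈ S j, rr c b c0 q (z j) i (i + 1)) (NB b β (z j)) ∂(mu b m A0 B0) := rfl
      rw [h3, h2, ← mul_sum, mul_div_cancel_left₀ _ (by positivity), sum_comm]
      refine sum_congr rfl fun q hq => ?_
      exact rr_sum hAB.le (hmz j) ((hz0 j).trans (zl_mono hc0.le (hS j q hq).1))
    rw [h1]
    have h2 : ∀ q ∈ S j, rr c b c0 q m A0 B0 ≤ K / Real.log 2 / ((j : ℝ) + 1) * wt q := by
      intro q hq
      have hq1 := (hS j q hq).1
      have hq2 : 2 ^ (j + 1) ≤ q := (hy2 j).trans hq1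
      have hq0 : (0 : ℝ) < q := by
        have : 0 < 2 ^ (j + 1) := by positivity
        exact_mod_cast lt_of_lt_of_le this hq2
      refine (hrr q ((hymono' (Nat.zero_le j)).trans hq1)).trans ?_
      have h3 : ((j : ℝ) + 1) * Real.log 2 ≤ Real.log q := by
        have h4 : ((2 ^ (j + 1) : ℕ) : ℝ) ≤ q := by exact_mod_cast hq2
        have h5 := Real.log_le_log (by positivity) h4
        push_cast at h5
        rw [Real.log_pow] at h5
        push_cast at h5
        exact h5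
      have h4 : 1 ≤ Real.log q / (((j : ℝ) + 1) * Real.log 2) := by
        rw [one_le_div (by positivity)]
        exact h3
      calc K / (q : ℝ) = K / q * 1 := (mul_one _).symm
        _ ≤ K / q * (Real.log q / (((j : ℝ) + 1) * Real.log 2)) :=
          mul_le_mul_of_nonneg_left h4 (by positivity)
        _ = K / Real.log 2 / ((j : ℝ) + 1) * wt q := by
          unfold wt
          field_simp
    refine (sum_le_sum h2).trans ?_
    rw [← mul_sum]
    calc K / Real.log 2 / ((j : ℝ) + 1) * ∑ i ∈ S j, wt i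
        ≤ K / Real.log 2 / ((j : ℝ) + 1) * V := mul_le_mul_of_nonneg_left (hV j) (by positivity)
      _ = _ := by ring
  have hsum := ae_summable (μ := mu b m A0 B0) (f := fun j β => R j β / ((j : ℝ) + 1))
    (fun j => (hRm j).div_const _) (fun j β => div_nonneg (hR0 j β) (by positivity))
    (fun j => (hRi j).div_const _)
    (by
      have hs : Summable fun j : ℕ => K * V / Real.log 2 * (1 / ((j + 1 : ℕ) : ℝ) ^ 2) :=
        ((summable_nat_add_iff 1).2
          (Real.summable_one_div_nat_pow.2 (show 1 < 2 by norm_num))).mul_left _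
      refine Summable.of_nonneg_of_le (fun j => integral_nonneg fun β =>
        div_nonneg (hR0 j β) (by positivity)) (fun j => ?_) hs
      rw [integral_div]
      have h1 := hRint j
      have hj : (0 : ℝ) < (j : ℝ) + 1 := by positivity
      rw [div_le_iff₀ hj]
      refine h1.trans (le_of_eq ?_)
      push_cast
      field_simp)
  -- the conditional means
  have hdev : ∀ j, ∀ i ∈ Ico (A0 * b ^ (z j - m)) (B0 * b ^ (z j - m)),
      |av b (z j) (t j) (g j) i - e j| ≤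
        (b : ℝ) ^ z j * ∑ q ∈ S j, rr c b c0 q (z j) i (i + 1) + errd C ρ (kap b) m1 (S j) := by
    intro j i hi
    rw [mem_Ico] at hi
    have hi1 : 1 ≤ i := by
      have : 1 ≤ A0 * b ^ (z j - m) := Nat.mul_pos hA0 (by positivity)
      omega
    have hi2 : i + 1 ≤ b ^ (2 * z j) := by
      have h1 : B0 * b ^ (z j - m) ≤ b ^ (2 * z j) := by
        refine (Nat.mul_le_mul_right _ hB0).trans ?_
        rw [← pow_add]
        have := hmz j
        refine Nat.pow_le_pow_right (by omega) ?_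
        have h2 : m ≤ z j := hmz j
        omega
      omega
    exact dev H hpair hc0 hc0A (hyP j) (fun q hq => hyy q ((hymono' (Nat.zero_le j)).trans hq))
      (fun q hq => hy1 q ((hymono' (Nat.zero_le j)).trans hq)) (fun p hp => (hS j p hp).1) (hzA j)
      (hz0 j) (htS j) (hzt j) (hθ j) hi1 hi2
  have hNBmem : ∀ j, ∀ᵐ β ∂(mu b m A0 B0), NB b β (z j) ∈
      Ico (A0 * b ^ (z j - m)) (B0 * b ^ (z j - m)) := by
    intro j
    unfold mu
    filter_upwards [ae_restrict_mem measurableSet_Ioc] with β hβ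
    rw [scale hb (hmz j) A0, scale hb (hmz j) B0] at hβ
    have hbz : (0 : ℝ) < (b : ℝ) ^ z j := by positivity
    have hβ0 : 0 < β := lt_of_le_of_lt (by positivity) hβ.1
    obtain ⟨h3, h4⟩ := NB_spec hb hβ0 (z j)
    obtain ⟨h5, h6⟩ := hβ
    rw [div_lt_iff₀ hbz] at h5
    rw [le_div_iff₀ hbz] at h6
    have h7 : ((A0 * b ^ (z j - m) : ℕ) : ℝ) < ((NB b β (z j) + 1 : ℕ) : ℝ) := by
      push_cast at h5 ⊢
      linarith
    have h8 : ((NB b β (z j) : ℕ) : ℝ) < ((B0 * b ^ (z j - m) : ℕ) : ℝ) := by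
      push_cast at h6 ⊢
      linarith
    have h9 : A0 * b ^ (z j - m) < NB b β (z j) + 1 := by exact_mod_cast h7
    have h10 : NB b β (z j) < B0 * b ^ (z j - m) := by exact_mod_cast h8
    rw [mem_Ico]
    omega
  have hNBall := ae_all_iff.2 hNBmem
  filter_upwards [hslln, hsum, hNBall, mu_pos] with β h1 h2 h3 h4
  have h5 := kron (R := fun j => R j β) (fun j => hR0 j β) h2
  have h6 := herr.cesaro
  have h7 := hL.cesaro
  have h8 : Tendsto (fun J : ℕ => (∑ j ∈ range J, (av b (z j) (t j) (g j) (NB b β (z j)) - e j)) /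
      (J : ℝ)) atTop (𝓝 0) := by
    have h9 := h5.add h6
    rw [add_zero] at h9
    refine squeeze_zero_norm (fun J => ?_) h9
    rw [Real.norm_eq_abs, abs_div, Nat.abs_cast, ← div_eq_inv_mul, ← add_div, ← sum_add_distrib]
    refine div_le_div_of_nonneg_right ?_ (Nat.cast_nonneg J)
    exact (abs_sum_le_sum_abs _ _).trans (sum_le_sum fun j _ => hdev j _ (h3 j))
  have h9 := (h1.add h8).add h7
  rw [zero_add, zero_add] at h9
  refine h9.congr fun J => ?_
  rw [← div_eq_inv_mul, ← add_div, ← add_div, ← sum_add_distrib, ← sum_add_distrib]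
  congr 1
  refine sum_congr rfl fun j _ => ?_
  rw [G_gd hb (htS j) h4]
  simp only [hX]
  ring

end Pool.Agent.U776.PL
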