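import Mathlib
import Pool.Agent.U776.PL.Quen2

set_option autoImplicit false

/-!
# Averages of the generating functions along the blocks: asymptotic hypotheses
-/

namespace Pool.Agent.U776.PL

open MeasureTheory Finset Filter Topology
open Pool.Agent.H305R2 (roughPart)
open Pool.Agent.N176.GP (NB NB_spec NB_div sum_cells)
open Pool.Agent.N176.SH (sh Ok cnt)
open Pool.Agent.N176.OW (kap)

lemma errd_nonneg {C ρ κ : ℝ} (hκ : 0 ≤ κ) (hC : 0 ≤ C) (hρ0 : 0 ≤ ρ) (m : ℕ) (T : Finset ℕ) :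
    0 ≤ errd C ρ κ m T := by
  unfold errd
  refine sum_nonneg fun q _ => add_nonneg (sum_nonneg fun p _ => ?_) (sq_nonneg _)
  have h1 := wt_nonneg p
  have h2 := wt_nonneg q
  positivity

theorem quen_gen {b A : ℕ} {c : ℕ → ℤ} (H : Ok b A c)
    {m A0 B0 : ℕ} (hA0 : 1 ≤ A0) (hAB : A0 < B0) (hB0 : B0 ≤ b ^ (2 * m))
    (S : ℕ → Finset ℕ) (θ : ℕ → ℕ → ℝ) (hθ : ∀ j p, 0 ≤ θ j p ∧ θ j p ≤ 1) (y : ℕ → ℕ)
    (hS : ∀ j, ∀ p ∈ S j, y j ≤ p ∧ p < y (j + 1))
    {V : ℝ} (hV : ∀ᶠ j in atTop, ∑ p ∈ S j, wt p ≤ V)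
    (hclose : ∀ g : ℕ, ∀ δ : ℝ, 0 < δ → ∀ᶠ j in atTop, ∑ p ∈ clo (S j) g, wt p ≤ δ)
    (hthin : ∀ δ : ℝ, 0 < δ → ∀ᶠ j in atTop, ∀ x : ℕ,
      ∑ p ∈ (S j).filter (fun p => x < p ∧ p ≤ 2 * x), wt p ≤ δ)
    {v0 : ℝ} (hv0 : 0 < v0) (hlow : ∀ᶠ j in atTop, v0 ≤ ∑ p ∈ S j, wt p) {L : ℝ}
    (hL : Tendsto (fun j => Real.exp (-(kap b * ∑ p ∈ S j, (1 - θ j p) * wt p))) atTop (𝓝 L)) :
    ∀ᵐ β ∂(mu b m A0 B0),
      Tendsto (fun J : ℕ => (∑ j ∈ range J, G (Ev c b) (S j) (θ j) β) / (J : ℝ)) atTop (𝓝 L) := by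
  classical
  have hb := H.hb
  have hA := H.hA
  have hb0 : (0 : ℝ) < b := by positivity
  have hA' : (0 : ℝ) < A := by exact_mod_cast (by omega : 0 < A)
  have hA64 : (64 : ℝ) ≤ A := by exact_mod_cast hA
  have hk : 0 ≤ kap b := by
    unfold kap
    have : 0 ≤ Real.log b := Real.log_natCast_nonneg b
    positivity
  obtain ⟨C, ρ, hC, hρ0, hρ1, P, hpair⟩ := pair_up H Pool.Agent.N176.SH.All.tu
    Pool.Agent.N897.SH.rb
  obtain ⟨c0, hc0, hc0A, hrr⟩ := rr_small H Pool.Agent.N176.OW.All.fm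
  obtain ⟨K, hK, Q, hQ⟩ := hrr m A0 B0 hA0 hAB hB0
  obtain ⟨m1, P1, hyy⟩ := yy_small hc0
  obtain ⟨m2, P2, hyy2⟩ := yy_small (c := c0 / 2) (by positivity)
  have hc01 : c0 ≤ 1 / 64 := hc0A.trans (by
    rw [div_le_div_iff₀ hA' (by norm_num)]
    linarith)
  have hkw : Tendsto (fun p => kap b * wt p) atTop (𝓝 0) := by
    simpa using wt_tendsto.const_mul (kap b)
  obtain ⟨P3, hP3⟩ := (hkw.eventually_lt_const one_pos).exists_forall_of_atTop
  -- `y` tends to infinity
  have hyinc : ∀ᶠ j in atTop, y j < y (j + 1) := by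
    filter_upwards [hlow] with j hj
    have hne : (S j).Nonempty := by
      rw [Finset.nonempty_iff_ne_empty]
      intro h
      rw [h, sum_empty] at hj
      linarith
    obtain ⟨p, hp⟩ := hne
    have := hS j p hp
    omega
  have hytop : Tendsto y atTop atTop := by
    obtain ⟨J1, hJ1⟩ := eventually_atTop.1 hyinc
    have h1 : ∀ n, n ≤ y (J1 + n) := by
      intro n
      induction n with
      | zero => omega
      | succ n ih =>
        have := hJ1 (J1 + n) (by omega)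
        rw [← add_assoc]
        omega
    refine tendsto_atTop.2 fun M => ?_
    filter_upwards [eventually_ge_atTop (J1 + M)] with j hj
    have h2 := h1 (j - J1)
    rw [show J1 + (j - J1) = j by omega] at h2
    omega
  -- the blocks are long
  have hyz : ∀ᶠ j in atTop, y (j + 1) ≤ zl (c0 / 2) (y (j + 2)) := by
    have h1 := (tendsto_add_atTop_nat 1).eventually hlow
    have h2 := (tendsto_add_atTop_nat 1).eventually (hthin (v0 / (2 * (m2 + 1))) (by positivity))
    have h3 := (tendsto_add_atTop_nat 2).eventually (hytop.eventually_ge_atTop P2)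
    filter_upwards [h1, h2, h3] with j hj1 hj2 hj3
    have h4 := hyy2 (y (j + 2)) hj3
    refine Nat.le_floor (le_trans ?_ h4)
    have h5 : y (j + 1) ≤ yy (y (j + 2)) m2 := by
      by_contra hcon
      have h6 := block_sum hj2 (y (j + 2)) m2
      have h7 : (S (j + 1)).filter (fun p => yy (y (j + 2)) m2 < p ∧ p ≤ y (j + 2)) = S (j + 1) := by
        rw [Finset.filter_eq_self]
        intro p hp
        have h8 := hS (j + 1) p hp
        have h9 : y (j + 1 + 1) = y (j + 2) := rfl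
        omega
      rw [h7] at h6
      have h8 : (m2 : ℝ) * (v0 / (2 * (m2 + 1))) < v0 := by
        have h9 : (m2 : ℝ) * (v0 / (2 * (m2 + 1))) = v0 / 2 * (m2 / (m2 + 1)) := by
          field_simp
        have h10 : (m2 : ℝ) / (m2 + 1) ≤ 1 := by
          rw [div_le_one (by positivity)]
          linarith
        rw [h9]
        nlinarith
      linarith
    exact_mod_cast h5
  have hmz : ∀ᶠ j in atTop, m ≤ zl (c0 / 2) (y j) := by
    have h1 : Tendsto (fun j => c0 / 2 * (y j : ℝ)) atTop atTop :=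
      (tendsto_natCast_atTop_atTop.comp hytop).const_mul_atTop (by positivity)
    filter_upwards [h1.eventually_ge_atTop (m : ℝ)] with j hj
    exact Nat.le_floor hj
  have hbig := hytop.eventually_ge_atTop (P + 2 * A + P1 + P3 + Q + 2)
  obtain ⟨J0, hJ0⟩ := eventually_atTop.1 (hyinc.and (hyz.and (hmz.and (hbig.and hV))))
  have hkey : ∀ j, y (j + J0) < y (j + 1 + J0) ∧ y (j + 1 + J0) ≤ zl (c0 / 2) (y (j + 2 + J0)) ∧
      m ≤ zl (c0 / 2) (y (j + J0)) ∧ P + 2 * A + P1 + P3 + Q + 2 ≤ y (j + J0) ∧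
      ∑ p ∈ S (j + J0), wt p ≤ V := by
    intro j
    obtain ⟨h1, h2, h3, h4, h5⟩ := hJ0 (j + J0) (by omega)
    rw [show j + J0 + 1 = j + 1 + J0 by omega] at h1 h2
    rw [show j + J0 + 2 = j + 2 + J0 by omega] at h2
    exact ⟨h1, h2, h3, h4, h5⟩
  have hdouble : ∀ j, 2 ^ (j + 1) ≤ y (j + J0) := by
    have h1 : ∀ j, 2 * y (j + 1 + J0) ≤ y (j + 2 + J0) := by
      intro j
      have h2 := (hkey j).2.1
      have h3 : (zl (c0 / 2) (y (j + 2 + J0)) : ℝ) ≤ c0 / 2 * y (j + 2 + J0) :=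
        Nat.floor_le (by positivity)
      have h4 : (y (j + 1 + J0) : ℝ) ≤ c0 / 2 * y (j + 2 + J0) :=
        le_trans (by exact_mod_cast h2) h3
      have h5 : (2 : ℝ) * y (j + 1 + J0) ≤ y (j + 2 + J0) := by
        have := Nat.cast_nonneg (α := ℝ) (y (j + 2 + J0))
        nlinarith
      exact_mod_cast h5
    intro j
    induction j with
    | zero =>
      have := (hkey 0).2.2.2.1
      simp only [zero_add, pow_one] at this ⊢
      omega
    | succ j ih =>
      rcases Nat.eq_zero_or_pos j with h | h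
      · subst h
        have h2 := (hkey 1).2.2.2.1
        simp only [zero_add] at h2 ⊢
        have h3 : 2 * A + 2 ≤ y (1 + J0) := by omega
        norm_num
        omega
      · obtain ⟨i, rfl⟩ : ∃ i, j = i + 1 := ⟨j - 1, by omega⟩
        have h3 : i + 1 + 1 + J0 = i + 2 + J0 := by omega
        rw [h3]
        calc 2 ^ (i + 1 + 1 + 1) = 2 * 2 ^ (i + 1 + 1) := by ring
          _ ≤ 2 * y (i + 1 + J0) := Nat.mul_le_mul_left 2 ih
          _ ≤ y (i + 2 + J0) := h1 i
  have herr : Tendsto (fun j => errd C ρ (kap b) m1 (S j)) atTop (𝓝 0) := by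
    rw [Metric.tendsto_atTop]
    intro ε hε
    have hV0 : 0 ≤ max V 0 := le_max_right _ _
    obtain ⟨δ, hδ, P0, hP0⟩ := errd_small (C := C) (ρ := ρ) (κ := kap b) hk hC hρ0 hρ1 m1 hV0
      (half_pos hε)
    obtain ⟨N, hN⟩ := eventually_atTop.1 ((hytop.eventually_ge_atTop P0).and ((hclose P0 δ hδ).and
      ((hthin δ hδ).and hV)))
    refine ⟨N, fun j hj => ?_⟩
    obtain ⟨h1, h2, h3, h4⟩ := hN j hj
    have h5 := (hP0 (S j) (fun p hp => h1.trans (hS j p hp).1) h2 h3 (h4.trans (le_max_left _ _))).1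
    rw [Real.dist_eq, sub_zero, abs_of_nonneg (errd_nonneg hk hC hρ0 _ _)]
    linarith
  have hlast := quen_good H hpair hc0 hc0A (m1 := m1) hA0 hAB hB0 hK (fun j => S (j + J0))
    (fun j => θ (j + J0)) (fun j => hθ (j + J0)) (fun j => y (j + J0))
    (fun j p hp => by
      have h1 := hS (j + J0) p hp
      rw [show j + J0 + 1 = j + 1 + J0 by omega] at h1
      exact h1)
    (fun j => (hkey j).1.le) (fun j => (hkey j).2.1)
    (fun j => by have := (hkey j).2.2.2.1; omega) (fun j => by have := (hkey j).2.2.2.1; omega)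
    hdouble
    (fun q hq => hyy q (by have := (hkey 0).2.2.2.1; simp only [zero_add] at this hq; omega))
    (fun q hq => (hP3 q (by have := (hkey 0).2.2.2.1; simp only [zero_add] at this hq; omega)).le)
    (fun q hq => (hQ q (by have := (hkey 0).2.2.2.1; simp only [zero_add] at this hq; omega)).2)
    (fun j => (hkey j).2.2.1) (V := V) (fun j => (hkey j).2.2.2.2)
    (herr.comp (tendsto_add_atTop_nat J0)) (hL.comp (tendsto_add_atTop_nat J0))
  filter_upwards [hlast] with β hβ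
  exact avg_shift (a := fun j => G (Ev c b) (S j) (θ j) β) J0 hβ

end Pool.Agent.U776.PL
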