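import Mathlib
import Pool.Agent.U776.PL.Quen3

set_option autoImplicit false

/-!
# The quenched law
-/

namespace Pool.Agent.U776.PL

open MeasureTheory Finset Filter Topology
open Pool.Agent.H305R2 (roughPart)
open Pool.Agent.N176.GP (NB NB_spec NB_div sum_cells)
open Pool.Agent.N176.SH (sh Ok cnt)
open Pool.Agent.N176.OW (kap)

/-- the empirical measure -/
noncomputable def emp (J : ℕ) : Measure ℕ :=
  ∑ j ∈ range J, (ENNReal.ofReal (1 / (J : ℝ))) • Measure.dirac j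

instance (J : ℕ) : IsFiniteMeasure (emp J) := by
  unfold emp
  haveI : ∀ j : ℕ, IsFiniteMeasure ((ENNReal.ofReal (1 / (J : ℝ))) • Measure.dirac j : Measure ℕ) :=
    fun j => Measure.smul_finite _ ENNReal.ofReal_ne_top
  infer_instance

lemma emp_int (J : ℕ) (f : ℕ → ℝ) : ∫ j, f j ∂(emp J) = (∑ j ∈ range J, f j) / (J : ℝ) := by
  unfold emp
  rw [integral_finsetSum_measure]
  · rw [sum_div]
    refine sum_congr rfl fun j _ => ?_
    rw [integral_smul_measure, integral_dirac, ENNReal.toReal_ofReal (by positivity), smul_eq_mul]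
    ring
  · intro j _
    refine Integrable.smul_measure ?_ ENNReal.ofReal_ne_top
    exact integrable_dirac (by simp)

lemma emp_real (J : ℕ) (s : Set ℕ) [DecidablePred (· ∈ s)] :
    (emp J).real s = (((range J).filter (· ∈ s)).card : ℝ) / (J : ℝ) := by
  rw [← integral_indicator_one (MeasurableSet.of_discrete (s := s)), emp_int]
  congr 1
  rw [Finset.card_filter]
  push_cast
  refine sum_congr rfl fun j _ => ?_
  by_cases h : j ∈ s
  · rw [Set.indicator_of_mem h, if_pos h]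
    rfl
  · rw [Set.indicator_of_notMem h, if_neg h]

lemma emp_univ (J : ℕ) : (emp J).real Set.univ ≤ 1 := by
  classical
  rw [emp_real]
  have h1 : (range J).filter (· ∈ (Set.univ : Set ℕ)) = range J := by
    ext j
    simp
  rw [h1, card_range]
  exact div_self_le_one _

/-- the windows tend to infinity -/
lemma y_top {S : ℕ → Finset ℕ} {y : ℕ → ℕ} (hS : ∀ j, ∀ p ∈ S j, y j ≤ p ∧ p < y (j + 1))
    {v0 : ℝ} (hv0 : 0 < v0) (hlow : ∀ᶠ j in atTop, v0 ≤ ∑ p ∈ S j, wt p) :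
    Tendsto y atTop atTop := by
  have hyinc : ∀ᶠ j in atTop, y j < y (j + 1) := by
    filter_upwards [hlow] with j hj
    have hne : (S j).Nonempty := by
      rw [Finset.nonempty_iff_ne_empty]
      intro h
      rw [h, sum_empty] at hj
      linarith
    obtain ⟨p, hp⟩ := hne
    have := hS j p hp
    omega
  obtain ⟨J1, hJ1⟩ := eventually_atTop.1 hyinc
  have h1 : ∀ n, n ≤ y (J1 + n) := by
    intro n
    induction n with
    | zero => omega
    | succ n ih =>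
      have := hJ1 (J1 + n) (by omega)
      rw [← add_assoc]
      omega
  refine tendsto_atTop.2 fun M => ?_
  filter_upwards [eventually_ge_atTop (J1 + M)] with j hj
  have h2 := h1 (j - J1)
  rw [show J1 + (j - J1) = j by omega] at h2
  omega

open Classical in
/-- **Quenched law**, one window of amplitudes. -/
theorem quenched_mu {b A : ℕ} {c : ℕ → ℤ} (H : Ok b A c)
    {m A0 B0 : ℕ} (hA0 : 1 ≤ A0) (hAB : A0 < B0) (hB0 : B0 ≤ b ^ (2 * m))
    {ι : Type*} [Fintype ι] (T : ℕ → ι → Finset ℕ) (y : ℕ → ℕ)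
    (hy : ∀ j i, ∀ p ∈ T j i, y j ≤ p ∧ p < y (j + 1))
    (hdisj : ∀ n i j, i ≠ j → Disjoint (T n i) (T n j))
    (hclose : ∀ g : ℕ, ∀ δ : ℝ, 0 < δ → ∀ᶠ n in atTop, ∀ i,
      ∑ p ∈ (T n i).filter (fun p => ∃ j, ∃ q ∈ T n j, p < q ∧ q < p + g), wt p ≤ δ)
    (hthin : ∀ δ : ℝ, 0 < δ → ∀ᶠ n in atTop, ∀ i, ∀ x : ℕ,
      ∑ p ∈ (T n i).filter (fun p => x < p ∧ p ≤ 2 * x), wt p ≤ δ)
    {lam : ι → ℝ} (hlam : ∀ i, Tendsto (fun n => kap b * ∑ p ∈ T n i, wt p) atTop (𝓝 (lam i)))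
    (hpos : 0 < ∑ i, lam i) :
    ∀ᵐ β ∂(mu b m A0 B0), ∀ k : ι → ℕ,
      Tendsto (fun J : ℕ => (((range J).filter
        (fun j => ∀ i, NE (Ev c b) (T j i) β = k i)).card : ℝ) / (J : ℝ)) atTop
        (𝓝 (∏ i, pois (lam i) (k i))) := by
  have hb := H.hb
  have hb0 : (0 : ℝ) < b := by positivity
  have hκ : 0 < kap b := by
    unfold kap
    have : 0 < Real.log b := Real.log_pos (by exact_mod_cast hb)
    positivity
  have hlam0 : ∀ i, 0 ≤ lam i := fun i =>
    ge_of_tendsto' (hlam i) fun n => mul_nonneg hκ.le (Finset.sum_nonneg fun p _ => wt_nonneg p)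
  have hSy : ∀ j, ∀ p ∈ Finset.univ.biUnion (T j), y j ≤ p ∧ p < y (j + 1) := by
    intro j p hp
    rw [mem_biUnion] at hp
    obtain ⟨i, _, hi⟩ := hp
    exact hy j i p hi
  have hsumT : Tendsto (fun n => ∑ p ∈ Finset.univ.biUnion (T n), wt p) atTop
      (𝓝 ((∑ i, lam i) / kap b)) := by
    have h1 : Tendsto (fun n => (∑ i, kap b * ∑ p ∈ T n i, wt p) / kap b) atTop
        (𝓝 ((∑ i, lam i) / kap b)) :=
      (tendsto_finsetSum _ fun i _ => hlam i).div_const _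
    refine h1.congr fun n => ?_
    rw [← mul_sum, mul_div_cancel_left₀ _ hκ.ne',
      Finset.sum_biUnion (fun i _ j _ hij => hdisj n i j hij)]
  have hlpos : 0 < (∑ i, lam i) / kap b := by positivity
  have hlow : ∀ᶠ j in atTop, (∑ i, lam i) / kap b / 2 ≤ ∑ p ∈ Finset.univ.biUnion (T j), wt p := by
    filter_upwards [hsumT.eventually (lt_mem_nhds (half_lt_self hlpos))] with n hn
    exact hn.le
  have hytop := y_top hSy (half_pos hlpos) hlow
  have hT : Thin T := by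
    refine ⟨hdisj, fun M => ?_, fun g δ hδ => ?_, hthin⟩
    · filter_upwards [hytop.eventually_ge_atTop M] with n hn i p hp
      exact hn.trans (hy n i p hp).1
    · filter_upwards [hclose g δ hδ] with n hn i
      refine le_trans (le_of_eq ?_) (hn i)
      exact Finset.sum_congr (Finset.ext fun p => by simp only [mem_filter]) fun _ _ => rfl
  obtain ⟨hV0, hsumV, hlarge, hclo, hth⟩ := union_small hT hκ hlam
  have ht : ∀ (r : ι → ℕ) (i : ι), 0 ≤ 1 / ((r i : ℝ) + 1) ∧ 1 / ((r i : ℝ) + 1) ≤ 1 := by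
    intro r i
    have := Nat.cast_nonneg (α := ℝ) (r i)
    refine ⟨by positivity, ?_⟩
    rw [div_le_one (by positivity)]
    linarith
  have hgen : ∀ r : ι → ℕ, ∀ᵐ β ∂(mu b m A0 B0),
      Tendsto (fun J : ℕ => (∑ j ∈ range J, ∏ i, (1 / ((r i : ℝ) + 1)) ^ NE (Ev c b) (T j i) β) /
        (J : ℝ)) atTop (𝓝 (∏ i, Real.exp (-(lam i * (1 - 1 / ((r i : ℝ) + 1)))))) := by
    intro r
    have h1 := quen_gen H (m := m) hA0 hAB hB0 (fun j => Finset.univ.biUnion (T j))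
      (fun j p => ∏ i, if p ∈ T j i then 1 / ((r i : ℝ) + 1) else 1)
      (fun j p => theta_01 (T j) (fun i => 1 / ((r i : ℝ) + 1)) (ht r) p) y hSy hsumV hclo hth
      (half_pos hlpos) hlow (exp_tendsto hdisj hlam fun i => 1 / ((r i : ℝ) + 1))
    filter_upwards [h1] with β hβ
    refine hβ.congr fun J => ?_
    congr 1
    refine sum_congr rfl fun j _ => ?_
    exact G_union (T j) (hdisj j) (fun i => 1 / ((r i : ℝ) + 1)) β
  filter_upwards [ae_all_iff.2 hgen] with β hβ k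
  have h2 := joint_of_gen (μ := emp) (M := 1) emp_univ
    (N := fun _ i j => NE (Ev c b) (T j i) β) (fun _ i => measurable_of_countable _)
    (A := 1) zero_le_one hlam0 (fun r => by
      simp only [emp_int, one_mul]
      exact hβ r) k
  rw [one_mul] at h2
  refine h2.congr fun J => ?_
  rw [emp_real]
  rfl

open Classical in
/-- **Quenched law.** -/
theorem quenched {b A : ℕ} {c : ℕ → ℤ} (H : Ok b A c)
    {ι : Type*} [Fintype ι] (T : ℕ → ι → Finset ℕ) (y : ℕ → ℕ)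
    (hy : ∀ j i, ∀ p ∈ T j i, y j ≤ p ∧ p < y (j + 1))
    (hdisj : ∀ n i j, i ≠ j → Disjoint (T n i) (T n j))
    (hclose : ∀ g : ℕ, ∀ δ : ℝ, 0 < δ → ∀ᶠ n in atTop, ∀ i,
      ∑ p ∈ (T n i).filter (fun p => ∃ j, ∃ q ∈ T n j, p < q ∧ q < p + g), wt p ≤ δ)
    (hthin : ∀ δ : ℝ, 0 < δ → ∀ᶠ n in atTop, ∀ i, ∀ x : ℕ,
      ∑ p ∈ (T n i).filter (fun p => x < p ∧ p ≤ 2 * x), wt p ≤ δ)
    {lam : ι → ℝ} (hlam : ∀ i, Tendsto (fun n => kap b * ∑ p ∈ T n i, wt p) atTop (𝓝 (lam i)))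
    (hpos : 0 < ∑ i, lam i) :
    ∀ᵐ β : ℝ, 0 < β → ∀ k : ι → ℕ,
      Tendsto (fun J : ℕ => (((range J).filter
        (fun j => ∀ i, NE (Ev c b) (T j i) β = k i)).card : ℝ) / (J : ℝ)) atTop
        (𝓝 (∏ i, pois (lam i) (k i))) := by
  have hb := H.hb
  have hb1 : (1 : ℝ) < b := by exact_mod_cast (by omega : 1 < b)
  have h1 : ∀ m : ℕ, ∀ᵐ β : ℝ, β ∈ Set.Ioc ((1 : ℕ) / (b : ℝ) ^ (m + 1))
      (((b ^ (2 * (m + 1)) : ℕ) : ℝ) / (b : ℝ) ^ (m + 1)) → ∀ k : ι → ℕ,
      Tendsto (fun J : ℕ => (((range J).filter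
        (fun j => ∀ i, NE (Ev c b) (T j i) β = k i)).card : ℝ) / (J : ℝ)) atTop
        (𝓝 (∏ i, pois (lam i) (k i))) := by
    intro m
    have h2 := quenched_mu H (m := m + 1) (A0 := 1) (B0 := b ^ (2 * (m + 1))) le_rfl
      (Nat.one_lt_pow (by omega) (by omega)) le_rfl T y hy hdisj hclose hthin hlam hpos
    unfold mu at h2
    rw [ae_restrict_iff' measurableSet_Ioc] at h2
    exact h2
  filter_upwards [ae_all_iff.2 h1] with β hβ hβ0
  have hlim := tendsto_pow_atTop_atTop_of_one_lt hb1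
  obtain ⟨m, hm1, hm2⟩ := ((hlim.eventually_gt_atTop (1 / β)).and
    (hlim.eventually_ge_atTop β)).exists
  have hm3 : (b : ℝ) ^ m ≤ (b : ℝ) ^ (m + 1) := pow_le_pow_right₀ hb1.le (Nat.le_succ m)
  refine hβ m ⟨?_, ?_⟩
  · rw [div_lt_iff₀ (by positivity)]
    rw [div_lt_iff₀ hβ0] at hm1
    push_cast
    nlinarith
  · rw [le_div_iff₀ (by positivity)]
    push_cast
    have h2 : (b : ℝ) ^ (2 * (m + 1)) = (b : ℝ) ^ (m + 1) * (b : ℝ) ^ (m + 1) := by
      rw [← pow_add]; congr 1; omega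
    rw [h2]
    have : (0 : ℝ) ≤ (b : ℝ) ^ (m + 1) := by positivity
    nlinarith

end Pool.Agent.U776.PL
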