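import Mathlib
import Pool.Agent.U776.PL.Main
import Pool.Agent.U776.PL.Dens
import Pool.Agent.U776.PL.Quen4

set_option autoImplicit false

/-!
# The laws for shifted digits
-/

namespace Pool.Agent.U776.PL

open MeasureTheory Finset Filter Topology
open Pool.Agent.H305R2 (roughPart)
open Pool.Agent.N176.GP (NB)
open Pool.Agent.N176.SH (sh Ok)
open Pool.Agent.N176.OW (kap)

/-- the good exponents in a finite set -/
noncomputable def NS (c : ℕ → ℤ) (b : ℕ) (T : Finset ℕ) (β : ℝ) : ℕ :=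
  (T.filter (fun p => (roughPart p (sh c p (NB b β p))).Prime)).card

lemma NE_eq (c : ℕ → ℤ) (b : ℕ) (T : Finset ℕ) (β : ℝ) : NE (Ev c b) T β = NS c b T β := by
  classical
  unfold NE NS
  congr 1
  exact Finset.filter_congr fun p _ => Iff.rfl

lemma ok_zero {b : ℕ} (hb : 2 ≤ b) : Ok b 64 (fun _ => 0) :=
  ⟨hb, le_rfl, fun p _ => by simp only [abs_zero, zero_mul]; positivity, Or.inl fun _ => rfl⟩

lemma ok_one {b : ℕ} (hb : 2 ≤ b) : Ok b 64 (fun _ => 1) :=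
  ⟨hb, le_rfl, fun p hp => by
    rw [abs_one, one_mul]
    exact pow_le_pow_right₀ (by omega) (by omega), Or.inr (Or.inl fun _ => rfl)⟩

variable {ι : Type*} [Fintype ι]

/-- **Annealed law** for every absolutely continuous law of the amplitude. -/
theorem annealed {b A : ℕ} {c : ℕ → ℤ} (H : Ok b A c) {T : ℕ → ι → Finset ℕ} (hT : Thin T)
    {lam : ι → ℝ} (hlam : ∀ i, Tendsto (fun n => kap b * ∑ p ∈ T n i, wt p) atTop (𝓝 (lam i)))
    (μ : Measure ℝ) [IsProbabilityMeasure μ] (hac : μ ≪ volume) (hpos : ∀ᵐ x ∂μ, 0 < x)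
    (k : ι → ℕ) :
    Tendsto (fun n => μ.real {β | ∀ i, NS c b (T n i) β = k i}) atTop
      (𝓝 (∏ i, pois (lam i) (k i))) := by
  classical
  have hb := H.hb
  have hlam0 : ∀ i, 0 ≤ lam i := fun i =>
    ge_of_tendsto' (hlam i) fun n => mul_nonneg (kap_pos hb).le (sum_nonneg fun p _ => wt_nonneg p)
  have h0 : 0 ≤ ∏ i, pois (lam i) (k i) := prod_nonneg fun i _ => pois_nonneg (hlam0 i) (k i)
  have h1 : ∏ i, pois (lam i) (k i) ≤ 1 := by
    have h2 := law_Ioc H hT hlam k le_rfl (show (0 : ℝ) < 1 by norm_num)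
    rw [sub_zero, one_mul] at h2
    refine le_of_tendsto' h2 fun n => ?_
    have h3 : volume.real (Set.Ioc (0 : ℝ) 1 ∩ EV (Ev c b) (T n) k) ≤ volume.real (Set.Ioc (0 : ℝ) 1) :=
      measureReal_mono Set.inter_subset_left (by rw [Real.volume_Ioc]; exact ENNReal.ofReal_ne_top)
    rw [Real.volume_real_Ioc_of_le (by norm_num)] at h3
    linarith
  have h := dens_ac (A := fun n => EV (Ev c b) (T n) k)
    (fun n => EV_measurable (Ev_measurable c b) (T n) k) h0 h1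
    (fun B hB M hM => law_set H hT hlam k hB M hM) μ hac hpos
  refine h.congr fun n => ?_
  unfold EV
  simp only [NE_eq]

open Classical in
/-- **Quenched law.** -/
theorem quenched' {b A : ℕ} {c : ℕ → ℤ} (H : Ok b A c)
    (T : ℕ → ι → Finset ℕ) (y : ℕ → ℕ)
    (hy : ∀ j i, ∀ p ∈ T j i, y j ≤ p ∧ p < y (j + 1))
    (hdisj : ∀ n i j, i ≠ j → Disjoint (T n i) (T n j))
    (hclose : ∀ g : ℕ, ∀ δ : ℝ, 0 < δ → ∀ᶠ n in atTop, ∀ i,
      ∑ p ∈ (T n i).filter (fun p => ∃ j, ∃ q ∈ T n j, p < q ∧ q < p + g), wt p ≤ δ)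
    (hthin : ∀ δ : ℝ, 0 < δ → ∀ᶠ n in atTop, ∀ i, ∀ x : ℕ,
      ∑ p ∈ (T n i).filter (fun p => x < p ∧ p ≤ 2 * x), wt p ≤ δ)
    {lam : ι → ℝ} (hlam : ∀ i, Tendsto (fun n => kap b * ∑ p ∈ T n i, wt p) atTop (𝓝 (lam i)))
    (hpos : 0 < ∑ i, lam i) :
    ∀ᵐ β : ℝ, 0 < β → ∀ k : ι → ℕ,
      Tendsto (fun J : ℕ => (((range J).filter
        (fun j => ∀ i, NS c b (T j i) β = k i)).card : ℝ) / (J : ℝ)) atTop
        (𝓝 (∏ i, pois (lam i) (k i))) := by
  have h := quenched H T y hy hdisj hclose hthin hlam hpos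
  simp only [NE_eq] at h
  exact h

/-- families in successive windows tend to infinity -/
lemma large_of_windows {T : ℕ → ι → Finset ℕ} {y : ℕ → ℕ}
    (hy : ∀ j i, ∀ p ∈ T j i, y j ≤ p ∧ p < y (j + 1))
    (hdisj : ∀ n i j, i ≠ j → Disjoint (T n i) (T n j)) {v : ι → ℝ}
    (hv : ∀ i, Tendsto (fun n => ∑ p ∈ T n i, wt p) atTop (𝓝 (v i))) (hpos : 0 < ∑ i, v i) (M : ℕ) :
    ∀ᶠ n in atTop, ∀ i, ∀ p ∈ T n i, M ≤ p := by
  classical
  have hSy : ∀ j, ∀ p ∈ Finset.univ.biUnion (T j), y j ≤ p ∧ p < y (j + 1) := by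
    intro j p hp
    rw [mem_biUnion] at hp
    obtain ⟨i, _, hi⟩ := hp
    exact hy j i p hi
  have hsumT : Tendsto (fun n => ∑ p ∈ Finset.univ.biUnion (T n), wt p) atTop (𝓝 (∑ i, v i)) := by
    refine (tendsto_finsetSum _ fun i _ => hv i).congr fun n => ?_
    rw [Finset.sum_biUnion (fun i _ j _ hij => hdisj n i j hij)]
  have hlow : ∀ᶠ j in atTop, (∑ i, v i) / 2 ≤ ∑ p ∈ Finset.univ.biUnion (T j), wt p := by
    filter_upwards [hsumT.eventually (lt_mem_nhds (half_lt_self hpos))] with n hn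
    exact hn.le
  filter_upwards [(y_top hSy (half_pos hpos) hlow).eventually_ge_atTop M] with n hn i p hp
  exact hn.trans (hy n i p hp).1

end Pool.Agent.U776.PL
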