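import Mathlib
import Pool.Agent.U776.PL.Fin

set_option autoImplicit false

/-!
# The quenched law for consecutive blocks
-/

namespace Pool.Agent.U776.PL

open MeasureTheory Finset Filter Topology
open Pool.Agent.H305R2 (roughPart)
open Pool.Agent.N176.GP (NB)
open Pool.Agent.N176.SH (sh Ok)
open Pool.Agent.N176.OW (kap)

/-- averages over all residues -/
lemma avg_merge {a : ℕ → ℝ} {L : ℝ} {r : ℕ} (hr : 1 ≤ r) (hb : ∀ n, |a n| ≤ 1)
    (h : ∀ s < r, Tendsto (fun J : ℕ => (∑ j ∈ range J, a (r * j + s)) / (J : ℝ)) atTop (𝓝 L)) :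
    Tendsto (fun m : ℕ => (∑ n ∈ range m, a n) / (m : ℝ)) atTop (𝓝 L) := by
  have hr0 : (0 : ℝ) < r := by exact_mod_cast hr
  have hdiv : Tendsto (fun m : ℕ => m / r) atTop atTop := by
    refine tendsto_atTop.2 fun M => ?_
    filter_upwards [eventually_ge_atTop (M * r)] with m hm
    exact (Nat.le_div_iff_mul_le hr).2 hm
  have h1 : Tendsto (fun m : ℕ => ∑ s ∈ range r, (∑ j ∈ range (m / r), a (r * j + s)) /
      ((m / r : ℕ) : ℝ)) atTop (𝓝 (∑ s ∈ range r, L)) :=
    tendsto_finsetSum _ fun s hs => (h s (mem_range.1 hs)).comp hdiv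
  rw [sum_const, card_range, nsmul_eq_mul] at h1
  have h2 : Tendsto (fun m : ℕ => ((m / r : ℕ) : ℝ) / (m : ℝ)) atTop (𝓝 (1 / r)) := by
    have h3 : Tendsto (fun m : ℕ => 1 / (r : ℝ) - ((m % r : ℕ) : ℝ) / r / (m : ℝ)) atTop
        (𝓝 (1 / r - 0)) := by
      refine tendsto_const_nhds.sub ?_
      refine squeeze_zero (fun m => by positivity) (fun m => ?_)
        (tendsto_const_div_atTop_nhds_zero_nat (1 : ℝ))
      refine div_le_div_of_nonneg_right ?_ (Nat.cast_nonneg m)
      rw [div_le_one hr0]
      exact_mod_cast (Nat.mod_lt m hr).le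
    rw [sub_zero] at h3
    refine h3.congr' ?_
    filter_upwards [eventually_ge_atTop 1] with m hm
    have hm0 : (0 : ℝ) < m := by exact_mod_cast hm
    have h4 : (m : ℝ) = r * ((m / r : ℕ) : ℝ) + ((m % r : ℕ) : ℝ) := by
      exact_mod_cast (Nat.div_add_mod m r).symm
    have h5 : ((m % r : ℕ) : ℝ) = m - r * ((m / r : ℕ) : ℝ) := by linarith
    rw [h5]
    field_simp
    ring
  have h3 := h1.mul h2
  have e1 : (r : ℝ) * L * (1 / r) = L := by field_simp
  rw [e1] at h3
  have h4 : Tendsto (fun m : ℕ => (∑ n ∈ range m, a n) / (m : ℝ) -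
      (∑ s ∈ range r, (∑ j ∈ range (m / r), a (r * j + s)) / ((m / r : ℕ) : ℝ)) *
        (((m / r : ℕ) : ℝ) / (m : ℝ))) atTop (𝓝 0) := by
    refine squeeze_zero_norm' ?_ (tendsto_const_div_atTop_nhds_zero_nat (r : ℝ))
    filter_upwards [eventually_ge_atTop r] with m hm
    have hm0 : (0 : ℝ) < m := by exact_mod_cast (lt_of_lt_of_le hr hm)
    have hJ : 1 ≤ m / r := (Nat.le_div_iff_mul_le hr).2 (by omega)
    have hJ0 : (0 : ℝ) < ((m / r : ℕ) : ℝ) := by exact_mod_cast hJ
    have e2 : (∑ s ∈ range r, (∑ j ∈ range (m / r), a (r * j + s)) / ((m / r : ℕ) : ℝ)) *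
        (((m / r : ℕ) : ℝ) / (m : ℝ)) = (∑ n ∈ range (r * (m / r)), a n) / (m : ℝ) := by
      rw [← sum_div]
      have e3 : ∑ s ∈ range r, ∑ j ∈ range (m / r), a (r * j + s) = ∑ n ∈ range (r * (m / r)), a n := by
        rw [sum_comm]
        have : ∀ J : ℕ, ∑ j ∈ range J, ∑ s ∈ range r, a (r * j + s) = ∑ n ∈ range (r * J), a n := by
          intro J
          induction J with
          | zero => simp
          | succ J ih =>
            rw [sum_range_succ, ih, Nat.mul_succ, Finset.sum_range_add]
        exact this _
      rw [e3]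
      field_simp
    rw [e2, ← sub_div, norm_div, Real.norm_eq_abs, Real.norm_eq_abs, abs_of_pos hm0]
    refine div_le_div_of_nonneg_right ?_ hm0.le
    have e3 : ∑ n ∈ range m, a n - ∑ n ∈ range (r * (m / r)), a n =
        ∑ n ∈ Ico (r * (m / r)) m, a n := by
      rw [Finset.sum_Ico_eq_sub _ (Nat.mul_div_le m r)]
    rw [e3]
    refine (abs_sum_le_sum_abs _ _).trans ((sum_le_sum fun n _ => hb n).trans ?_)
    rw [sum_const, Nat.card_Ico, nsmul_eq_mul, mul_one]
    have h5 : m - r * (m / r) ≤ r := by
      have := Nat.mod_lt m hr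
      have := Nat.div_add_mod m r
      omega
    exact_mod_cast h5
  have h5 := h4.add h3
  rw [zero_add] at h5
  refine h5.congr fun m => ?_
  ring

variable {ι : Type*} [Fintype ι]

open Classical in
/-- **Quenched law** for the tuples of consecutive blocks. -/
theorem quenched_tuples {b A : ℕ} {c : ℕ → ℤ} (H : Ok b A c)
    (T : ℕ → ι → Finset ℕ) (y : ℕ → ℕ) (hmono : Monotone y)
    (hy : ∀ j i, ∀ p ∈ T j i, y j ≤ p ∧ p < y (j + 1))
    (hdisj : ∀ n i j, i ≠ j → Disjoint (T n i) (T n j))
    (hclose : ∀ g : ℕ, ∀ δ : ℝ, 0 < δ → ∀ᶠ n in atTop, ∀ i,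
      ∑ p ∈ (T n i).filter (fun p => ∃ j, ∃ q ∈ T n j, p < q ∧ q < p + g), wt p ≤ δ)
    (hthin : ∀ δ : ℝ, 0 < δ → ∀ᶠ n in atTop, ∀ i, ∀ x : ℕ,
      ∑ p ∈ (T n i).filter (fun p => x < p ∧ p ≤ 2 * x), wt p ≤ δ)
    {v : ι → ℝ} (hv : ∀ i, Tendsto (fun n => ∑ p ∈ T n i, wt p) atTop (𝓝 (v i)))
    (hpos : 0 < ∑ i, v i) :
    ∀ᵐ β : ℝ, 0 < β → ∀ (r : ℕ) (k : Fin r → ι → ℕ),
      Tendsto (fun J : ℕ => (((range J).filter
        (fun j => ∀ (l : Fin r) (i : ι), NS c b (T (j + l) i) β = k l i)).card : ℝ) / (J : ℝ)) atTop
        (𝓝 (∏ l, ∏ i, pois (kap b * v i) (k l i))) := by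
  have hκ := kap_pos H.hb
  have key : ∀ r : ℕ, ∀ s : ℕ, ∀ᵐ β : ℝ, 1 ≤ r → 0 < β → ∀ k : Fin r × ι → ℕ,
      Tendsto (fun J : ℕ => (((range J).filter
        (fun j => ∀ x : Fin r × ι, NS c b (T (r * j + s + x.1) x.2) β = k x)).card : ℝ) / (J : ℝ))
        atTop (𝓝 (∏ x : Fin r × ι, pois (kap b * v x.2) (k x))) := by
    intro r s
    by_cases hr : 1 ≤ r
    · have hlim : ∀ l : ℕ, Tendsto (fun j : ℕ => r * j + s + l) atTop atTop := by
        intro l
        refine tendsto_atTop.2 fun M => ?_
        filter_upwards [eventually_ge_atTop M] with j hj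
        nlinarith
      have h := quenched' H (fun j (x : Fin r × ι) => T (r * j + s + x.1) x.2) (fun j => y (r * j + s))
        (fun j x p hp => by
          have h1 := hy _ _ p hp
          have h2 : y (r * j + s) ≤ y (r * j + s + x.1) := hmono (by omega)
          have h3 : y (r * j + s + x.1 + 1) ≤ y (r * (j + 1) + s) := hmono (by
            have := x.1.2
            nlinarith)
          omega)
        (fun n x x' hxx => by
          by_cases h1 : x.1 = x'.1
          · rw [h1]
            refine hdisj _ _ _ fun h2 => hxx (Prod.ext h1 h2)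
          · rw [Finset.disjoint_left]
            intro p hp hp'
            have h2 := hy _ _ p hp
            have h3 := hy _ _ p hp'
            have h4 : (x.1 : ℕ) ≠ x'.1 := fun h5 => h1 (Fin.ext h5)
            rcases lt_or_gt_of_ne h4 with h5 | h5
            · have h6 : y (r * n + s + x.1 + 1) ≤ y (r * n + s + x'.1) := hmono (by omega)
              omega
            · have h6 : y (r * n + s + x'.1 + 1) ≤ y (r * n + s + x.1) := hmono (by omega)
              omega)
        (fun g δ hδ => by
          -- close pairs
          have hlarge := large_of_windows hy hdisj hv hpos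
          obtain ⟨M, hM⟩ := eventually_atTop.1
            (wt_tendsto.eventually (gt_mem_nhds (show (0 : ℝ) < δ / (2 * (g + 1)) by positivity)))
          have h1 : ∀ᶠ n in atTop, ∀ i, ∑ p ∈ (T n i).filter
              (fun p => (∃ j, ∃ q ∈ T n j, p < q ∧ q < p + g) ∨ y (n + 1) < p + g), wt p ≤ δ := by
            filter_upwards [hclose g (δ / 2) (by positivity), hlarge M] with n hn1 hn2 i
            rw [Finset.filter_or]
            have h2 := Finset.sum_union_inter
              (s₁ := (T n i).filter (fun p => ∃ j, ∃ q ∈ T n j, p < q ∧ q < p + g))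
              (s₂ := (T n i).filter (fun p => y (n + 1) < p + g)) (f := wt)
            have h3 : 0 ≤ ∑ p ∈ (T n i).filter (fun p => ∃ j, ∃ q ∈ T n j, p < q ∧ q < p + g) ∩
                (T n i).filter (fun p => y (n + 1) < p + g), wt p :=
              sum_nonneg fun p _ => wt_nonneg p
            have h4 : ∑ p ∈ (T n i).filter (fun p => y (n + 1) < p + g), wt p ≤ δ / 2 := by
              have h5 : ∀ p ∈ (T n i).filter (fun p => y (n + 1) < p + g), wt p ≤ δ / (2 * (g + 1)) := by
                intro p hp
                exact (hM p (hn2 i p (mem_filter.1 hp).1)).le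
              refine (sum_le_sum h5).trans ?_
              rw [sum_const, nsmul_eq_mul]
              have h6 : ((T n i).filter (fun p => y (n + 1) < p + g)).card ≤ g := by
                have h7 : (T n i).filter (fun p => y (n + 1) < p + g) ⊆
                    Ico (y (n + 1) - g) (y (n + 1)) := by
                  intro p hp
                  rw [mem_filter] at hp
                  have := hy n i p hp.1
                  rw [mem_Ico]
                  omega
                refine (card_le_card h7).trans ?_
                rw [Nat.card_Ico]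
                omega
              have h7 : (((T n i).filter (fun p => y (n + 1) < p + g)).card : ℝ) ≤ g := by
                exact_mod_cast h6
              calc _ ≤ (g : ℝ) * (δ / (2 * (g + 1))) :=
                    mul_le_mul_of_nonneg_right h7 (by positivity)
                _ = δ / 2 * (g / (g + 1)) := by field_simp
                _ ≤ δ / 2 * 1 := by
                    refine mul_le_mul_of_nonneg_left ?_ (by positivity)
                    rw [div_le_one (by positivity)]
                    linarith
                _ = δ / 2 := mul_one _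
            have h5 := hn1 i
            linarith
          have h2 : ∀ᶠ j in atTop, ∀ x : Fin r × ι, ∑ p ∈ (T (r * j + s + x.1) x.2).filter
              (fun p => (∃ i, ∃ q ∈ T (r * j + s + x.1) i, p < q ∧ q < p + g) ∨
                y (r * j + s + x.1 + 1) < p + g), wt p ≤ δ := by
            rw [eventually_all]
            intro x
            filter_upwards [(hlim x.1).eventually h1] with j hj
            exact hj x.2
          filter_upwards [h2] with j hj x
          refine le_trans ?_ (hj x)
          refine Finset.sum_le_sum_of_subset_of_nonneg ?_ fun p _ _ => wt_nonneg p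
          intro p hp
          rw [mem_filter] at hp ⊢
          refine ⟨hp.1, ?_⟩
          obtain ⟨x', q, hq, hpq, hqg⟩ := hp.2
          have h3 := hy _ _ p hp.1
          have h4 := hy _ _ q hq
          by_cases h5 : (x'.1 : ℕ) = x.1
          · left
            rw [h5] at hq
            exact ⟨x'.2, q, hq, hpq, hqg⟩
          · right
            rcases lt_or_gt_of_ne h5 with h6 | h6
            · have h7 : y (r * j + s + x'.1 + 1) ≤ y (r * j + s + x.1) := hmono (by omega)
              omega
            · have h7 : y (r * j + s + x.1 + 1) ≤ y (r * j + s + x'.1) := hmono (by omega)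
              omega)
        (fun δ hδ => by
          rw [eventually_all]
          intro x
          filter_upwards [(hlim x.1).eventually (hthin δ hδ)] with j hj
          exact hj x.2)
        (lam := fun x => kap b * v x.2)
        (fun x => ((hv x.2).comp (hlim x.1)).const_mul (kap b))
        (by
          rw [← Finset.mul_sum, Fintype.sum_prod_type]
          simp only [Finset.sum_const, Finset.card_univ, Fintype.card_fin, nsmul_eq_mul]
          have : (0 : ℝ) < r := by exact_mod_cast hr
          positivity)
      filter_upwards [h] with β hβ _ h0 k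
      exact hβ h0 k
    · exact Eventually.of_forall fun β h => absurd h hr
  filter_upwards [ae_all_iff.2 fun r => ae_all_iff.2 (key r)] with β hβ h0 r k
  rcases Nat.eq_zero_or_pos r with hr | hr
  · subst hr
    have h1 : Tendsto (fun J : ℕ => (1 : ℝ)) atTop (𝓝 1) := tendsto_const_nhds
    simp only [Finset.univ_eq_empty, Finset.prod_empty, IsEmpty.forall_iff, Finset.filter_true,
      Finset.card_range]
    refine h1.congr' ?_
    filter_upwards [eventually_ge_atTop 1] with J hJ
    have : (0 : ℝ) < J := by exact_mod_cast hJ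
    rw [div_self this.ne']
  · have h1 := avg_merge (a := fun n => if ∀ (l : Fin r) (i : ι), NS c b (T (n + l) i) β = k l i
        then (1 : ℝ) else 0) hr (fun n => by split_ifs <;> simp) (L := ∏ l, ∏ i, pois (kap b * v i) (k l i))
      (fun s hs => by
        have h2 := hβ r s hr h0 (fun x => k x.1 x.2)
        rw [Fintype.prod_prod_type] at h2
        refine h2.congr fun J => ?_
        rw [Finset.card_filter]
        push_cast
        congr 1
        refine sum_congr rfl fun j _ => ?_
        refine if_congr ?_ rfl rfl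
        exact ⟨fun h l i => h (l, i), fun h x => h x.1 x.2⟩)
    refine h1.congr fun J => ?_
    rw [Finset.card_filter]
    push_cast
    rfl

end Pool.Agent.U776.PL
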