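import Mathlib

set_option autoImplicit false

/-!
# Poisson law for rare events with asymptotic independence of the remote past: generating functional

`E p` are events of weight `κ log p / p`.  Assume the pair bound
`μ (E p ∩ E q) ≤ C (w p * w q + w p * ρ ^ (q - p))` and that `E q` is asymptotically independent of the
events `E p` with `p ≤ c q`.  Then for thin sets `T` the mean of `∏_{p ∈ T, E p} θ p` is near to
`exp (-κ ∑_{p ∈ T} (1 - θ p) w p)`.
-/

namespace Pool.Agent.U776.PL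

open MeasureTheory Finset Filter Topology

variable {Ω : Type*} [MeasurableSpace Ω]

/-- the weight of an exponent -/
noncomputable def wt (p : ℕ) : ℝ := Real.log p / p

lemma wt_nonneg (p : ℕ) : 0 ≤ wt p := div_nonneg (Real.log_natCast_nonneg p) (Nat.cast_nonneg p)

open Classical in
/-- the product of the weights `θ p` over the `p ∈ S` with `x ∈ E p` -/
noncomputable def G (E : ℕ → Set Ω) (S : Finset ℕ) (θ : ℕ → ℝ) (x : Ω) : ℝ :=
  ∏ p ∈ S, if x ∈ E p then θ p else 1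

section basic

variable {E : ℕ → Set Ω} {θ : ℕ → ℝ}

omit [MeasurableSpace Ω] in
lemma fac_bounds (hθ : ∀ p, 0 ≤ θ p ∧ θ p ≤ 1) (p : ℕ) (x : Ω) [Decidable (x ∈ E p)] :
    0 ≤ (if x ∈ E p then θ p else 1) ∧ (if x ∈ E p then θ p else 1) ≤ 1 := by
  split_ifs
  · exact hθ p
  · exact ⟨zero_le_one, le_rfl⟩

omit [MeasurableSpace Ω] in
lemma G_nonneg (hθ : ∀ p, 0 ≤ θ p ∧ θ p ≤ 1) (S : Finset ℕ) (x : Ω) : 0 ≤ G E S θ x := by
  classical
  exact Finset.prod_nonneg fun p _ => (fac_bounds hθ p x).1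

omit [MeasurableSpace Ω] in
lemma G_le_one (hθ : ∀ p, 0 ≤ θ p ∧ θ p ≤ 1) (S : Finset ℕ) (x : Ω) : G E S θ x ≤ 1 := by
  classical
  exact Finset.prod_le_one (fun p _ => (fac_bounds hθ p x).1) fun p _ => (fac_bounds hθ p x).2

lemma G_measurable (hE : ∀ p, MeasurableSet (E p)) (S : Finset ℕ) (θ : ℕ → ℝ) :
    Measurable (G E S θ) := by
  classical
  unfold G
  refine Finset.measurable_prod S fun p _ => ?_
  exact Measurable.ite (hE p) measurable_const measurable_const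

lemma G_integrable {μ : Measure Ω} [IsFiniteMeasure μ] (hE : ∀ p, MeasurableSet (E p))
    (hθ : ∀ p, 0 ≤ θ p ∧ θ p ≤ 1) (S : Finset ℕ) : Integrable (G E S θ) μ := by
  refine (integrable_const (1 : ℝ)).mono' (G_measurable hE S θ).aestronglyMeasurable ?_
  filter_upwards with x
  rw [Real.norm_eq_abs, abs_of_nonneg (G_nonneg hθ S x)]
  exact G_le_one hθ S x

omit [MeasurableSpace Ω] in
lemma G_insert {S : Finset ℕ} {q : ℕ} (hq : q ∉ S) (x : Ω) :
    G E (insert q S) θ x = G E S θ x - (1 - θ q) * (E q).indicator (G E S θ) x := by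
  classical
  unfold G
  rw [Finset.prod_insert hq]
  by_cases h : x ∈ E q
  · rw [if_pos h, Set.indicator_of_mem h]; ring
  · rw [if_neg h, Set.indicator_of_notMem h]; ring

/-- `1 - ∏ a ≤ ∑ (1 - a)` -/
lemma one_sub_prod_le {ι : Type*} (S : Finset ι) (a : ι → ℝ) (h : ∀ i ∈ S, 0 ≤ a i ∧ a i ≤ 1) :
    1 - ∏ i ∈ S, a i ≤ ∑ i ∈ S, (1 - a i) := by
  classical
  induction S using Finset.induction_on with
  | empty => simp
  | insert i S hi ih =>
    rw [Finset.prod_insert hi, Finset.sum_insert hi]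
    have h1 := h i (mem_insert_self _ _)
    have h2 := ih fun j hj => h j (mem_insert_of_mem hj)
    have h3 : ∏ j ∈ S, a j ≤ 1 :=
      Finset.prod_le_one (fun j hj => (h j (mem_insert_of_mem hj)).1)
        fun j hj => (h j (mem_insert_of_mem hj)).2
    have h4 : 0 ≤ ∏ j ∈ S, a j := Finset.prod_nonneg fun j hj => (h j (mem_insert_of_mem hj)).1
    nlinarith

omit [MeasurableSpace Ω] in
lemma G_sub (hθ : ∀ p, 0 ≤ θ p ∧ θ p ≤ 1) {S S' : Finset ℕ} (hS : S' ⊆ S) (x : Ω) :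
    0 ≤ G E S' θ x - G E S θ x ∧
    G E S' θ x - G E S θ x ≤ ∑ p ∈ S \ S', (E p).indicator (fun _ => (1 : ℝ)) x := by
  classical
  have e : G E S θ x = G E (S \ S') θ x * G E S' θ x := by
    unfold G
    rw [Finset.prod_sdiff hS]
  have h1 := G_nonneg (E := E) hθ S' x
  have h2 := G_le_one (E := E) hθ S' x
  have h3 := G_nonneg (E := E) hθ (S \ S') x
  have h4 := G_le_one (E := E) hθ (S \ S') x
  have h5 : 1 - G E (S \ S') θ x ≤ ∑ p ∈ S \ S', (E p).indicator (fun _ => (1 : ℝ)) x := by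
    refine (one_sub_prod_le (S \ S') _ fun p _ => fac_bounds hθ p x).trans ?_
    refine Finset.sum_le_sum fun p _ => ?_
    by_cases h : x ∈ E p
    · rw [if_pos h, Set.indicator_of_mem h]; linarith [(hθ p).1]
    · rw [if_neg h, Set.indicator_of_notMem h]; linarith
  rw [e]
  constructor
  · nlinarith
  · nlinarith

variable {μ : Measure Ω} [IsFiniteMeasure μ]

lemma int_G_insert (hE : ∀ p, MeasurableSet (E p)) (hθ : ∀ p, 0 ≤ θ p ∧ θ p ≤ 1)
    {S : Finset ℕ} {q : ℕ} (hq : q ∉ S) :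
    ∫ x, G E (insert q S) θ x ∂μ = ∫ x, G E S θ x ∂μ - (1 - θ q) * ∫ x in E q, G E S θ x ∂μ := by
  have hi := G_integrable (μ := μ) hE hθ S
  rw [integral_congr_ae (g := fun x => G E S θ x - (1 - θ q) * (E q).indicator (G E S θ) x)
    (by filter_upwards with x; exact G_insert hq x)]
  rw [integral_sub hi ((hi.indicator (hE q)).const_mul _), integral_const_mul,
    integral_indicator (hE q)]

lemma int_G_sub (hE : ∀ p, MeasurableSet (E p)) (hθ : ∀ p, 0 ≤ θ p ∧ θ p ≤ 1)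
    {S S' : Finset ℕ} (hS : S' ⊆ S) {F : Set Ω} :
    |∫ x in F, G E S' θ x ∂μ - ∫ x in F, G E S θ x ∂μ| ≤ ∑ p ∈ S \ S', μ.real (E p ∩ F) := by
  have hi := (G_integrable (μ := μ) hE hθ S).integrableOn (s := F)
  have hi' := (G_integrable (μ := μ) hE hθ S').integrableOn (s := F)
  rw [← integral_sub hi' hi]
  have h0 : 0 ≤ ∫ x in F, (G E S' θ x - G E S θ x) ∂μ :=
    integral_nonneg fun x => (G_sub hθ hS x).1
  rw [abs_of_nonneg h0]
  have hind : ∀ p, Integrable ((E p).indicator (fun _ => (1 : ℝ))) (μ.restrict F) := fun p =>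
    (integrable_const _).indicator (hE p)
  calc ∫ x in F, (G E S' θ x - G E S θ x) ∂μ ≤
      ∫ x in F, ∑ p ∈ S \ S', (E p).indicator (fun _ => (1 : ℝ)) x ∂μ := by
        refine integral_mono (hi'.sub hi) (integrable_finsetSum _ fun p _ => hind p) ?_
        intro x
        exact (G_sub hθ hS x).2
    _ = ∑ p ∈ S \ S', ∫ x in F, (E p).indicator (fun _ => (1 : ℝ)) x ∂μ :=
        integral_finsetSum _ fun p _ => hind p
    _ = _ := by
        refine Finset.sum_congr rfl fun p _ => ?_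
        rw [integral_indicator (hE p), setIntegral_const, smul_eq_mul, mul_one,
          measureReal_restrict_apply (hE p)]

end basic

/-! ## Blocks -/

/-- `y 0 = q`, `y (i + 1) = ⌈y i / 2⌉` -/
def yy (q : ℕ) : ℕ → ℕ
  | 0 => q
  | (i + 1) => (yy q i + 1) / 2

lemma yy_le (q : ℕ) : ∀ m : ℕ, (yy q m : ℝ) ≤ q / 2 ^ m + 1
  | 0 => by simp [yy]
  | (m + 1) => by
    have h := yy_le q m
    have h1 : ((yy q (m + 1) : ℕ) : ℝ) ≤ ((yy q m : ℝ) + 1) / 2 := by
      rw [yy]
      have := @Nat.cast_div_le ℝ _ _ _ (yy q m + 1) 2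
      push_cast at this
      exact this
    calc _ ≤ ((yy q m : ℝ) + 1) / 2 := h1
      _ ≤ ((q / 2 ^ m + 1) + 1) / 2 := by gcongr
      _ = _ := by rw [pow_succ]; field_simp; ring

lemma block_sum {T : Finset ℕ} {δ : ℝ}
    (hT : ∀ x : ℕ, ∑ p ∈ T.filter (fun p => x < p ∧ p ≤ 2 * x), wt p ≤ δ) (q : ℕ) :
    ∀ m : ℕ, ∑ p ∈ T.filter (fun p => yy q m < p ∧ p ≤ q), wt p ≤ m * δ
  | 0 => by
    have : T.filter (fun p => yy q 0 < p ∧ p ≤ q) = ∅ := by
      rw [Finset.filter_eq_empty_iff]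
      intro p _ hp
      simp only [yy] at hp
      omega
    rw [this]; simp
  | (m + 1) => by
    have ih := block_sum hT q m
    have hsub : T.filter (fun p => yy q (m + 1) < p ∧ p ≤ q) ⊆
        T.filter (fun p => yy q m < p ∧ p ≤ q) ∪
        T.filter (fun p => yy q (m + 1) < p ∧ p ≤ 2 * yy q (m + 1)) := by
      intro p hp
      rw [mem_filter] at hp
      rw [mem_union, mem_filter, mem_filter]
      have h2 : yy q m ≤ 2 * yy q (m + 1) := by rw [yy]; omega
      by_cases h : yy q m < p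
      · left; exact ⟨hp.1, h, hp.2.2⟩
      · right; exact ⟨hp.1, hp.2.1, by omega⟩
    calc _ ≤ ∑ p ∈ T.filter (fun p => yy q m < p ∧ p ≤ q) ∪
        T.filter (fun p => yy q (m + 1) < p ∧ p ≤ 2 * yy q (m + 1)), wt p :=
          Finset.sum_le_sum_of_subset_of_nonneg hsub fun p _ _ => wt_nonneg p
      _ ≤ ∑ p ∈ T.filter (fun p => yy q m < p ∧ p ≤ q), wt p +
        ∑ p ∈ T.filter (fun p => yy q (m + 1) < p ∧ p ≤ 2 * yy q (m + 1)), wt p := by
          have h1 := Finset.sum_union_inter (s₁ := T.filter (fun p => yy q m < p ∧ p ≤ q))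
            (s₂ := T.filter (fun p => yy q (m + 1) < p ∧ p ≤ 2 * yy q (m + 1))) (f := wt)
          have h3 : 0 ≤ ∑ p ∈ T.filter (fun p => yy q m < p ∧ p ≤ q) ∩
            T.filter (fun p => yy q (m + 1) < p ∧ p ≤ 2 * yy q (m + 1)), wt p :=
            Finset.sum_nonneg fun p _ => wt_nonneg p
          linarith
      _ ≤ m * δ + δ := add_le_add ih (hT _)
      _ = _ := by push_cast; ring

lemma wt_tendsto : Tendsto wt atTop (𝓝 0) := by
  have h := Real.isLittleO_log_id_atTop.tendsto_div_nhds_zero.comp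
    (tendsto_natCast_atTop_atTop (R := ℝ))
  exact h


/-- the error made at the exponent `q` -/
noncomputable def err (C ρ κ : ℝ) (r : ℕ → ℝ) (m : ℕ) (T : Finset ℕ) (q : ℕ) : ℝ :=
  r q + ∑ p ∈ T.filter (fun p => yy q m < p ∧ p < q),
    (C * (wt p * wt q + wt p * ρ ^ (q - p)) + κ * wt q * (C * wt p))

section main

variable {μ : Measure Ω} [IsFiniteMeasure μ] {E : ℕ → Set Ω} {κ C ρ : ℝ} {r : ℕ → ℝ} {m : ℕ}

lemma step_bound (hκ : 0 ≤ κ) (hE : ∀ p, MeasurableSet (E p)) {P : ℕ}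
    (hone : ∀ p ≥ P, μ.real (E p) ≤ C * wt p)
    (hpair : ∀ p ≥ P, ∀ q > p, μ.real (E p ∩ E q) ≤ C * (wt p * wt q + wt p * ρ ^ (q - p)))
    {θ : ℕ → ℝ} (hθ : ∀ p, 0 ≤ θ p ∧ θ p ≤ 1) {S : Finset ℕ} {q : ℕ} (hS : ∀ p ∈ S, P ≤ p ∧ p < q)
    (hmix : ∀ S' : Finset ℕ, (∀ p ∈ S', p ≤ yy q m) →
      |∫ x in E q, G E S' θ x ∂μ - κ * wt q * ∫ x, G E S' θ x ∂μ| ≤ r q) :
    |∫ x, G E (insert q S) θ x ∂μ - (∫ x, G E S θ x ∂μ) * (1 - (1 - θ q) * (κ * wt q))| ≤
      err C ρ κ r m S q := by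
  classical
  have hq : q ∉ S := fun h => lt_irrefl q (hS q h).2
  rw [int_G_insert hE hθ hq]
  set S' := S.filter (fun p => p ≤ yy q m) with hS'
  have hsub : S' ⊆ S := Finset.filter_subset _ _
  have hsd : S \ S' = S.filter (fun p => yy q m < p ∧ p < q) := by
    ext p
    rw [Finset.mem_sdiff, hS', mem_filter, mem_filter]
    constructor
    · rintro ⟨h1, h2⟩
      refine ⟨h1, ?_, (hS p h1).2⟩
      by_contra h3
      exact h2 ⟨h1, not_lt.1 h3⟩
    · rintro ⟨h1, h2, _⟩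
      exact ⟨h1, fun h3 => by omega⟩
  have h1 := int_G_sub (μ := μ) hE hθ hsub (F := E q)
  have h2 := int_G_sub (μ := μ) hE hθ hsub (F := Set.univ)
  have h3 := hmix S' (fun p hp => by rw [hS', mem_filter] at hp; exact hp.2)
  simp only [Measure.restrict_univ, Set.inter_univ] at h2
  rw [hsd] at h1 h2
  have h1' : ∑ p ∈ S.filter (fun p => yy q m < p ∧ p < q), μ.real (E p ∩ E q) ≤
      ∑ p ∈ S.filter (fun p => yy q m < p ∧ p < q), C * (wt p * wt q + wt p * ρ ^ (q - p)) := by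
    refine Finset.sum_le_sum fun p hp => ?_
    rw [mem_filter] at hp
    exact hpair p (hS p hp.1).1 q hp.2.2
  have h2' : ∑ p ∈ S.filter (fun p => yy q m < p ∧ p < q), μ.real (E p) ≤
      ∑ p ∈ S.filter (fun p => yy q m < p ∧ p < q), C * wt p := by
    refine Finset.sum_le_sum fun p hp => ?_
    rw [mem_filter] at hp
    exact hone p (hS p hp.1).1
  have hkw : 0 ≤ κ * wt q := mul_nonneg hκ (wt_nonneg q)
  set a := ∫ x, G E S θ x ∂μ with ha
  set a' := ∫ x, G E S' θ x ∂μ with ha'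
  set b := ∫ x in E q, G E S θ x ∂μ with hb
  set b' := ∫ x in E q, G E S' θ x ∂μ with hb'
  have e1 : a - (1 - θ q) * b - a * (1 - (1 - θ q) * (κ * wt q)) =
      -(1 - θ q) * (b - κ * wt q * a) := by ring
  have e2 : |b - κ * wt q * a| ≤ err C ρ κ r m S q := by
    have e3 : b - κ * wt q * a = -(b' - b) + (b' - κ * wt q * a') + κ * wt q * (a' - a) := by ring
    rw [e3]
    refine (abs_add_three _ _ _).trans ?_
    rw [abs_neg, abs_mul, abs_of_nonneg hkw]
    have e4 : κ * wt q * |a' - a| ≤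
        ∑ p ∈ S.filter (fun p => yy q m < p ∧ p < q), κ * wt q * (C * wt p) := by
      rw [← Finset.mul_sum]
      exact mul_le_mul_of_nonneg_left (h2.trans h2') hkw
    unfold err
    rw [Finset.sum_add_distrib]
    linarith [h1.trans h1']
  have h4 := hθ q
  rw [e1, abs_mul]
  have h5 : |-(1 - θ q)| ≤ 1 := by
    rw [abs_neg, abs_of_nonneg (by linarith)]; linarith
  have h6 : 0 ≤ |b - κ * wt q * a| := abs_nonneg _
  nlinarith

lemma exp_bound {x : ℝ} (h0 : 0 ≤ x) (h1 : x ≤ 1) : |1 - x - Real.exp (-x)| ≤ x ^ 2 := by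
  have h := Real.abs_exp_sub_one_sub_id_le (x := -x) (by rw [abs_neg, abs_of_nonneg h0]; exact h1)
  rw [abs_sub_comm] at h
  have e : 1 - x - Real.exp (-x) = -(Real.exp (-x) - 1 - -x) := by ring
  rw [e, abs_neg]
  rw [abs_sub_comm] at h
  rw [neg_sq] at h
  exact h

lemma err_insert {S : Finset ℕ} {q q' : ℕ} (hr : q' < q) :
    err C ρ κ r m (insert q S) q' = err C ρ κ r m S q' := by
  unfold err
  have : (insert q S).filter (fun p => yy q' m < p ∧ p < q') =
      S.filter (fun p => yy q' m < p ∧ p < q') := by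
    rw [Finset.filter_insert, if_neg (by omega)]
  rw [this]

lemma tele (hκ : 0 ≤ κ) (hE : ∀ p, MeasurableSet (E p)) {P : ℕ}
    (hone : ∀ p ≥ P, μ.real (E p) ≤ C * wt p)
    (hpair : ∀ p ≥ P, ∀ q > p, μ.real (E p ∩ E q) ≤ C * (wt p * wt q + wt p * ρ ^ (q - p)))
    (hone1 : ∀ p ≥ P, κ * wt p ≤ 1)
    {θ : ℕ → ℝ} (hθ : ∀ p, 0 ≤ θ p ∧ θ p ≤ 1)
    (hmix : ∀ q ≥ P, ∀ S' : Finset ℕ, (∀ p ∈ S', p ≤ yy q m) →
      |∫ x in E q, G E S' θ x ∂μ - κ * wt q * ∫ x, G E S' θ x ∂μ| ≤ r q)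
    (T : Finset ℕ) (hT : ∀ p ∈ T, P ≤ p) :
    |∫ x, G E T θ x ∂μ - μ.real Set.univ * Real.exp (-(κ * ∑ p ∈ T, (1 - θ p) * wt p))| ≤
      ∑ q ∈ T, (err C ρ κ r m T q + μ.real Set.univ * (κ * wt q) ^ 2) := by
  classical
  induction T using Finset.induction_on_max with
  | empty => simp [G]
  | insert q S hS ih =>
    have hq : q ∉ S := fun h => lt_irrefl q (hS q h)
    have hSP : ∀ p ∈ S, P ≤ p := fun p hp => hT p (mem_insert_of_mem hp)
    have hqP : P ≤ q := hT q (mem_insert_self _ _)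
    have ih' := ih hSP
    have hst := step_bound (m := m) hκ hE hone hpair hθ (S := S) (q := q)
      (fun p hp => ⟨hSP p hp, hS p hp⟩) (hmix q hqP)
    rw [Finset.sum_insert hq, Finset.sum_insert hq]
    have e0 : ∑ s ∈ S, (err C ρ κ r m (insert q S) s + μ.real Set.univ * (κ * wt s) ^ 2) =
        ∑ s ∈ S, (err C ρ κ r m S s + μ.real Set.univ * (κ * wt s) ^ 2) :=
      Finset.sum_congr rfl fun s hs => by rw [err_insert (hS s hs)]
    have e1 : err C ρ κ r m (insert q S) q = err C ρ κ r m S q := by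
      unfold err
      rw [Finset.filter_insert, if_neg (by omega)]
    rw [e0, e1]
    set x := (1 - θ q) * (κ * wt q) with hx
    have hkw : 0 ≤ κ * wt q := mul_nonneg hκ (wt_nonneg q)
    have hθq := hθ q
    have hx0 : 0 ≤ x := mul_nonneg (by linarith) hkw
    have hxk : x ≤ κ * wt q := by rw [hx]; nlinarith
    have hx1 : x ≤ 1 := hxk.trans (hone1 q hqP)
    have hexp : Real.exp (-(κ * ((1 - θ q) * wt q + ∑ p ∈ S, (1 - θ p) * wt p))) =
        Real.exp (-x) * Real.exp (-(κ * ∑ p ∈ S, (1 - θ p) * wt p)) := by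
      rw [← Real.exp_add]; congr 1; rw [hx]; ring
    rw [hexp]
    set B := μ.real Set.univ * Real.exp (-(κ * ∑ p ∈ S, (1 - θ p) * wt p)) with hB
    set M := μ.real Set.univ with hM
    have hM0 : 0 ≤ M := measureReal_nonneg
    set a := ∫ x, G E S θ x ∂μ with ha
    have ha0 : 0 ≤ a := integral_nonneg fun x => G_nonneg hθ S x
    have haM : a ≤ M := by
      calc a ≤ ∫ _, (1 : ℝ) ∂μ := integral_mono (G_integrable hE hθ S) (integrable_const _)
            (fun x => G_le_one hθ S x)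
        _ = M := by simp [hM]
    have hb := exp_bound hx0 hx1
    have he0 : 0 < Real.exp (-x) := Real.exp_pos _
    have he1 : Real.exp (-x) ≤ 1 := Real.exp_le_one_iff.2 (by linarith)
    have key : ∫ x, G E (insert q S) θ x ∂μ - M * (Real.exp (-x) *
        Real.exp (-(κ * ∑ p ∈ S, (1 - θ p) * wt p))) =
        (∫ x, G E (insert q S) θ x ∂μ - a * (1 - x)) + a * (1 - x - Real.exp (-x)) +
        Real.exp (-x) * (a - B) := by rw [hB]; ring
    rw [key]
    refine (abs_add_three _ _ _).trans ?_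
    rw [abs_mul, abs_mul, abs_of_nonneg ha0, abs_of_pos he0]
    have h7 : a * |1 - x - Real.exp (-x)| ≤ M * (κ * wt q) ^ 2 := by
      have : x ^ 2 ≤ (κ * wt q) ^ 2 := by gcongr
      have h8 : |1 - x - Real.exp (-x)| ≤ (κ * wt q) ^ 2 := hb.trans this
      have h9 : 0 ≤ |1 - x - Real.exp (-x)| := abs_nonneg _
      nlinarith
    have h10 : Real.exp (-x) * |a - B| ≤ |a - B| := by
      have := abs_nonneg (a - B)
      nlinarith
    linarith

end main

end Pool.Agent.U776.PL
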