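import Pool.Agent.U776.PL.Gen

set_option autoImplicit false

/-!
# Poisson law for rare events: the uniform estimate
-/

namespace Pool.Agent.U776.PL

open MeasureTheory Finset Filter Topology

lemma geo_tail {ρ : ℝ} (h0 : 0 ≤ ρ) (h1 : ρ < 1) (T : Finset ℕ) (p g : ℕ) :
    ∑ q ∈ T.filter (fun q => p + g ≤ q), ρ ^ (q - p) ≤ ρ ^ g / (1 - ρ) := by
  classical
  have hs : HasSum (fun k : ℕ => ρ ^ (g + k)) (ρ ^ g / (1 - ρ)) := by
    have := (hasSum_geometric_of_lt_one h0 h1).mul_left (ρ ^ g)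
    simpa [pow_add, div_eq_mul_inv] using this
  have e : ∑ q ∈ T.filter (fun q => p + g ≤ q), ρ ^ (q - p) =
      ∑ k ∈ (T.filter (fun q => p + g ≤ q)).image (fun q => q - p - g), ρ ^ (g + k) := by
    rw [Finset.sum_image]
    · refine Finset.sum_congr rfl fun q hq => ?_
      rw [mem_filter] at hq
      congr 1
      omega
    · intro q hq q' hq' h
      rw [Finset.mem_coe, mem_filter] at hq hq'
      simp only at h
      omega
  rw [e]
  exact sum_le_hasSum _ (fun k _ => pow_nonneg h0 _) hs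

/-- the elements of `T` which have another one at a distance `< g` above -/
def clo (T : Finset ℕ) (g : ℕ) : Finset ℕ := T.filter (fun p => ∃ q ∈ T, p < q ∧ q < p + g)

/-- the deterministic part of the error -/
noncomputable def errd (C ρ κ : ℝ) (m : ℕ) (T : Finset ℕ) : ℝ :=
  ∑ q ∈ T, (∑ p ∈ T.filter (fun p => yy q m < p ∧ p < q),
    (C * (wt p * wt q + wt p * ρ ^ (q - p)) + κ * wt q * (C * wt p)) + (κ * wt q) ^ 2)

/-- the deterministic part of the error is small -/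
theorem errd_small {C ρ κ : ℝ} (hκ : 0 ≤ κ) (hC : 0 ≤ C) (hρ0 : 0 ≤ ρ) (hρ1 : ρ < 1) (m : ℕ)
    {V ε : ℝ} (hV : 0 ≤ V) (hε : 0 < ε) :
    ∃ δ : ℝ, 0 < δ ∧ ∃ P0 : ℕ, ∀ T : Finset ℕ, (∀ p ∈ T, P0 ≤ p) →
      (∑ p ∈ clo T P0, wt p ≤ δ) →
      (∀ x : ℕ, ∑ p ∈ T.filter (fun p => x < p ∧ p ≤ 2 * x), wt p ≤ δ) → ∑ p ∈ T, wt p ≤ V →
      errd C ρ κ m T ≤ ε ∧ ∀ p ∈ T, κ * wt p ≤ 1 := by
  classical
  have h1ρ : 0 < 1 - ρ := by linarith
  set δ := ε / (4 * (C * (1 + κ) * (V + 1) * (m + 1) + C / (1 - ρ) + 1)) with hδ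
  have hδ0 : 0 < δ := by positivity
  set τ := ε / (4 * (κ ^ 2 * (V + 1) + 1)) with hτ
  have hτ0 : 0 < τ := by positivity
  have hpw : Tendsto (fun g : ℕ => C * (V * (ρ ^ g / (1 - ρ)))) atTop (𝓝 0) := by
    have := (tendsto_pow_atTop_nhds_zero_of_lt_one hρ0 hρ1)
    have h2 := ((this.div_const (1 - ρ)).const_mul V).const_mul C
    simpa using h2
  have hkw : Tendsto (fun p => κ * wt p) atTop (𝓝 0) := by
    simpa using wt_tendsto.const_mul κ
  obtain ⟨P1, hP1⟩ := ((hpw.eventually_lt_const (show (0 : ℝ) < ε / 4 by positivity)).and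
    ((hkw.eventually_lt_const one_pos).and
    (wt_tendsto.eventually_lt_const hτ0))).exists_forall_of_atTop
  refine ⟨δ, hδ0, P1, fun T hTP hclo hblk hsum => ⟨?_, fun p hp => (hP1 p (hTP p hp)).2.1.le⟩⟩
  unfold errd
  rw [Finset.sum_add_distrib]
  have hw0 : 0 ≤ ∑ p ∈ T, wt p := Finset.sum_nonneg fun p _ => wt_nonneg p
  -- the squares
  have hsq : ∑ q ∈ T, (κ * wt q) ^ 2 ≤ ε / 4 := by
    calc _ ≤ ∑ q ∈ T, κ ^ 2 * τ * wt q := by
          refine Finset.sum_le_sum fun q hq => ?_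
          have h1 := (hP1 q (hTP q hq)).2.2.le
          have h2 := wt_nonneg q
          calc (κ * wt q) ^ 2 = κ ^ 2 * (wt q * wt q) := by ring
            _ ≤ κ ^ 2 * (τ * wt q) := by gcongr
            _ = _ := by ring
      _ = κ ^ 2 * τ * ∑ q ∈ T, wt q := by rw [Finset.mul_sum]
      _ ≤ κ ^ 2 * τ * (V + 1) := by gcongr; linarith
      _ ≤ ε / 4 := by
          have e : κ ^ 2 * τ * (V + 1) = (ε / 4) * ((κ ^ 2 * (V + 1)) / (κ ^ 2 * (V + 1) + 1)) := by
            rw [hτ]; field_simp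
          rw [e]
          have : (κ ^ 2 * (V + 1)) / (κ ^ 2 * (V + 1) + 1) ≤ 1 := by
            rw [div_le_one (by positivity)]; linarith
          have h4 : 0 ≤ ε / 4 := by positivity
          nlinarith
  -- the errors
  have e1 : ∀ q ∈ T, ∑ p ∈ T.filter (fun p => yy q m < p ∧ p < q),
      (C * (wt p * wt q + wt p * ρ ^ (q - p)) + κ * wt q * (C * wt p)) ≤
      (C * (1 + κ) * (m * δ)) * wt q +
      ∑ p ∈ T.filter (fun p => p < q), C * (wt p * ρ ^ (q - p)) := by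
    intro q hq
    have e2 : ∑ p ∈ T.filter (fun p => yy q m < p ∧ p < q),
        (C * (wt p * wt q + wt p * ρ ^ (q - p)) + κ * wt q * (C * wt p)) =
        C * (1 + κ) * wt q * ∑ p ∈ T.filter (fun p => yy q m < p ∧ p < q), wt p +
        ∑ p ∈ T.filter (fun p => yy q m < p ∧ p < q), C * (wt p * ρ ^ (q - p)) := by
      rw [Finset.mul_sum, ← Finset.sum_add_distrib]
      refine Finset.sum_congr rfl fun p _ => ?_
      ring
    rw [e2]
    have e3 : ∑ p ∈ T.filter (fun p => yy q m < p ∧ p < q), wt p ≤ m * δ := by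
      refine le_trans ?_ (block_sum hblk q m)
      refine Finset.sum_le_sum_of_subset_of_nonneg ?_ fun p _ _ => wt_nonneg p
      intro p hp
      rw [mem_filter] at hp ⊢
      exact ⟨hp.1, hp.2.1, hp.2.2.le⟩
    have e4 : ∑ p ∈ T.filter (fun p => yy q m < p ∧ p < q), C * (wt p * ρ ^ (q - p)) ≤
        ∑ p ∈ T.filter (fun p => p < q), C * (wt p * ρ ^ (q - p)) := by
      refine Finset.sum_le_sum_of_subset_of_nonneg ?_ fun p _ _ => ?_
      · intro p hp
        rw [mem_filter] at hp ⊢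
        exact ⟨hp.1, hp.2.2⟩
      · have := wt_nonneg p
        positivity
    have h5 : C * (1 + κ) * wt q * ∑ p ∈ T.filter (fun p => yy q m < p ∧ p < q), wt p ≤
        C * (1 + κ) * wt q * (m * δ) := by
      have := wt_nonneg q
      gcongr
    linarith
  have hδ2 : C * (1 / (1 - ρ)) * δ + (C * (1 + κ) * (m * δ)) * (V + 1) ≤ ε / 4 := by
    have e : C * (1 / (1 - ρ)) * δ + (C * (1 + κ) * (m * δ)) * (V + 1) =
      (ε / 4) * ((C * (1 + κ) * (V + 1) * m + C / (1 - ρ)) /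
        (C * (1 + κ) * (V + 1) * (m + 1) + C / (1 - ρ) + 1)) := by
      rw [hδ]; field_simp; ring
    rw [e]
    have h3 : 0 ≤ C * (1 + κ) * (V + 1) := by positivity
    have h5 : 0 ≤ C / (1 - ρ) := by positivity
    have : (C * (1 + κ) * (V + 1) * m + C / (1 - ρ)) /
        (C * (1 + κ) * (V + 1) * (m + 1) + C / (1 - ρ) + 1) ≤ 1 := by
      rw [div_le_one (by positivity)]; nlinarith
    have h4 : 0 ≤ ε / 4 := by positivity
    nlinarith
  have e5 : ∑ q ∈ T, ∑ p ∈ T.filter (fun p => p < q), C * (wt p * ρ ^ (q - p)) ≤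
      ε / 4 + C * (1 / (1 - ρ)) * δ := by
    have e6 : ∑ q ∈ T, ∑ p ∈ T.filter (fun p => p < q), C * (wt p * ρ ^ (q - p)) =
        ∑ p ∈ T, ∑ q ∈ T.filter (fun q => p < q), C * (wt p * ρ ^ (q - p)) := by
      refine Finset.sum_comm' fun q p => ?_
      rw [mem_filter, mem_filter]
      tauto
    rw [e6]
    have e7 : ∀ p ∈ T, ∑ q ∈ T.filter (fun q => p < q), C * (wt p * ρ ^ (q - p)) ≤
        C * (wt p * (ρ ^ P1 / (1 - ρ))) + (if p ∈ clo T P1 then C * (1 / (1 - ρ)) * wt p else 0) := by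
      intro p hp
      rw [← Finset.mul_sum, ← Finset.mul_sum]
      have hwp := wt_nonneg p
      by_cases h : p ∈ clo T P1
      · rw [if_pos h]
        have h2 : ∑ q ∈ T.filter (fun q => p < q), ρ ^ (q - p) ≤ 1 / (1 - ρ) := by
          have h3 := geo_tail hρ0 hρ1 T p 0
          rw [pow_zero] at h3
          refine le_trans ?_ h3
          refine Finset.sum_le_sum_of_subset_of_nonneg ?_ fun _ _ _ => pow_nonneg hρ0 _
          intro q hq
          rw [mem_filter] at hq ⊢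
          exact ⟨hq.1, by omega⟩
        have h3 : C * (wt p * ∑ q ∈ T.filter (fun q => p < q), ρ ^ (q - p)) ≤
            C * (wt p * (1 / (1 - ρ))) := by gcongr
        have h4 : 0 ≤ C * (wt p * (ρ ^ P1 / (1 - ρ))) := by positivity
        nlinarith
      · rw [if_neg h, add_zero]
        have h2 : ∑ q ∈ T.filter (fun q => p < q), ρ ^ (q - p) ≤ ρ ^ P1 / (1 - ρ) := by
          refine le_trans ?_ (geo_tail hρ0 hρ1 T p P1)
          refine Finset.sum_le_sum_of_subset_of_nonneg ?_ fun _ _ _ => pow_nonneg hρ0 _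
          intro q hq
          rw [mem_filter] at hq ⊢
          refine ⟨hq.1, ?_⟩
          by_contra h3
          exact h (mem_filter.2 ⟨hp, q, hq.1, hq.2, by omega⟩)
        gcongr
    refine (sum_le_sum e7).trans ?_
    rw [sum_add_distrib]
    have e8 : ∑ p ∈ T, C * (wt p * (ρ ^ P1 / (1 - ρ))) ≤ ε / 4 := by
      calc _ = C * ((∑ p ∈ T, wt p) * (ρ ^ P1 / (1 - ρ))) := by
            rw [← Finset.mul_sum, ← Finset.sum_mul]
        _ ≤ C * (V * (ρ ^ P1 / (1 - ρ))) := by gcongr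
        _ ≤ ε / 4 := (hP1 _ le_rfl).1.le
    have e9 : ∑ p ∈ T, (if p ∈ clo T P1 then C * (1 / (1 - ρ)) * wt p else 0) ≤
        C * (1 / (1 - ρ)) * δ := by
      rw [← sum_filter]
      have h2 : T.filter (fun p => p ∈ clo T P1) = clo T P1 := by
        ext p
        rw [mem_filter]
        exact ⟨fun h => h.2, fun h => ⟨(mem_filter.1 h).1, h⟩⟩
      rw [h2, ← mul_sum]
      have h3 : 0 ≤ C * (1 / (1 - ρ)) := by positivity
      exact mul_le_mul_of_nonneg_left hclo h3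
    linarith
  have e10 := sum_le_sum e1
  rw [sum_add_distrib, ← mul_sum] at e10
  have e11 : C * (1 + κ) * (m * δ) * ∑ q ∈ T, wt q ≤ (C * (1 + κ) * (m * δ)) * (V + 1) := by
    gcongr
    linarith
  linarith

variable {Ω : Type*} [MeasurableSpace Ω]

/-- the mean of the product, with the error term of one measure -/
theorem gen_unif {μ : Measure Ω} [IsFiniteMeasure μ] {E : ℕ → Set Ω} {C ρ κ : ℝ} (hκ : 0 ≤ κ)
    (hE : ∀ p, MeasurableSet (E p)) {P : ℕ}
    (hone : ∀ p ≥ P, μ.real (E p) ≤ μ.real Set.univ * (C * wt p))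
    (hpair : ∀ p ≥ P, ∀ q > p, μ.real (E p ∩ E q) ≤
      μ.real Set.univ * (C * (wt p * wt q + wt p * ρ ^ (q - p))))
    (T : Finset ℕ) (hT : ∀ p ∈ T, P ≤ p) (hone1 : ∀ p ≥ P, κ * wt p ≤ 1) {θ : ℕ → ℝ}
    (hθ : ∀ p, 0 ≤ θ p ∧ θ p ≤ 1) {m : ℕ} {r : ℕ → ℝ}
    (hmix : ∀ q ≥ P, ∀ S' : Finset ℕ, (∀ p ∈ S', p ≤ yy q m) →
      |∫ x in E q, G E S' θ x ∂μ - κ * wt q * ∫ x, G E S' θ x ∂μ| ≤ r q) :
    |∫ x, G E T θ x ∂μ - μ.real Set.univ * Real.exp (-(κ * ∑ p ∈ T, (1 - θ p) * wt p))| ≤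
      ∑ q ∈ T, r q + μ.real Set.univ * errd C ρ κ m T := by
  have h := tele (m := m) (C := μ.real Set.univ * C) (ρ := ρ) (r := r) hκ hE (P := P)
    (fun p hp => by rw [mul_assoc]; exact hone p hp)
    (fun p hp q hq => by rw [mul_assoc]; exact hpair p hp q hq) hone1 hθ hmix T hT
  refine h.trans (le_of_eq ?_)
  unfold errd err
  rw [mul_sum, ← sum_add_distrib]
  refine sum_congr rfl fun q _ => ?_
  rw [mul_add, mul_sum, add_assoc]
  congr 2
  refine sum_congr rfl fun p _ => ?_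
  ring

end Pool.Agent.U776.PL
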